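import Pool.Agent.H48.V0T.S
import Pool.Agent.H44.V0P.Lab

/-!
# Several targets of one slope over slope-one places: the class theorem, statement

`frT`, `fhT`: the charts of the earlier window for the slope-one places, closed labels of the window
`w` for the targets. `LbT`: the labels of the targets on one event. `V0cTStmt`: on a part of constant
mass one target `c (k + u)` has a closed gradient, up to closed multiples of the gradients of the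
earlier targets.
-/

set_option autoImplicit false

namespace Pool.V0T

open Finset Real MvPolynomial
open Pool.Agent.H49.Ent Pool.Agent.H32.Dense
open Pool.STK hiding pr2
open Pool.KA Pool.KSAT Pool.K2S Pool.PB Pool.S6C
open Pool.GEN Pool.CHT Pool.CHX Pool.ISO Pool.LA91 Pool.AVG71 Pool.AVG5 Pool.D2F2 Pool.AVG57
open Pool.RCD Pool.AVG96 Pool.OWN68 Pool.V0F Pool.V0Q
open Pool.AJW (CfB)
open Pool.D2R (WinB gnh hgt hyb)
open Pool.PB.Trl (rt)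

/-- **The frame**: charts of the window `kb` below `k`, the labels `GN` above. -/
def frT {m J : ℕ} {F : Fam m J} (G : ℕ → PtT F → ℕ → MvPolynomial (Option (Fin m)) ℝ)
    (GN : PtT F → ℕ → MvPolynomial (Option (Fin m)) ℝ) (kb k : ℕ) :
    PtT F → ℕ → MvPolynomial (Option (Fin m)) ℝ := fun y l =>
  if l < k then G kb y l else GN y l

/-- The frame from the line; `wb`, `w`: the two windows. -/
def fhT {m J : ℕ} {F : Fam m J} (H : ℕ → LnT F → ℕ → MvPolynomial (Option (Fin m)) ℝ)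
    (HN : LnT F → ℕ → MvPolynomial (Option (Fin m)) ℝ) (kb k wb w : ℕ) :
    LnT F → ℕ → MvPolynomial (Option (Fin m)) ℝ := fun s l =>
  if l < k then H kb (upw wb w s) l else HN s l

/-- **The gradient of the target `c l`** in the direction of the place `i`: the charts of the window
`kb` for the places below `k`, the charts of the window `kn` for the targets below `l`, the label
`GN` for `l`. -/
noncomputable def ggT {m J : ℕ} (F : Fam m J) (c : ℕ → Fin m) (k : ℕ)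
    (G : ℕ → PtT F → ℕ → MvPolynomial (Option (Fin m)) ℝ)
    (GN : PtT F → ℕ → MvPolynomial (Option (Fin m)) ℝ) (kb kn : ℕ) (γ : ℕ → ℕ) (l : ℕ)
    (ω : F.Ω) (i : ℕ) : ℝ :=
  gnh F c l γ (folN G (fun y => GN y l) kb kn k l) (G kn) ω i

/-- **The labels of the targets** `c k, …, c (k + f)` on one event: closed at the window `w`, of
degree `≤ D`, near the charts `Gw` of the window up to `2 ^ (φ J)` and up to constants, with their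
own paths. -/
structure LbT {m J : ℕ} (F : Fam m J) (c : ℕ → Fin m) (k f D : ℕ) (w u φ E : ℝ) (sn : ℕ → ℝ → ℝ)
    (A : F.Ω → Prop) (g₀ : ℕ → ℕ) (Gw GN : PtT F → ℕ → MvPolynomial (Option (Fin m)) ℝ)
    (HN : LnT F → ℕ → MvPolynomial (Option (Fin m)) ℝ) : Prop where
  deg : ∀ l, k ≤ l → l ≤ k + f → (∀ y, (GN y l).totalDegree ≤ D) ∧
    ∀ s, (HN s l).totalDegree ≤ D
  dep : ∀ l, k ≤ l → l ≤ k + f → (∀ y, DepC c l (GN y l)) ∧ ∀ s, DepC c l (HN s l)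
  cls : ∀ l, k ≤ l → l ≤ k + f → ∀ ω, A ω → GN (ptr F J ω) l = HN (slam F ⌊w * J⌋₊ ω) l
  cfb : ∀ l, k ≤ l → l ≤ k + f → CfB F ⌊w * J⌋₊ E (c l) A (fun s => s) (fun s => HN s l)
  pos : ∀ l, k ≤ l → l ≤ k + f → ∀ ω, A ω →
    |F.x ω (c l) - eval (bt F ω) (GN (ptr F J ω) l)| ≤ 1 / 2 ^ ⌊(sn l w - φ) * J⌋₊
  near : ∃ κN : ℕ → F.Ω → ℝ, ∀ l, k ≤ l → l ≤ k + f → ∀ ω, A ω → ∀ x,
    NBx c (Gw (ptr F J ω)) g₀ ⌊w * J⌋₊ (F.t ω) l x →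
    |eval x (GN (ptr F J ω) l) + κN l ω - eval x (Gw (ptr F J ω) l)| ≤ 2 ^ (φ * J) / 2 ^ g₀ l
  cell : ∀ l, k ≤ l → l ≤ k + f → ∀ ω ν, A ω → A ν → ptr F J ω = ptr F J ν →
    |(F.x ω (c l) - eval (bt F ω) (GN (ptr F J ω) l)) -
      (F.x ν (c l) - eval (bt F ν) (GN (ptr F J ν) l))| ≤ 1 / 2 ^ ⌊(sn l w + 3 * u) * J⌋₊

/-- **(V0CT)** The class theorem for `f + 1` targets: slopes one below the place `k`, slope `s` of
the targets `c k, …, c (k + f)`; the unit `u`. The charts of the slope-one places are those of the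
window `b`, the labels `GN` of the targets are near the charts of `w`. `al`: the alive targets; the
positions of the other targets are known from the record and the positions of the earlier
places. -/
def V0cTStmt (f C : ℕ) (al : Fin (C + 1) → ℕ) : Prop :=
  ∀ (D D' k : ℕ) (s h θ : ℝ), 1 ≤ D → D ≤ D' → 1 ≤ k → 1 < s → 0 < h → h ≤ 1 → 0 < θ →
  ∃ (m₀ δ₀ T₀ : ℝ) (κp ζp : ℕ → ℝ), 0 < m₀ ∧ 0 < δ₀ ∧
  (∀ l ≤ f, 0 < κp l ∧ κp l ≤ 1 ∧ 0 ≤ ζp l ∧ ζp l ≤ θ * κp l) ∧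
  ∀ T : ℝ, T₀ ≤ T → ∃ Λ : ℝ, 1 ≤ Λ ∧ ∀ ι : ℝ, 0 < ι → ∃ φ₀ : ℝ, 0 < φ₀ ∧
  ∀ {m : ℕ} {S : PCl m} {c : ℕ → Fin m} {sn : ℕ → ℝ → ℝ} {G : Set ℝ} {b o φ : ℝ},
    LadT S c k f sn G b o φ → (range (k + f)).image c = univ.erase (c (k + f)) →
    ∀ {w u : ℝ} {lam : ℝ → ℝ} {sp : ℕ → ℝ → ℝ}, 0 < u → w ∈ G → φ ≤ φ₀ * u →
    -- the room
    b + Λ * u ≤ w → w + Λ * u ≤ o → o + Λ * u ≤ 1 → Λ * u ≤ b →
    (∀ l ≤ k + f, Λ * u ≤ sn l b ∧ sn l o + Λ * u ≤ 1) →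
    -- the levels of the targets, the digits of the position of the last place
    (∀ l, k ≤ l → l ≤ k + f → ∀ v ∈ G, b ≤ v → v ≤ o → |sn l v - sn l w - s * (v - w)| ≤ φ) →
    (∀ v : ℝ, b ≤ v → v ≤ o → |lam v - sn (k + f) w - s * (v - w)| ≤ φ) →
    -- the rows
    (∀ P₁ P₂ : ℝ, |P₁ - sn (k + f) w| ≤ Λ * u → |P₂ - sn (k + f) w| ≤ Λ * u → P₁ ≤ P₂ →
      RawN S (univ.erase (c (k + f))) (c (k + f)) P₁ (P₂ - P₁) h φ) →
    (∃ rk E : ℝ, rk < 1 ∧ 0 ≤ E ∧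
      AttG S ((range (k + f)).image c) (c (k + f)) w (sn (k + f) w) rk E ∧
      sn (k + f) w + E + Λ * u ≤ 1) →
    -- free velocities
    (∀ i < k, sp i b ≤ sn i b - φ) →
    (∀ (P : Fin k → ℚ) (w₁ : ℚ) (x' : ℝ), w ≤ w₁ → (w₁ : ℝ) ≤ w + φ → x' ∈ G → w₁ ≤ x' →
      x' ≤ w + Λ * u → (∀ i : Fin k, sn i w - w + u ≤ P i ∧ (P i : ℝ) ≤ sn i w - w + Λ * u) →
      (∀ l i : Fin k, l < i → (P i : ℝ) - (sn i w - w) + u / 2 ≤ P l - (sn l w - w)) →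
      FrI S c k sp b (fun i => (P i : ℝ)) w₁ x' (φ₀ * u)) →
    -- no look-ahead
    (∀ w₁ v y : ℚ, w ≤ w₁ → w₁ ≤ v → v ≤ y → (y : ℝ) ≤ w + Λ * u →
      NlI S (c (k + f)) w₁ v (lam v) (lam y) (φ₀ * u)) →
    -- the records
    (∀ w₁ : ℚ, w ≤ w₁ → (w₁ : ℝ) ≤ w + φ →
      ∃ η : ℝ, RNum S (fun J F => ptr F J) (vg (w₁ : ℝ)) η) →
    -- the windows of the charts
    ∀ {Dr N M : ℕ} {C₀ a Eb ηm : ℝ} {ow η σ : ℕ → ℝ} {lv bb : ℕ → ℕ → ℝ} {fb fn : ℕ → ℕ}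
      {nb n ks : ℕ}, 1 ≤ n → ks ≤ n → (∀ t ≤ nb, fb t ≤ N) → (∀ t ≤ n, fn t ≤ N) →
    fn 0 = fb nb → ow (fb 0) = b → ow (fn 0) = w → ow (fn ks) ≤ ow (fn n) →
    |ow (fn ks) - (w + u / s)| ≤ φ → |ow (fn n) - (w + u)| ≤ φ →
    (∀ t ≤ nb, ow (fb t) ∈ G) → (∀ t ≤ n, ow (fn t) ∈ G) →
    (∀ t < nb, ow (fb t) ≤ ow (fb (t + 1)) ∧ ow (fb (t + 1)) ≤ ow (fb t) + φ) →
    (∀ t < n, ow (fn t) ≤ ow (fn (t + 1)) ∧ ow (fn (t + 1)) ≤ ow (fn t) + φ) →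
    (∀ t ≤ N, ∀ l ≤ k + f, lv t l = sn l (ow t)) → C₀ * ηm ≤ φ →
    (∀ l ≤ k + f, Eb + sn l w + Λ * u ≤ 1) →
    ∀ E : ℝ, Bas S (fun J F A => ∀ {κ : ℝ} {z : ℕ → ℕ → ℕ}
      {g₀ : ℕ → ℕ → ℕ} {Gc : ℕ → PtT F → ℕ → MvPolynomial (Option (Fin m)) ℝ}
      {H : ℕ → LnT F → ℕ → MvPolynomial (Option (Fin m)) ℝ}
      {GN : PtT F → ℕ → MvPolynomial (Option (Fin m)) ℝ}
      {HN : LnT F → ℕ → MvPolynomial (Option (Fin m)) ℝ},
      WinB F c (k + f) D Dr N M C₀ a Eb ηm ow η σ lv bb κ z A g₀ Gc H →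
      (∀ t < nb, ∃ j ≤ M, z (fb t) j = ⌊ow (fb (t + 1)) * J⌋₊ - ⌊ow (fb t) * J⌋₊) →
      (∀ t < n, ∃ j ≤ M, z (fn t) j = ⌊ow (fn (t + 1)) * J⌋₊ - ⌊ow (fn t) * J⌋₊) →
      (∃ jq ≤ M, ∃ jT ≤ M, (z (fb 0) jq : ℝ) ≤ u * J ∧ z (fb 0) jq + 1 ≤ z (fb 0) jT) →
      (∀ l < k, CfB F ⌊b * J⌋₊ E (c l) A (fun s => s) (fun s => H (fb 0) s l)) →
      -- the labels of the targets
      LbT F c k f D' w u φ E sn A (g₀ (fn 0)) (Gc (fn 0)) GN HN →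
      -- the codes of the alive targets
      (∀ i, ∀ N' : ℕ, (N' : ℝ) ≤ (sn (k + al i) w + (1 + (s - 1) / s) * u) * J →
        CH (Pool.Agent.H49.Ent.cond F.p A True)
          (Pool.AVG57.cod F ⌊w * J⌋₊ (fun s' => HN s' (k + al i)) (c (k + al i)) N' 1 (D' + 1))
          (fun ω => (jet2 F c ⌊w * J⌋₊ (fhT H HN (fb 0) k ⌊b * J⌋₊ ⌊w * J⌋₊) 0 k
            (fun l' j' => sn l' w + T * u - (j' : ℝ) * w) ω, (cR F A w ω, F.W ω))) ≤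
          δ₀ * u * J) →
      (∀ i, ∀ N' : ℕ, (N' : ℝ) ≤ (sn (k + al i) w + u) * J →
        CH (Pool.Agent.H49.Ent.cond F.p A True)
          (Pool.AVG57.cod F ⌊w * J⌋₊ (fun s' => HN s' (k + al i)) (c (k + al i)) N' 0 (D' + 1))
          (fun ω => (jet2 F c ⌊w * J⌋₊ (fhT H HN (fb 0) k ⌊b * J⌋₊ ⌊w * J⌋₊) 0 k
            (fun l' j' => sn l' w + u + 400 * ((k : ℝ) + 2) * φ - (j' : ℝ) * w) ω,
            (cR F A (ow (fn n)) ω, F.W ω))) ≤ δ₀ * u * J) →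
      -- the other targets
      (∀ l ≤ f, l ∉ Set.range al → ∀ d : ℝ, 0 ≤ d → d ≤ s * u →
        CH (Pool.Agent.H49.Ent.cond F.p A True)
          (th0 F c (k + l) ⌊w * J⌋₊ (fhT H HN (fb 0) k ⌊b * J⌋₊ ⌊w * J⌋₊) (sn (k + l) w + d))
          (fun ω => (jh F c (k + l) ⌊w * J⌋₊ (fhT H HN (fb 0) k ⌊b * J⌋₊ ⌊w * J⌋₊)
            (fun l' => sn l' w + d) ω, (cR F A w ω, F.W ω))) ≤ δ₀ * u * J) →
      (∀ ω, A ω → ∀ l, k ≤ l → l ≤ k + f → ∀ i < l,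
        |ggT F c k Gc GN (fb 0) (fn n) (g₀ (fn 0)) l ω i| ≤ 2 ^ (ι * u * J)) ∧
      (∀ ω ν, A ω → A ν → ptr F J ω = ptr F J ν → ∀ l, k ≤ l → l ≤ k + f → ∀ i < k,
        |ggT F c k Gc GN (fb 0) (fn n) (g₀ (fn 0)) l ω i -
          ggT F c k Gc GN (fb 0) (fn n) (g₀ (fn 0)) l ν i| ≤ 2 ^ (-((s - 1) / s / 2 * u * J))) ∧
      ∃ (v W : ℕ) (A' : F.Ω → Prop) (la : LnT F → ℕ → ℝ) (laP : PtT F → ℕ → ℝ)
        (mu : LnT F → ℕ → Polynomial ℝ), v ≤ f ∧ v ∈ Set.range al ∧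
        ⌊w * J⌋₊ ≤ W ∧ (W : ℝ) ≤ (w + 2 * φ) * J ∧ Sub A' A ∧ m₀ * Pe F.p A ≤ Pe F.p A' ∧
        (∀ s' l, |la s' l| ≤ 2 ^ (ζp v * u * J)) ∧
        (∀ s', ∀ l, l ∉ Set.range al → la s' l = 0) ∧ (∀ s' i, (mu s' i).natDegree ≤ D' + 1) ∧
        ∀ ω, A' ω → (∀ l < v, la (slam F W ω) l = laP (ptr F J ω) l) ∧ ∀ i < k,
          |ggT F c k Gc GN (fb 0) (fn n) (g₀ (fn 0)) (k + v) ω i +
            ∑ l ∈ range v, la (slam F W ω) l *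
              ggT F c k Gc GN (fb 0) (fn n) (g₀ (fn 0)) (k + l) ω i -
            (mu (slam F W ω) i).eval (rt F W ω)| ≤ 2 ^ (-(κp v * u * J)))

end Pool.V0T
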