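import Pool.Agent.H48.V0T.Par
import Pool.Agent.H25.V0P.St3

/-!
# Several targets, the last one is the pivot: statements

`V0tFinF`: the law of `f + 1` targets of which the first `f` ones have full digits: a combination of
the gradients with the coefficient one at the last target is closed. `FulTStmt`: the fullness in the
class.
-/

set_option autoImplicit false

namespace Pool.V0T

open Finset Real MvPolynomial
open Pool.Agent.H49.Ent Pool.Agent.H32.Dense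
open Pool.STK hiding pr2
open Pool.KA Pool.KSAT Pool.K2S Pool.PB Pool.S6C
open Pool.GEN Pool.CHT Pool.CHX Pool.ISO Pool.LA91 Pool.AVG71 Pool.AVG5 Pool.D2F2 Pool.AVG57
open Pool.RCD Pool.AVG96 Pool.OWN68 Pool.V0F Pool.V0Q
open Pool.PB.Trl (rt)
open Pool.LV64 (GrdV PrV Vm Mm)
open Pool.D2R (hgt)
open Pool.KAF (rs Pr)
open Pool.BFL (Pb)
open Pool.V0F (VLaw2)
open Pool.V0P (jp)

/-- **The event theorem for several targets, last pivot.** The targets are in the order of the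
places; the digits of the targets before the last one are full, given the far digits of the earlier
targets, the near digits of the others and all closed functions. On an event of mass `m₀` a
combination of the gradients is closed, with the coefficient `1` at the last target; the other
coefficients are closed, `≤ 2 ^ (ζ₂ X)`. -/
def V0tFinF (f : ℕ) : Prop := ∀ (k K : ℕ) (h θ : ℝ), 1 ≤ K → 0 < h → h ≤ 1 → 0 < θ →
  ∃ κ₂ ζ₂ : ℝ, 0 < κ₂ ∧ κ₂ ≤ 1 / 4 ∧ 0 ≤ ζ₂ ∧ ζ₂ ≤ θ * κ₂ ∧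
  ∃ (κ π₀ m₀ τ ε₀ Ca : ℝ) (j₀ X₀ : ℕ), 0 < κ ∧ κ ≤ 1 ∧ 0 < π₀ ∧ π₀ ≤ 1 ∧ 0 < m₀ ∧ 0 < τ ∧
    0 < ε₀ ∧ 0 ≤ Ca ∧
    ∀ {m J : ℕ} {F : Fam m J} {c : ℕ → Fin m} {mv : Fin k → ℕ} {tg qt : Fin (f + 1) → ℕ}
      {q w W X mm D : ℕ} {γ : ℕ → ℕ} {B : F.Ω → Prop}
      {G₀ : PtT F → ℕ → MvPolynomial (Option (Fin m)) ℝ}
      {H : LnT F → ℕ → MvPolynomial (Option (Fin m)) ℝ} {gg : F.Ω → Fin (f + 1) → Fin k → ℝ}
      {ζ χ₁ χ₂ ρ₁ ρ₂ ρ₃ ξ₆ : Type} {zw : F.Ω → ζ} {Cj : F.Ω → χ₁} {Cx : F.Ω → χ₂}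
      {Rj : F.Ω → ρ₁} {Rx : F.Ω → ρ₂} {R' : F.Ω → ρ₃} {XJ : F.Ω → ξ₆} {p : F.Ω → ℝ}
      {Nf Nn Nu Nv : Fin k → ℕ → ℝ} {nb : Fin k → ℝ} {Mf Mn vt : Fin (f + 1) → ℝ}
      {U Fv Gf κ' e₁ d ψ : ℝ},
      IsLaw p → (∀ ω, 0 < p ω → B ω) → w ≤ W → W + X ≤ J →
      (∀ s l, (H s l).totalDegree ≤ D) → D + 1 ≤ K →
      -- the charts are closed; the gradients
      (∀ ω, B ω → (∀ u, G₀ (ptr F J ω) (tg u) = H (slam F w ω) (tg u)) ∧
        ∀ j, G₀ (ptr F J ω) (mv j) = H (slam F w ω) (mv j)) →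
      GrdV F c mv tg qt (fun _ => X) q X γ U B G₀ gg (fun _ => ()) Cj Cx → U + 1 ≤ 2 ^ mm →
      -- the law
      VLaw2 p zw Rj Rx R' F.W (jp F c 0 mv w H fun l => Nn l 0) (jp F c 0 mv w H fun l => Nf l 0)
        (jp F c 1 mv w H fun l => Nn l 1) (jp F c 1 mv w H fun l => Nf l 1)
        (jp F c 0 tg w H Mn) (jp F c 0 tg w H Mf) XJ Fv Gf κ' →
      Det p Rj Cj → Det p Rx Cx → Det p (slam F W) zw → Det p (ptr F J) zw →
      -- the digits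
      (∀ l, Nn l 0 * J ≤ (γ (mv l) + q : ℕ)) →
      (∀ l, Nn l 1 * J + W ≤ (γ (mv l) + q + (X + mm) : ℕ)) →
      (∀ l, Nu l 0 * J ≤ (γ (mv l) + q : ℕ)) →
      (∀ l, Nu l 1 * J + W ≤ (γ (mv l) + q + (X + mm) : ℕ)) →
      (∀ u, Mn u * J ≤ (γ (tg u) + qt u : ℕ)) →
      (∀ u, ((γ (tg u) + qt u : ℕ) : ℝ) ≤ Mn u * J + d) →
      (∀ u, ((γ (tg u) + qt u + X : ℕ) : ℝ) ≤ Mf u * J) →
      (∀ u, Mf u * J ≤ (γ (tg u) + qt u + X : ℕ) + d) →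
      -- the own velocities of the targets are small
      (∀ u, vt u * J + W ≤ (γ (tg u) + qt u : ℕ)) →
      (∀ ω, 0 < p ω → ∀ u,
        |(2 : ℝ) ^ (vt u * J) * ojet F (c (tg u)) 1 (H (slam F w ω) (tg u)) ω| < 1) →
      -- the codes of the orders `≥ 2` of the moved places
      (∀ l, CH p (Pool.AVG71.cod F W 2 K (2 ^ (γ (mv l) + q + (X + mm))) (c (mv l))
        (fun s => upw w W s) (fun s => H s (mv l))) F.W ≤ e₁) →
      (∀ l, ((γ (mv l) + q + (X + mm) : ℕ) : ℝ) ≤ Nf l 0 * J) →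
      (∀ l, ((γ (mv l) + q + (X + mm) : ℕ) : ℝ) ≤ Nf l 1 * J + W) →
      (∀ l, ((γ (mv l) + q : ℕ) : ℝ) ≤ Nv l 0 * J) →
      (∀ l, ((γ (mv l) + q + (X + mm) : ℕ) : ℝ) ≤ Nv l 1 * J + W) →
      (∀ l, Nv l 1 = Nn l 1) → 0 ≤ d → (∀ l, (Nv l 0 - Nn l 0) * J ≤ d) →
      -- `dj`, `jt` for all targets
      (∀ u, CH p (Pool.AVG57.cod F w (fun s => H s (tg u)) (c (tg u)) (γ (tg u) + qt u + X) 1 K)
        (fun ω => (jetm F c mv w H Nf ω, (zw ω, F.W ω))) ≤ e₁) →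
      (∀ u, CH p (Pool.AVG57.cod F w (fun s => H s (tg u)) (c (tg u)) (γ (tg u) + qt u) 0 K)
        (fun ω => (jetm F c mv w H Nu ω, (Rx ω, F.W ω))) ≤ e₁) →
      -- near digits of the moved places
      CH p (jp F c 0 mv w H nb) (fun ω => (R' ω, F.W ω)) ≤ κ' →
      k * (X * Real.log 2) - κ' ≤ CH p (jp F c 0 mv w H nb)
        (fun ω => (jp F c 0 mv w H (fun l => Nn l 0) ω, (Rx ω, F.W ω))) →
      (∀ l, ((γ (mv l) + q + X : ℕ) : ℝ) ≤ nb l * J) →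
      (∀ l, nb l * J ≤ (γ (mv l) + q + (X + mm) : ℕ)) →
      -- the cells: samples of one point
      (∀ ω ν, 0 < p ω → 0 < p ν → ptr F J ω = ptr F J ν →
        (∀ j, |hgt F c G₀ ω (mv j) - hgt F c G₀ ν (mv j)| ≤
          1 / 2 ^ (γ (mv j) + q + (X + mm))) ∧
        ∀ u, |hgt F c G₀ ω (tg u) - hgt F c G₀ ν (tg u)| ≤ 1 / 2 ^ (γ (tg u) + qt u + X)) →
      -- the rows of all targets, blocks `(q, q + j ⌊κ X⌋]`
      (∀ j : ℕ, j * ⌊κ * X⌋₊ ≤ X → ∀ E : Set F.Ω, π₀ ≤ Pr p E →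
        CH (rs p E) (Mm F c tg w H (fun u => γ (tg u) + qt u + j * ⌊κ * X⌋₊))
          (fun ω => (Mm F c tg w H (fun u => γ (tg u) + qt u) ω,
            (jp F c 0 mv w H nb ω, (F.W ω, zw ω)))) ≤
          ((f : ℝ) + 1 - h) * (j * (κ * X)) * Real.log 2 + τ * X) →
      -- the digits of the earlier targets are full, blocks `(q + i ⌊κ X⌋, q + j ⌊κ X⌋]`
      (∀ i j : ℕ, i ≤ j → j * ⌊κ * X⌋₊ ≤ X → ∀ v : Fin (f + 1), v < Fin.last f →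
        ∀ (V : Type) (z : PtT F → V) (z' : LnT F → V) (E : F.Ω → Prop),
        (∀ ω, 0 < p ω → E ω → z (ptr F J ω) = z' (slam F W ω)) → π₀ ≤ Pe p E →
        (j - i) * (κ * X) * Real.log 2 - τ * X ≤ CH (Pool.Agent.H49.Ent.cond p E True)
          (fun ω => Mm F c tg w H (fun u => γ (tg u) + qt u + j * ⌊κ * X⌋₊) ω v)
          (fun ω => (z' (slam F W ω),
            (Mm F c tg w H (fun u => γ (tg u) + qt u + (if u < v then j else i) * ⌊κ * X⌋₊) ω,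
              (jp F c 0 mv w H nb ω, (F.W ω, zw ω)))))) →
      TimW F p W j₀ ε₀ ψ → X₀ ≤ X →
      κ' + d + e₁ + Ca + ψ * J ≤ τ * X → (mm : ℝ) ≤ τ * X →
      ∃ (G : F.Ω → Prop) (lam : LnT F → Fin (f + 1) → ℝ) (lamP : PtT F → Fin (f + 1) → ℝ)
        (mu : LnT F → Fin k → Polynomial ℝ),
        m₀ ≤ Pe p G ∧ (∀ s, lam s (Fin.last f) = 1) ∧
        (∀ s l, |lam s l| ≤ (2 : ℝ) ^ (ζ₂ * X)) ∧ (∀ s j, (mu s j).natDegree ≤ K) ∧
        ∀ ω, 0 < p ω → G ω → lam (slam F W ω) = lamP (ptr F J ω) ∧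
          ∀ j, |∑ u, lam (slam F W ω) u * gg ω u j - (mu (slam F W ω) j).eval (rt F W ω)| ≤
            (2 : ℝ) ^ (-(κ₂ * X))

/-- **The fullness** of the digits of the targets before the last one on parts of the event, blocks
`(i, i']`, given the digits `i'` of the earlier targets and the digits `i` of the others. -/
def FulTStmt (f : ℕ) : Prop := ∀ k : ℕ, ∃ Cf : ℝ, 1 ≤ Cf ∧
  ∀ {m : ℕ} {S : PCl m} {c : ℕ → Fin m} {D : ℕ} {sn : ℕ → ℝ → ℝ} {G : Set ℝ} {b o φ : ℝ},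
    LadT S c k f sn G b o φ → (range (k + f)).image c = univ.erase (c (k + f)) →
    ∀ {s w u y ξ T Λ C κ e : ℝ} {lam : ℝ → ℝ} {j x x' xr xq w₁ vq oq : ℝ} {xa : ℕ → ℝ},
    NP k f s sn G b o φ w u y ξ T Λ C κ e lam j x x' xr xq w₁ vq oq xa → Cf ≤ C →
    ∀ π₀ : ℝ, 0 < π₀ → ∀ ε : ℝ, 0 < ε → ∀ Ec : ℝ,
    Bas S (fun J F A => ∀ Hb H : LnT F → ℕ → MvPolynomial (Option (Fin m)) ℝ,
      LDP F c k f D b w φ Ec sn A Hb H → ∀ i i' : ℕ, i < i' → (i' : ℝ) * κ ≤ 1 → ∀ v < f,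
      ∀ B : F.Ω → Prop, Sub B A → π₀ * Pe F.p A ≤ Pe F.p B →
      ∀ (V : Type) (z : F.Ω → V), Cl2 (ptr F J) (vg (w + 1000 * φ) J F) B z →
      (((i' - i) * κ * (ξ * u) - 30 * y) * Real.log 2 - 8 * ((f : ℝ) + 1) * Cf * φ - ε) * J ≤
        CH (Pool.Agent.H49.Ent.cond F.p B True)
          (th0 F c (k + v) ⌊w * J⌋₊ H
            (sn (k + v) w + u + 500 * y + i' * κ * (ξ * u) - 2 * φ))
          (fun ω => (thT F c k f ⌊w * J⌋₊ H (fun v' => if v' = f then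
              sn (k + f) w + u + 500 * y + i * κ * (ξ * u) else
              sn (k + v') (xa (if v' < v then i' else i)) - Cf * φ) ω,
            (jh F c k ⌊w * J⌋₊ H (nfP k sn w xr φ) ω, (z ω, F.W ω)))))

end Pool.V0T
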