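import Pool.Agent.H48.V0T.Par
import Pool.Agent.H44.V0F.Evd

/-!
# The labels of one event for several targets

`ldt_of`: `LDP` from `WinB` for the slope-one places and from the labels `LbT` of the targets.
-/

set_option autoImplicit false

namespace Pool.V0T

open Finset Real MvPolynomial
open Pool.Agent.H49.Ent Pool.Agent.H32.Dense
open Pool.STK hiding pr2
open Pool.KA Pool.KSAT Pool.K2S Pool.PB Pool.S6C
open Pool.GEN Pool.CHT Pool.CHX Pool.ISO Pool.LA91 Pool.AVG71 Pool.AVG5 Pool.D2F2 Pool.AVG57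
open Pool.RCD Pool.AVG96 Pool.OWN68 Pool.V0F Pool.V0Q
open Pool.AJW (CfB)
open Pool.GRD (LbP)
open Pool.D2R (WinB gnh hgt hyb)

/-- **The labels of the event.** -/
theorem ldt_of {m J : ℕ} {F : Fam m J} {c : ℕ → Fin m} {k f D D' Dr N M : ℕ} {C₀ a Eb ηm : ℝ}
    {o η σ : ℕ → ℝ} {lv bb : ℕ → ℕ → ℝ} {κ : ℝ} {z : ℕ → ℕ → ℕ} {A : F.Ω → Prop}
    {g₀ : ℕ → ℕ → ℕ} {G : ℕ → PtT F → ℕ → MvPolynomial (Option (Fin m)) ℝ}
    {H : ℕ → LnT F → ℕ → MvPolynomial (Option (Fin m)) ℝ}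
    (W : WinB F c (k + f) D Dr N M C₀ a Eb ηm o η σ lv bb κ z A g₀ G H) (hD : D ≤ D')
    {kb kw : ℕ} (hb : kb ≤ N) (hw : kw ≤ N) {u φ E : ℝ} {sn : ℕ → ℝ → ℝ} (hbw : o kb ≤ o kw)
    (hw1 : o kw ≤ 1) (hC : C₀ * ηm ≤ φ) (lb : ∀ l ≤ k + f, lv kb l = sn l (o kb))
    (cb : ∀ l < k, CfB F ⌊o kb * J⌋₊ E (c l) A (fun s => s) (fun s => H kb s l))
    {GN : PtT F → ℕ → MvPolynomial (Option (Fin m)) ℝ}
    {HN : LnT F → ℕ → MvPolynomial (Option (Fin m)) ℝ}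
    (L : LbT F c k f D' (o kw) u φ E sn A (g₀ kw) (G kw) GN HN) :
    LDP F c k f D' (o kb) (o kw) φ E sn A (H kb)
      (fhT H HN kb k ⌊o kb * J⌋₊ ⌊o kw * J⌋₊) := by
  have hJ : (0 : ℝ) ≤ J := Nat.cast_nonneg J
  have hη0 : 0 ≤ ηm := (W.hη kb hb).1.trans (W.hη kb hb).2
  have hηφ : ηm ≤ φ := (le_mul_of_one_le_left hη0 W.C1).trans hC
  have hfw : ⌊o kw * (J : ℝ)⌋₊ ≤ J := floor_le hw1 J
  have hfb : ⌊o kb * (J : ℝ)⌋₊ ≤ ⌊o kw * J⌋₊ :=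
    Nat.floor_le_floor (mul_le_mul_of_nonneg_right hbw hJ)
  have pr : ∀ t ≤ N, ∀ l ≤ k + f, lv t l = sn l (o t) → ⌊(sn l (o t) - φ) * J⌋₊ ≤ g₀ t l := by
    intro t ht l hl he
    obtain ⟨-, -, h1, -⟩ := W.g_num ht hl
    refine Nat.floor_le_of_le ?_
    rw [he] at h1
    have : ηm * J ≤ φ * J := mul_le_mul_of_nonneg_right hηφ hJ
    linarith
  refine ⟨fun l hl => ?_, fun l h1 h2 => ?_, cb, fun l h1 h2 => ?_, fun ω l hl => ?_⟩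
  · exact ⟨_, _, _, _, (lb_of (W.ev kb hb).ball (fun ω hω l hl => (W.ev kb hb).cls ω hω l hl)
      (show l < k + f + 1 by omega) (pr kb hb l (by omega) (lb l (by omega)))).mono
        (Finset.Subset.refl _) hD le_rfl, fun s => rfl⟩
  · refine ⟨{g : MvPolynomial (Option (Fin m)) ℝ // g.totalDegree ≤ D' ∧ DepC c l g},
      fun y => ⟨GN y l, (L.deg l h1 h2).1 y, (L.dep l h1 h2).1 y⟩,
      fun s => ⟨HN s l, (L.deg l h1 h2).2 s, (L.dep l h1 h2).2 s⟩, Subtype.val,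
      ⟨fun v => v.2.1, fun v b b' hn hb => v.2.2 b b' hn fun i hi => hb _
        (Finset.mem_image_of_mem c (mem_range.2 hi)), fun ω hω => ?_, fun ω hω => ?_⟩,
      fun s => ?_⟩
    · exact Subtype.ext (L.cls l h1 h2 ω hω)
    · have e1 := L.pos l h1 h2 ω hω
      rw [L.cls l h1 h2 ω hω] at e1
      exact e1
    · show HN s l = fhT H HN kb k ⌊o kb * J⌋₊ ⌊o kw * J⌋₊ s l
      unfold fhT
      rw [if_neg (by omega)]
  · have e1 := L.cfb l h1 h2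
    have e2 : (fun s => fhT H HN kb k ⌊o kb * J⌋₊ ⌊o kw * J⌋₊ s l) = fun s => HN s l := by
      funext s
      unfold fhT
      rw [if_neg (by omega)]
    rw [e2]
    exact e1
  · unfold fhT
    rw [if_pos hl, upw_slam F hfb hfw]

/-- The frame is closed at the window. -/
theorem frt_cls {m J : ℕ} {F : Fam m J} {c : ℕ → Fin m} {k f D D' Dr N M : ℕ} {C₀ a Eb ηm : ℝ}
    {o η σ : ℕ → ℝ} {lv bb : ℕ → ℕ → ℝ} {κ : ℝ} {z : ℕ → ℕ → ℕ} {A : F.Ω → Prop}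
    {g₀ : ℕ → ℕ → ℕ} {G : ℕ → PtT F → ℕ → MvPolynomial (Option (Fin m)) ℝ}
    {H : ℕ → LnT F → ℕ → MvPolynomial (Option (Fin m)) ℝ}
    (W : WinB F c (k + f) D Dr N M C₀ a Eb ηm o η σ lv bb κ z A g₀ G H)
    {kb kw : ℕ} (hb : kb ≤ N) {u φ E : ℝ} {sn : ℕ → ℝ → ℝ} (hbw : o kb ≤ o kw)
    (hw1 : o kw ≤ 1) {GN : PtT F → ℕ → MvPolynomial (Option (Fin m)) ℝ}
    {HN : LnT F → ℕ → MvPolynomial (Option (Fin m)) ℝ}
    (L : LbT F c k f D' (o kw) u φ E sn A (g₀ kw) (G kw) GN HN) :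
    ∀ ω, A ω → ∀ l ≤ k + f, frT G GN kb k (ptr F J ω) l =
      fhT H HN kb k ⌊o kb * J⌋₊ ⌊o kw * J⌋₊ (slam F ⌊o kw * J⌋₊ ω) l := by
  intro ω hω l hl
  have hJ : (0 : ℝ) ≤ J := Nat.cast_nonneg J
  have hfw : ⌊o kw * (J : ℝ)⌋₊ ≤ J := floor_le hw1 J
  have hfb : ⌊o kb * (J : ℝ)⌋₊ ≤ ⌊o kw * J⌋₊ :=
    Nat.floor_le_floor (mul_le_mul_of_nonneg_right hbw hJ)
  unfold frT fhT
  split_ifs with h
  · rw [upw_slam F hfb hfw]
    exact (W.ev kb hb).cls ω hω l (by omega)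
  · exact L.cls l (by omega) hl ω hω

/-- The degrees of the frame. -/
theorem fht_deg {m J : ℕ} {F : Fam m J} {c : ℕ → Fin m} {k f D D' Dr N M : ℕ} {C₀ a Eb ηm : ℝ}
    {o η σ : ℕ → ℝ} {lv bb : ℕ → ℕ → ℝ} {κ : ℝ} {z : ℕ → ℕ → ℕ} {A : F.Ω → Prop}
    {g₀ : ℕ → ℕ → ℕ} {G : ℕ → PtT F → ℕ → MvPolynomial (Option (Fin m)) ℝ}
    {H : ℕ → LnT F → ℕ → MvPolynomial (Option (Fin m)) ℝ}
    (W : WinB F c (k + f) D Dr N M C₀ a Eb ηm o η σ lv bb κ z A g₀ G H) (hD : D ≤ D')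
    {kb : ℕ} (hb : kb ≤ N) {w u φ E : ℝ} {sn : ℕ → ℝ → ℝ} {γ : ℕ → ℕ}
    {Gw GN : PtT F → ℕ → MvPolynomial (Option (Fin m)) ℝ}
    {HN : LnT F → ℕ → MvPolynomial (Option (Fin m)) ℝ}
    (L : LbT F c k f D' w u φ E sn A γ Gw GN HN) (wb w' : ℕ) (s : LnT F) (l : ℕ)
    (hl : l ≤ k + f) : (fhT H HN kb k wb w' s l).totalDegree ≤ D' := by
  unfold fhT
  split_ifs with h
  · exact ((W.ev kb hb).ball.degH _ _).trans hD
  · exact (L.deg l (by omega) hl).2 s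

end Pool.V0T
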