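import Pool.Agent.H44.V0P.S2
import Pool.Agent.H71.V0R.Nur

/-!
# Several places of one slope over slope-one places: statements

`LadT`: the ladder `LadR` of a chain `c 0, …, c (k - 1)` of slopes one and the targets
`c k, …, c (k + f)`, all of equal slopes. `qTg`: the heights of the targets. `NlqrStmt`: no
look-ahead for all targets; `RwrStmt`: the rows of all targets on parts of the event.
-/

set_option autoImplicit false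

namespace Pool.V0T

open Finset Real MvPolynomial
open Pool.Agent.H49.Ent Pool.Agent.H32.Dense Pool.STK Pool.KA Pool.KSAT Pool.K2S Pool.PB Pool.GEN
open Pool.S6C Pool.RCD Pool.LA91 Pool.AVG96 Pool.OWN68 Pool.V0F
open Pool.VT83 (NlqI)
open Pool.V0R (LadR)

/-- **The ladder of windows** with the targets `c k, …, c (k + f)` of equal slopes. -/
structure LadT {m : ℕ} (S : PCl m) (c : ℕ → Fin m) (k f : ℕ) (sn : ℕ → ℝ → ℝ) (G : Set ℝ)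
    (b o φ : ℝ) : Prop extends LadR S c k f sn G b o φ where
  et : ∀ v ∈ G, ∀ v' ∈ G, b ≤ v → v ≤ v' → v' ≤ o →
    |(sn (k + f) v' - sn (k + f) v) - (sn k v' - sn k v)| ≤ φ

namespace LadT

variable {m : ℕ} {S : PCl m} {c : ℕ → Fin m} {k f : ℕ} {sn : ℕ → ℝ → ℝ} {G : Set ℝ} {b o φ : ℝ}

/-- All targets have equal slopes. -/
theorem eqa (L : LadT S c k f sn G b o φ) {l : ℕ} (h1 : k ≤ l) (h2 : l ≤ k + f) :
    ∀ v ∈ G, ∀ v' ∈ G, b ≤ v → v ≤ v' → v' ≤ o →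
      |(sn l v' - sn l v) - (sn k v' - sn k v)| ≤ φ := by
  rcases Nat.lt_or_eq_of_le h2 with h | rfl
  · exact L.eq l h1 h
  · exact L.et

/-- **Fewer targets.** -/
theorem tk (L : LadT S c k f sn G b o φ) {u : ℕ} (hu : u ≤ f) : LadT S c k u sn G b o φ := by
  rcases Nat.lt_or_eq_of_le hu with h | rfl
  · exact ⟨L.toLadR.take h, L.eqa (Nat.le_add_right k u) (by omega)⟩
  · exact L

/-- **A shorter ladder.** -/
theorem ct (L : LadT S c k f sn G b o φ) {b' : ℝ} (hb : b' ∈ G) (h1 : b ≤ b') (h2 : b' ≤ o) :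
    LadT S c k f sn G b' o φ :=
  ⟨L.toLadR.cut hb h1 h2, fun v hv v' hv' h3 => L.et v hv v' hv' (h1.trans h3)⟩

end LadT

/-- **The heights of the targets** `c k, …, c (k + C - 1)` over closed labels of the window `w`, of
the precisions `pr`, to `M` digits. -/
noncomputable def qTg (m : ℕ) (c : ℕ → Fin m) (k C : ℕ) (w : ℝ) (pr M : ℕ → ℝ) :
    Qt m (Fin C → ℤ) :=
  Qt.pi fun u : Fin C => qJet m ((range (k + u)).image c) (c (k + u)) 0 w (pr u) (M u)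

/-- **(NLQR)** No look-ahead for all targets, over the exact positions of the slope-one places.
`M₁`, `M₂`: near and far digits of the heights. `x₄`: a window whose record knows the far digits. -/
def NlqrStmt : Prop :=
  ∀ k f : ℕ, ∃ Cn : ℝ, 1 ≤ Cn ∧
  ∀ {m : ℕ} {S : PCl m} {c : ℕ → Fin m} {sn : ℕ → ℝ → ℝ} {G : Set ℝ} {b o φ : ℝ},
    LadT S c k f sn G b o φ → (range (k + f)).image c = univ.erase (c (k + f)) →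
    ∀ {w w₁ vq j x₄ Λ₁ E₁ κn : ℝ} {pr M₁ M₂ : ℕ → ℝ}, w ∈ G → j ∈ G → x₄ ∈ G →
    b ≤ w → w ≤ w₁ → w₁ ≤ j → j ≤ vq → vq ≤ 1 → j ≤ x₄ → x₄ ≤ o → x₄ + Cn * φ ≤ 1 →
    w + Cn * φ ≤ x₄ → (∀ u ≤ f, sn (k + u) w - φ ≤ pr u) →
    -- the digits
    (∀ u ≤ f, 0 ≤ M₁ u ∧ M₁ u ≤ M₂ u ∧ M₂ u + Cn * φ ≤ sn (k + u) x₄ ∧
      M₂ u + Cn * φ ≤ sn (k + u) w + (1 - w)) → Λ₁ ≤ M₁ f + Cn * φ →
    (∀ u < f, sn (k + u) j ≤ M₁ u + Cn * φ ∧ sn (k + u) x₄ ≤ M₂ u + 2 * Cn * φ ∧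
      M₂ u + Cn * φ ≤ 1) →
    (∀ u ≤ f, ∀ l < k + u, M₂ u + Cn * φ ≤ sn (k + u) w + (1 - sn l w)) →
    (∀ l < k, sn l x₄ + Cn * φ ≤ 1) →
    (∀ l < k, ∀ l' < l, sn l x₄ - sn l b + Cn * φ ≤ 1 - sn l' b) →
    -- the label of the last place
    (∃ rk : ℝ, rk < 1 ∧ 0 ≤ E₁ ∧
      AttG S ((range (k + f)).image c) (c (k + f)) w (sn (k + f) w) rk E₁ ∧ M₂ f + E₁ ≤ 1) →
    NlI S (c (k + f)) w₁ vq Λ₁ (M₂ f) κn → 0 ≤ κn → ∀ κ : ℝ,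
    κn + 8 * ((f : ℝ) + 1) * Cn * φ ≤ κ →
    NlqI S c k w₁ j (qTg m c k (f + 1) w pr M₁) (qTg m c k (f + 1) w pr M₂) κ

/-- **(RWR)** The rows of all targets on parts of the event. `P₁`, `P₂`: near and far digits of the
heights. -/
def RwrStmt : Prop :=
  ∀ k f : ℕ, ∃ Cr : ℝ, 1 ≤ Cr ∧
  ∀ {m : ℕ} {S : PCl m} {c : ℕ → Fin m} {sn : ℕ → ℝ → ℝ} {G : Set ℝ} {b o φ : ℝ},
    LadT S c k f sn G b o φ → (range (k + f)).image c = univ.erase (c (k + f)) →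
    ∀ {w w₁ x x' η : ℝ} {p n : ℕ → ℝ} {pr P₁ P₂ : ℕ → ℝ} {h δ E₁ : ℝ}, w ∈ G → x ∈ G → x' ∈ G →
    b ≤ w → w ≤ x → x + Cr * φ ≤ x' → x' ≤ o → x' + Cr * φ ≤ 1 →
    (∀ i < k, sn i b - φ ≤ p i) → (∀ u ≤ f, sn (k + u) w - φ ≤ pr u) →
    (∀ i < k, sn i x' ≤ n i ∧ n i ≤ 1) → Tp k sn b φ n →
    (∀ u ≤ f, 0 ≤ P₁ u ∧ P₁ u ≤ P₂ u ∧ P₂ u ≤ 1 ∧ P₂ u + Cr * φ ≤ sn (k + u) x ∧
      P₂ u + Cr * φ ≤ sn (k + u) w + (x' - w)) →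
    (∀ u < f, sn (k + u) x ≤ P₂ u + 2 * Cr * φ) →
    (∀ u ≤ f, ∀ l < k + u, P₂ u + Cr * φ ≤ sn (k + u) w + (1 - sn l w)) →
    (∃ rk : ℝ, rk < 1 ∧ 0 ≤ E₁ ∧
      AttG S ((range (k + f)).image c) (c (k + f)) w (sn (k + f) w) rk E₁ ∧ P₂ f + E₁ ≤ 1) →
    RawN S (univ.erase (c (k + f))) (c (k + f)) (P₁ f) (P₂ f - P₁ f) h δ → w ≤ w₁ → w₁ ≤ 1 →
    RNum S (fun J F => ptr F J) (vg w₁) η → ∀ π₀ : ℝ, 0 < π₀ → ∀ ε : ℝ, 0 < ε →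
    ∃ κ : ℝ, 0 < κ ∧ ∃ e₀ : ℝ, 0 < e₀ ∧ ∀ K : ℕ, Bas S (fun J F A =>
      ∀ (V : Type) (z : F.Ω → V), Cl2 (ptr F J) (vg w₁ J F) A z →
      (∀ v, (cnt F.p (ptr F J) (fun ω => A ω ∧ z ω = v) : ℝ) ≤ Real.exp (-((-η - κ) * J))) →
      ∀ u u₁ u₂,
      (qJets m c 0 k 0 (fun _ _ => b) (fun l _ => p l) (fun l _ => n l)).P K e₀ J F A u →
      (qTg m c k (f + 1) w pr P₁).P K e₀ J F A u₁ → (qTg m c k (f + 1) w pr P₂).P K e₀ J F A u₂ →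
      ∀ B : F.Ω → Prop, Sub B A → π₀ * Pe F.p A ≤ Pe F.p B →
      CH (Pool.Agent.H49.Ent.cond F.p B True) u₂ (fun ω => (u₁ ω, (u ω, (z ω, F.W ω)))) ≤
        (((1 - h) * (P₂ f - P₁ f) + ∑ u ∈ range f, (P₂ u - P₁ u)) * Real.log 2 + δ +
          8 * ((f : ℝ) + 1) * Cr * φ + ε) * J)

end Pool.V0T
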