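import Pool.Agent.H48.V0T.Ldt
import Pool.Agent.H25.V0P.St3
import Pool.Agent.H44.V0F.Win

/-!
# Conversions for the class theorem with several targets

`vl2_cg`, `vl2_sb`: the law `VLaw2` for other quantities; `row_t`: the row of the alive targets;
`dj_t`: the codes of a target.
-/

set_option autoImplicit false

namespace Pool.V0T

open Finset Real MvPolynomial
open Pool.Agent.H49.Ent Pool.Agent.H32.Dense
open Pool.STK hiding pr2
open Pool.KA Pool.KSAT Pool.K2S Pool.PB Pool.S6C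
open Pool.GEN Pool.CHT Pool.CHX Pool.ISO Pool.LA91 Pool.AVG71 Pool.AVG5 Pool.D2F2 Pool.AVG57
open Pool.RCD Pool.AVG96 Pool.OWN68 Pool.V0F Pool.V0Q
open Pool.V0P (jp)
open Pool.LV64 (Mm)
open Pool.AJW (CfB)

section law

variable {Ω : Type} [Fintype Ω] {p : Ω → ℝ}
variable {ζ ρ₁ ρ₂ ρ₃ υ ξ₁ ξ₂ ξ₃ ξ₄ ξ₅ ξ₆ ξ₇ η₁ η₂ η₃ η₄ η₅ η₇ : Type} {zw : Ω → ζ} {Rj : Ω → ρ₁}
  {Rx : Ω → ρ₂} {R' : Ω → ρ₃} {y : Ω → υ} {Xq : Ω → ξ₁} {Xp : Ω → ξ₂} {Uq : Ω → ξ₃} {Up : Ω → ξ₇}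
  {N1 : Ω → ξ₄} {N2 : Ω → ξ₅} {XJ : Ω → ξ₆} {Fv Gf κ : ℝ} {Yq : Ω → η₁} {Yp : Ω → η₂}
  {M1 : Ω → η₄} {M2 : Ω → η₅}

theorem ch_lt {S T U : Type} (h0 : ∀ ω, 0 ≤ p ω) {X : Ω → S} {Y : Ω → T} (Z : Ω → U)
    (h : Det p Y X) : CH p X Z ≤ CH p Y Z :=
  CH_mono_left h0 fun ω ν hω hν e => h ω ν hω hν (Prod.ext_iff.mp e).1

/-- **Other digits of the base**, with the same information. -/
theorem vl2_cg (V : VLaw2 p zw Rj Rx R' y Xq Xp Uq Up N1 N2 XJ Fv Gf κ) (q1 : Det p Xq Yq)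
    (q2 : Det p Yq Xq) (p1 : Det p Xp Yp) (p2 : Det p Yp Xp) :
    VLaw2 p zw Rj Rx R' y Yq Yp Uq Up N1 N2 XJ Fv Gf κ := by
  have h0 := V.h0
  have cq : ∀ {S : Type} (Z : Ω → S), Det p (fun ω => (Xq ω, Z ω)) (fun ω => (Yq ω, Z ω)) :=
    fun Z ω ν hω hν e => Prod.ext (q1 ω ν hω hν (Prod.ext_iff.mp e).1) (Prod.ext_iff.mp e).2
  have cq' : ∀ {S : Type} (Z : Ω → S), Det p (fun ω => (Yq ω, Z ω)) (fun ω => (Xq ω, Z ω)) :=
    fun Z ω ν hω hν e => Prod.ext (q2 ω ν hω hν (Prod.ext_iff.mp e).1) (Prod.ext_iff.mp e).2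
  have cp : ∀ {S : Type} (Z : Ω → S), Det p (fun ω => (Xp ω, Z ω)) (fun ω => (Yp ω, Z ω)) :=
    fun Z ω ν hω hν e => Prod.ext (p1 ω ν hω hν (Prod.ext_iff.mp e).1) (Prod.ext_iff.mp e).2
  have cp' : ∀ {S : Type} (Z : Ω → S), Det p (fun ω => (Yp ω, Z ω)) (fun ω => (Xp ω, Z ω)) :=
    fun Z ω ν hω hν e => Prod.ext (p2 ω ν hω hν (Prod.ext_iff.mp e).1) (Prod.ext_iff.mp e).2
  exact
    { h0 := V.h0
      κ0 := V.κ0
      zj := V.zj
      zx := V.zx
      jr := V.jr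
      xr := V.xr
      uq := V.uq
      fr := V.fr
      fj := V.fj.trans ((ch_lt h0 _ p2).trans (CH_mono_cond h0 (cq fun ω => (Rj ω, y ω))))
      fx := V.fx.trans ((ch_lt h0 _ p2).trans (CH_mono_cond h0 (cq fun ω => (Rx ω, y ω))))
      cn := ((ch_lt h0 _ p1).trans (CH_mono_cond h0 (cq' fun ω => (zw ω, y ω)))).trans V.cn
      qp := ((ch_lt h0 _ q1).trans (CH_mono_cond h0 (cp' fun ω => (zw ω, y ω)))).trans V.qp
      px := (ch_lt h0 _ p1).trans V.px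
      n1 := (CH_mono_cond h0 (cq' fun ω => (Rj ω, y ω))).trans V.n1
      n2 := V.n2
      nl := V.nl
      jp := (ch_lt h0 _ p1).trans V.jp
      gj := (CH_mono_cond h0 (cp' fun ω => (zw ω, y ω))).trans V.gj
      gx := V.gx.trans (CH_mono_cond h0 (cp fun ω => (R' ω, y ω))) }

/-- **Fewer targets**: the other targets are known from the exact positions. -/
theorem vl2_sb (V : VLaw2 p zw Rj Rx R' y Xq Xp Uq Up N1 N2 XJ Fv Gf κ) (m1 : Det p N1 M1)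
    (m2 : Det p N2 M2) {δ : ℝ} (hδ : 0 ≤ δ)
    (d1 : CH p N1 (fun ω => (M1 ω, (XJ ω, (zw ω, y ω)))) ≤ δ)
    (d2 : CH p N2 (fun ω => (M2 ω, (XJ ω, (zw ω, y ω)))) ≤ δ) :
    VLaw2 p zw Rj Rx R' y Xq Xp Uq Up M1 M2 XJ Fv Gf (2 * κ + 2 * δ) := by
  have h0 := V.h0
  have hκ := V.κ0
  have a1 : κ ≤ 2 * κ + 2 * δ := by linarith
  have s1 : CH p M2 (fun ω => (M1 ω, (XJ ω, (zw ω, y ω)))) ≤
      CH p N2 (fun ω => (N1 ω, (XJ ω, (zw ω, y ω)))) + δ := by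
    have e1 := CH_le_add h0 M2 N1 (fun ω => (M1 ω, (XJ ω, (zw ω, y ω))))
    have e2 : CH p M2 (fun ω => (N1 ω, (M1 ω, (XJ ω, (zw ω, y ω))))) ≤
        CH p M2 (fun ω => (N1 ω, (XJ ω, (zw ω, y ω)))) := CH_mono_cond h0 fun ω ν _ _ e => by
      simp only [Prod.mk.injEq] at e ⊢
      exact ⟨e.1, e.2.2⟩
    have e3 := ch_lt h0 (fun ω => (N1 ω, (XJ ω, (zw ω, y ω)))) m2
    linarith
  have s2 : CH p N2 (fun ω => (XJ ω, (Rj ω, y ω))) ≤
      CH p M2 (fun ω => (XJ ω, (Rj ω, y ω))) + (κ + δ) := by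
    have e1 := CH_le_add h0 N2 M2 (fun ω => (XJ ω, (Rj ω, y ω)))
    have e2 := CH_le_add h0 N2 zw (fun ω => (M2 ω, (XJ ω, (Rj ω, y ω))))
    have e3 : CH p N2 (fun ω => (zw ω, (M2 ω, (XJ ω, (Rj ω, y ω))))) ≤
        CH p N2 (fun ω => (M2 ω, (XJ ω, (zw ω, y ω)))) := CH_mono_cond h0 fun ω ν _ _ e => by
      simp only [Prod.mk.injEq] at e ⊢
      exact ⟨e.2.1, e.2.2.1, e.1, e.2.2.2.2⟩
    have e4 : CH p zw (fun ω => (M2 ω, (XJ ω, (Rj ω, y ω)))) ≤ CH p zw Rj :=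
      CH_mono_cond h0 fun ω ν _ _ e => by
        simp only [Prod.mk.injEq] at e
        exact e.2.2.1
    have e5 := V.zj
    linarith
  exact
    { h0 := V.h0
      κ0 := by linarith
      zj := V.zj.trans a1
      zx := V.zx.trans a1
      jr := V.jr.trans a1
      xr := V.xr.trans a1
      uq := V.uq.trans a1
      fr := by linarith [V.fr]
      fj := by linarith [V.fj]
      fx := by linarith [V.fx]
      cn := by linarith [V.cn]
      qp := V.qp.trans a1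
      px := V.px.trans a1
      n1 := (ch_lt h0 _ m1).trans (V.n1.trans a1)
      n2 := (ch_lt h0 _ m2).trans (V.n2.trans a1)
      nl := by linarith [V.nl]
      jp := V.jp.trans a1
      gj := by linarith [V.gj]
      gx := by linarith [V.gx] }

/-- A family of integers, some of them given. -/
theorem ch_dead {S U : Type} (h0 : ∀ ω, 0 ≤ p ω) {n : ℕ} (X : Ω → Fin n → S) (Z : Ω → U)
    {T : Type} (Y : Ω → T) {δ : ℝ}
    (h : ∀ i, (∀ ω ν, 0 < p ω → 0 < p ν → Y ω = Y ν → X ω i = X ν i) ∨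
      CH p (fun ω => X ω i) Z ≤ δ) (hδ : 0 ≤ δ) :
    CH p X (fun ω => (Y ω, Z ω)) ≤ n * δ := by
  refine ch_vec h0 _ n X fun i => ?_
  rcases h i with h1 | h1
  · rw [CH_eq_zero h0 fun ω ν hω hν e => h1 ω ν hω hν (Prod.ext_iff.mp e).1]
    exact hδ
  · exact (CH_mono_cond h0 fun ω ν _ _ e => (Prod.ext_iff.mp e).2).trans h1

end law

section dig

variable {m J : ℕ} {F : Fam m J} {c : ℕ → Fin m} {k w : ℕ}
  {H : LnT F → ℕ → MvPolynomial (Option (Fin m)) ℝ} {p : F.Ω → ℝ}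

/-- The slope-one places. -/
def mvT (k : ℕ) (j : Fin k) : ℕ := j

theorem jh_jp (n : ℕ → ℝ) : Det p (jh F c k w H n) (jp F c 0 (mvT k) w H fun j => n j) := by
  intro ω ν _ _ e
  funext j
  have e1 := congrFun (congrFun e j) 0
  unfold jh at e1
  rw [if_pos ⟨j.2, rfl⟩, if_pos ⟨j.2, rfl⟩] at e1
  exact e1

theorem jp_jh (n : ℕ → ℝ) : Det p (jp F c 0 (mvT k) w H fun j => n j) (jh F c k w H n) := by
  intro ω ν _ _ e
  funext l j'
  unfold jh
  by_cases h : l < k ∧ j' = 0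
  · rw [if_pos h, if_pos h]
    exact congrFun e ⟨l, h.1⟩
  · rw [if_neg h, if_neg h]

theorem jetm_jet2 (N : Fin k → ℕ → ℝ) (N' : ℕ → ℕ → ℝ) (h : ∀ (l : Fin k) j', N l j' = N' l j') :
    Det p (jetm F c (mvT k) w H N) (jet2 F c w H 0 k N') := by
  intro ω ν _ _ e
  funext l j'
  unfold jet2
  by_cases h1 : 0 ≤ l ∧ l < k ∧ j' ≤ 1
  · rw [if_pos h1, if_pos h1]
    have e1 := congrFun e (⟨l, h1.2.1⟩, ⟨j', by omega⟩)
    unfold Pool.AVG57.jetm at e1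
    rw [h ⟨l, h1.2.1⟩] at e1
    exact e1
  · rw [if_neg h1, if_neg h1]

/-- Other digits of positions and velocities. -/
theorem ch_jj (hp : IsLaw p) {N : Fin k → ℕ → ℝ} {N' : ℕ → ℕ → ℝ}
    (h : ∀ (l : Fin k) (j' : ℕ), j' ≤ 1 → N' l j' ≤ N l j') {𝓦 : Type} (Z : F.Ω → 𝓦)
    (hZ : Det p Z (jetm F c (mvT k) w H N)) :
    CH p (jet2 F c w H 0 k N') Z ≤ k * (2 * Real.log 5) := by
  have h0 := hp.nonneg
  have hJ : (0 : ℝ) ≤ J := Nat.cast_nonneg J
  have h1 : CH p (jet2 F c w H 0 k N') Z ≤ CH p (fun ω (l : Fin k) (a : Fin 2) =>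
      ⌊(2 : ℝ) ^ (N' l a * J) * ojet F (c l) a (H (slam F w ω) l) ω⌋) Z := by
    refine ch_lt h0 Z fun ω ν hω hν e => ?_
    refine jetm_jet2 (fun l j' => N' l j') N' (fun _ _ => rfl) ω ν hω hν ?_
    funext i
    exact congrFun (congrFun e i.1) i.2
  refine h1.trans (ch_vec h0 Z k _ fun l => ?_)
  refine ch_vec h0 Z 2 _ fun a => ?_
  have h2 := CH_dig hp (a := N l a * J) (b := N' l a * J)
    (fun ω => ojet F (c l) a (H (slam F w ω) l) ω) Z (fun ω ν hω hν e =>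
      congrFun (hZ ω ν hω hν e) (l, a))
  rw [max_eq_right (by
    have := mul_le_mul_of_nonneg_right (h l a (by omega)) hJ
    linarith), zero_mul, zero_add] at h2
  exact h2

/-- **The codes of a target**, with more digits and other conditions. -/
theorem cod_t (hp : IsLaw p) {N : Fin k → ℕ → ℝ} {N' : ℕ → ℕ → ℝ}
    (h : ∀ (l : Fin k) (j' : ℕ), j' ≤ 1 → N' l j' ≤ N l j') {ζ ζ' : Type} {z : F.Ω → ζ}
    {z' : F.Ω → ζ'} (hz : Det p z z') {g : LnT F → MvPolynomial (Option (Fin m)) ℝ} {κ : Fin m}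
    {a K n : ℕ} {x d e : ℝ} (hx : 0 ≤ x) (hd : (n : ℝ) - x ≤ d) (hd0 : 0 ≤ d)
    (hc : ∀ N : ℕ, (N : ℝ) ≤ x → CH p (Pool.AVG57.cod F w g κ N a K)
      (fun ω => (jet2 F c w H 0 k N' ω, (z' ω, F.W ω))) ≤ e) :
    CH p (Pool.AVG57.cod F w g κ n a K) (fun ω => (jetm F c (mvT k) w H N ω, (z ω, F.W ω))) ≤
      e + k * (2 * Real.log 5) + ((K : ℝ) + 1) * ((d + 1) * Real.log 2 + Real.log 5) := by
  have h0 := hp.nonneg
  obtain ⟨M, hM⟩ : ∃ M : ℕ, M = ⌊x⌋₊ := ⟨_, rfl⟩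
  have m1 : (M : ℝ) ≤ x := by rw [hM]; exact Nat.floor_le hx
  have m2 : x < M + 1 := by rw [hM]; exact Nat.lt_floor_add_one x
  obtain ⟨Z, hZ⟩ : ∃ Z : F.Ω → _, Z = fun ω => (jetm F c (mvT k) w H N ω, (z ω, F.W ω)) :=
    ⟨_, rfl⟩
  rw [← hZ]
  have s1 := cod_more hp (F := F) (W := w) (j₀ := a) (D := K) (a := (M : ℝ)) (b := (n : ℝ))
    (d := d + 1) (by linarith) (by linarith) (κ := κ) (fun s : LnT F => s) g Z
  rw [Real.rpow_natCast, Real.rpow_natCast] at s1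
  have s2 : CH p (Pool.AVG71.cod F w a K (2 ^ M) κ (fun s : LnT F => s) g) Z ≤
      CH p (Pool.AVG57.cod F w g κ M a K) (fun ω => (jet2 F c w H 0 k N' ω, Z ω)) +
        CH p (jet2 F c w H 0 k N') Z := by
    have := CH_le_add h0 (Pool.AVG57.cod F w g κ M a K) (jet2 F c w H 0 k N') Z
    exact this.trans (le_of_eq (add_comm _ _))
  have s3 := ch_jj hp (F := F) (c := c) (w := w) (H := H) h Z (fun ω ν _ _ e => by
    rw [hZ] at e
    exact (Prod.ext_iff.mp e).1)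
  have s4 : CH p (Pool.AVG57.cod F w g κ M a K) (fun ω => (jet2 F c w H 0 k N' ω, Z ω)) ≤
      CH p (Pool.AVG57.cod F w g κ M a K)
        (fun ω => (jet2 F c w H 0 k N' ω, (z' ω, F.W ω))) := CH_mono_cond h0 fun ω ν hω hν e => by
    rw [hZ] at e
    simp only [Prod.mk.injEq] at e ⊢
    exact ⟨e.1, hz ω ν hω hν e.2.2.1, e.2.2.2⟩
  have s5 := hc M m1
  have s6 : CH p (Pool.AVG57.cod F w g κ n a K) Z =
      CH p (Pool.AVG71.cod F w a K (2 ^ n) κ (fun s : LnT F => s) g) Z := rfl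
  rw [s6]
  linarith

/-- **The row of the alive targets.** -/
theorem row_t (hq : IsLaw p) {C f : ℕ} {al : Fin (C + 1) → ℕ} (hal : ∀ i, al i ≤ f)
    {Dd : Finset ℕ} (hDd : ∀ v ≤ f, v ∉ Dd → ∃ i, al i = v) {Nn Nf nb : ℕ → ℝ} {γ : ℕ → ℕ}
    {q₀ X : ℕ} (h1 : ∀ i, Nn (al i) * J ≤ (γ (k + al i) + q₀ : ℕ))
    (h2 : ∀ i, ((γ (k + al i) + q₀ + X : ℕ) : ℝ) ≤ Nf (al i) * J)
    (hd : ∀ v ∈ Dd, Nn v = Nf v) {ζ : Type} {z : F.Ω → ζ} {U δ : ℝ}
    (hU : CH p (thT F c k f w H Nf) (fun ω => (thT F c k f w H Nn ω,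
      (jh F c k w H nb ω, (z ω, F.W ω)))) ≤ U)
    (hδ : ∀ v ≤ f, v ∈ Dd → CH p (th0 F c (k + v) w H (Nf v))
      (fun ω => (jh F c k w H nb ω, (z ω, F.W ω))) ≤ δ) (hδ0 : 0 ≤ δ) :
    CH p (Mm F c (fun i => k + al i) w H (fun i => γ (k + al i) + q₀ + X))
      (fun ω => (Mm F c (fun i => k + al i) w H (fun i => γ (k + al i) + q₀) ω,
        (jp F c 0 (mvT k) w H (fun j => nb j) ω, (F.W ω, z ω)))) ≤
      U + ((f : ℝ) + 1) * (δ + Real.log 5) + ((C : ℝ) + 1) * Real.log 5 := by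
  have h0 := hq.nonneg
  have hJ : (0 : ℝ) ≤ J := Nat.cast_nonneg J
  have hl5 : 0 < Real.log 5 := Real.log_pos (by norm_num)
  obtain ⟨Z, hZ⟩ : ∃ Z : F.Ω → _, Z = fun ω => (Mm F c (fun i => k + al i) w H
      (fun i => γ (k + al i) + q₀) ω, (jp F c 0 (mvT k) w H (fun j => nb j) ω, (F.W ω, z ω))) :=
    ⟨_, rfl⟩
  rw [← hZ]
  have zj : Det p Z (fun ω => (jh F c k w H nb ω, (z ω, F.W ω))) := fun ω ν hω hν e => by
    rw [hZ] at e
    simp only [Prod.mk.injEq] at e ⊢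
    exact ⟨jp_jh nb ω ν hω hν e.2.1, e.2.2.2, e.2.2.1⟩
  have zm : Det p Z (Mm F c (fun i => k + al i) w H (fun i => γ (k + al i) + q₀)) :=
    fun ω ν hω hν e => by
      rw [hZ] at e
      exact (Prod.ext_iff.mp e).1
  have s1 := CH_le_add h0 (Mm F c (fun i => k + al i) w H (fun i => γ (k + al i) + q₀ + X))
    (thT F c k f w H Nf) Z
  have s2 := CH_le_add h0 (thT F c k f w H Nf) (thT F c k f w H Nn) Z
  have s3 : CH p (thT F c k f w H Nf) (fun ω => (thT F c k f w H Nn ω, Z ω)) ≤ U := by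
    refine (CH_mono_cond h0 fun ω ν hω hν e => ?_).trans hU
    simp only [Prod.mk.injEq] at e ⊢
    have e1 := zj ω ν hω hν e.2
    simp only [Prod.mk.injEq] at e1
    exact ⟨e.1, e1⟩
  have s4 : CH p (Mm F c (fun i => k + al i) w H (fun i => γ (k + al i) + q₀ + X))
      (fun ω => (thT F c k f w H Nf ω, Z ω)) ≤ ((C : ℝ) + 1) * Real.log 5 := by
    have e1 := ch_vec h0 (fun ω => (thT F c k f w H Nf ω, Z ω)) (C + 1)
      (Mm F c (fun i => k + al i) w H (fun i => γ (k + al i) + q₀ + X)) (c := Real.log 5)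
      fun i => ?_
    · push_cast at e1
      exact e1
    · have h3 := CH_dig hq (a := Nf (al i) * J) (b := ((γ (k + al i) + q₀ + X : ℕ) : ℝ))
        (fun ω => ojet F (c (k + al i)) 0 (H (slam F w ω) (k + al i)) ω)
        (fun ω => (thT F c k f w H Nf ω, Z ω)) (fun ω ν hω hν e => by
          have e1 := congrFun (Prod.ext_iff.mp e).1 ⟨al i, Nat.lt_succ_of_le (hal i)⟩
          exact e1)
      rw [max_eq_right (by linarith [h2 i]), zero_mul, zero_add] at h3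
      have h4 : (fun ω => Mm F c (fun i => k + al i) w H (fun i => γ (k + al i) + q₀ + X) ω i) =
          fun ω => ⌊(2 : ℝ) ^ ((γ (k + al i) + q₀ + X : ℕ) : ℝ) *
            ojet F (c (k + al i)) 0 (H (slam F w ω) (k + al i)) ω⌋ := by
        funext ω
        rw [Real.rpow_natCast]
        rfl
      rw [h4]
      exact h3
  have s5 : CH p (thT F c k f w H Nn) Z ≤ ((f : ℝ) + 1) * (δ + Real.log 5) := by
    have e1 := ch_vec h0 Z (f + 1) (thT F c k f w H Nn) (c := δ + Real.log 5) fun v => ?_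
    · push_cast at e1
      exact e1
    · have hv : (v : ℕ) ≤ f := Nat.lt_succ_iff.1 v.2
      by_cases hvd : (v : ℕ) ∈ Dd
      · have e2 := hδ v hv hvd
        have e3 : (fun ω => thT F c k f w H Nn ω v) = th0 F c (k + v) w H (Nf v) := by
          funext ω
          show th0 F c (k + v) w H (Nn v) ω = _
          rw [hd v hvd]
        rw [e3]
        exact ((CH_mono_cond h0 zj).trans e2).trans (by linarith)
      · obtain ⟨i, hi⟩ := hDd v hv hvd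
        have h3 := CH_dig hq (a := ((γ (k + al i) + q₀ : ℕ) : ℝ)) (b := Nn (al i) * J)
          (fun ω => ojet F (c (k + al i)) 0 (H (slam F w ω) (k + al i)) ω) Z
          (fun ω ν hω hν e => by
            have e1 := congrFun (zm ω ν hω hν e) i
            have h4 : ∀ ω, Mm F c (fun i => k + al i) w H (fun i => γ (k + al i) + q₀) ω i =
                ⌊(2 : ℝ) ^ ((γ (k + al i) + q₀ : ℕ) : ℝ) *
                  ojet F (c (k + al i)) 0 (H (slam F w ω) (k + al i)) ω⌋ := by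
              intro ω
              rw [Real.rpow_natCast]
              rfl
            rw [h4, h4] at e1
            exact e1)
        rw [max_eq_right (by linarith [h1 i]), zero_mul, zero_add] at h3
        have e3 : (fun ω => thT F c k f w H Nn ω v) = fun ω => ⌊(2 : ℝ) ^ (Nn (al i) * J) *
            ojet F (c (k + al i)) 0 (H (slam F w ω) (k + al i)) ω⌋ := by
          funext ω
          show th0 F c (k + v) w H (Nn v) ω = _
          rw [← hi]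
          rfl
        rw [e3]
        linarith
  linarith

end dig

end Pool.V0T
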