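import Pool.Agent.H48.V0T.Cnv
import Pool.Agent.H48.V0T.Ldt
import Pool.Agent.H44.V0P.Sm

/-!
# Small steps of the class theorem for several targets

`LbT.tr`: the labels above the last place are irrelevant; `cht_cl2`: the charts are closed;
`ful_t`: the fullness; `gg_cellT`: the gradients of two samples of one point.
-/

set_option autoImplicit false

namespace Pool.V0T

open Finset Real MvPolynomial
open Pool.Agent.H49.Ent Pool.Agent.H32.Dense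
open Pool.STK hiding pr2
open Pool.KA Pool.KSAT Pool.K2S Pool.PB Pool.S6C
open Pool.GEN Pool.CHT Pool.CHX Pool.ISO Pool.LA91 Pool.AVG71 Pool.AVG5 Pool.D2F2 Pool.AVG57
open Pool.RCD Pool.AVG96 Pool.OWN68 Pool.V0F Pool.V0Q
open Pool.AJW (CfB)
open Pool.D2R (WinB gnh hgt hyb chs)
open Pool.V0P (jp)
open Pool.LV64 (GrdV Mm)

section

variable {m J : ℕ} {F : Fam m J} {c : ℕ → Fin m} {k f : ℕ}

/-- **The labels above the last place** are irrelevant. -/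
theorem LbT.tr {D : ℕ} {w u φ E : ℝ} {sn : ℕ → ℝ → ℝ} {A : F.Ω → Prop} {g₀ : ℕ → ℕ}
    {Gw GN : PtT F → ℕ → MvPolynomial (Option (Fin m)) ℝ}
    {HN : LnT F → ℕ → MvPolynomial (Option (Fin m)) ℝ}
    (L : LbT F c k f D w u φ E sn A g₀ Gw GN HN) :
    LbT F c k f D w u φ E sn A g₀ Gw GN (fun s l => if l ≤ k + f then HN s l else 0) where
  deg l h1 h2 := ⟨(L.deg l h1 h2).1, fun s => by
    show (if l ≤ k + f then HN s l else 0).totalDegree ≤ D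
    rw [if_pos h2]
    exact (L.deg l h1 h2).2 s⟩
  dep l h1 h2 := ⟨(L.dep l h1 h2).1, fun s => by
    show DepC c l (if l ≤ k + f then HN s l else 0)
    rw [if_pos h2]
    exact (L.dep l h1 h2).2 s⟩
  cls l h1 h2 ω hω := by
    show GN (ptr F J ω) l = if l ≤ k + f then HN (slam F ⌊w * J⌋₊ ω) l else 0
    rw [if_pos h2]
    exact L.cls l h1 h2 ω hω
  cfb l h1 h2 := by
    have e : (fun s => if l ≤ k + f then HN s l else 0) = fun s => HN s l := by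
      funext s
      rw [if_pos h2]
    show CfB F ⌊w * J⌋₊ E (c l) A (fun s => s) (fun s => if l ≤ k + f then HN s l else 0)
    rw [e]
    exact L.cfb l h1 h2
  pos := L.pos
  near := L.near
  cell := L.cell

/-- The jets of the slope-one places see the slope-one places only. -/
theorem jet2_fh (H : ℕ → LnT F → ℕ → MvPolynomial (Option (Fin m)) ℝ)
    (HN HN' : LnT F → ℕ → MvPolynomial (Option (Fin m)) ℝ) (kb wb w' w : ℕ) (n : ℕ → ℕ → ℝ) :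
    jet2 F c w (fhT H HN kb k wb w') 0 k n = jet2 F c w (fhT H HN' kb k wb w') 0 k n := by
  funext ω l j'
  unfold jet2
  by_cases h1 : 0 ≤ l ∧ l < k ∧ j' ≤ 1
  · rw [if_pos h1, if_pos h1]
    unfold fhT
    rw [if_pos h1.2.1, if_pos h1.2.1]
  · rw [if_neg h1, if_neg h1]

/-- **The charts of the first windows and the frame are closed.** -/
theorem cht_cl2 {D D' Dr N M : ℕ} {C₀ a Eb ηm : ℝ} {o η σ : ℕ → ℝ} {lv bb : ℕ → ℕ → ℝ} {κ : ℝ}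
    {z : ℕ → ℕ → ℕ} {A : F.Ω → Prop} {g₀ : ℕ → ℕ → ℕ}
    {G : ℕ → PtT F → ℕ → MvPolynomial (Option (Fin m)) ℝ}
    {H : ℕ → LnT F → ℕ → MvPolynomial (Option (Fin m)) ℝ}
    (W : WinB F c (k + f) D Dr N M C₀ a Eb ηm o η σ lv bb κ z A g₀ G H)
    {kb : ℕ} {fn : ℕ → ℕ} {n : ℕ} {v : ℝ} (hv : v ≤ 1) (hb : kb ≤ N) (hf : ∀ t ≤ n, fn t ≤ N)
    (hbw : o kb ≤ o (fn 0)) (hof : ∀ t ≤ n, o (fn t) ≤ v) {u φ E : ℝ} {sn : ℕ → ℝ → ℝ}
    {GN : PtT F → ℕ → MvPolynomial (Option (Fin m)) ℝ}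
    {HN : LnT F → ℕ → MvPolynomial (Option (Fin m)) ℝ}
    (L : LbT F c k f D' (o (fn 0)) u φ E sn A (g₀ (fn 0)) (G (fn 0)) GN HN) :
    Cl2 (ptr F J) (vg v J F) A (chT F k f n G GN kb fn) := by
  have hJ : (0 : ℝ) ≤ J := Nat.cast_nonneg J
  have h0v : o (fn 0) ≤ v := hof 0 (Nat.zero_le _)
  refine Cl2.join (chs_cl2 hv (W := fun t => ⌊o (fn t) * J⌋₊) (H := fun t => H (fn t))
    (fun t ht => Nat.floor_le_floor (mul_le_mul_of_nonneg_right (hof t ht) hJ))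
    (fun t ht ω hω l hl => (W.ev (fn t) (hf t ht)).cls ω hω l (by omega))) ?_
  refine ⟨⟨fun y (l : Fin (k + f + 1)) => frT G GN kb k y l, fun ω _ => rfl⟩, fun s
    (l : Fin (k + f + 1)) => fhT H HN kb k ⌊o kb * J⌋₊ ⌊o (fn 0) * J⌋₊
      (upw ⌊o (fn 0) * J⌋₊ ⌊v * J⌋₊ s) l, fun ω hω => ?_⟩
  funext l
  show frT G GN kb k (ptr F J ω) l = fhT H HN kb k ⌊o kb * J⌋₊ ⌊o (fn 0) * J⌋₊
    (upw ⌊o (fn 0) * J⌋₊ ⌊v * J⌋₊ (slam F ⌊v * J⌋₊ ω)) l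
  rw [upw_slam F (Nat.floor_le_floor (mul_le_mul_of_nonneg_right h0v hJ)) (floor_le hv J)]
  exact frt_cls W hb hbw (h0v.trans hv) L ω hω l (by omega)

/-- **The gradients** of two samples of one point. -/
theorem gg_cellT {C : ℕ} {tg qt Xt : Fin C → ℕ} {q X mm : ℕ} {γ : ℕ → ℕ} {U : ℝ}
    {B : F.Ω → Prop} {G₀ : PtT F → ℕ → MvPolynomial (Option (Fin m)) ℝ}
    {gg : F.Ω → Fin C → Fin k → ℝ} {χ₁ χ₂ : Type} {Cj : F.Ω → χ₁} {Cx : F.Ω → χ₂}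
    (h : GrdV F c (fun j : Fin k => (j : ℕ)) tg qt Xt q X γ U B G₀ gg (fun _ => ()) Cj Cx)
    (hC : ∀ ω ν, ptr F J ω = ptr F J ν → Cx ω = Cx ν)
    (hc : ∀ ω ν, B ω → B ν → ptr F J ω = ptr F J ν → ∀ l < k,
      |hgt F c G₀ ω l - hgt F c G₀ ν l| ≤ 1 / 2 ^ (γ l + q + (X + mm))) {ω ν : F.Ω} (hω : B ω)
    (hν : B ν) (e : ptr F J ω = ptr F J ν) (u : Fin C) (j : Fin k) :
    |gg ω u j - gg ν u j| ≤ U / 2 ^ X := by
  have ht : F.t ω = F.t ν := by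
    have hT : F.T ω = F.T ν := (Prod.ext_iff.1 (Prod.ext_iff.1 e).2).1
    unfold Fam.t
    rw [hT]
  refine h.bx ω ν hω hν ht rfl (hC ω ν e) (fun i => ?_) u j
  have h1 := hc ω ν hω hν e i i.2
  refine h1.trans ?_
  have h2 : (2 : ℝ) ^ (γ i + q) ≤ 2 ^ (γ (i : ℕ) + q + (X + mm)) :=
    pow_le_pow_right₀ one_le_two (by omega)
  have h3 : (0 : ℝ) < 2 ^ (γ (i : ℕ) + q) := by positivity
  calc (1 : ℝ) / 2 ^ (γ (i : ℕ) + q + (X + mm)) ≤ 1 / 2 ^ (γ (i : ℕ) + q) :=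
        one_div_le_one_div_of_le h3 h2
    _ ≤ 2 ^ 2 / 2 ^ (γ (i : ℕ) + q) := by
        refine div_le_div_of_nonneg_right (by norm_num) h3.le

end

section

variable {m J : ℕ} {F : Fam m J} {c : ℕ → Fin m} {k w : ℕ}
  {H : LnT F → ℕ → MvPolynomial (Option (Fin m)) ℝ} {p : F.Ω → ℝ}

/-- **The fullness** of the digits of one target from fixed digits. -/
theorem ful_t (hp : IsLaw p) {f : ℕ} {nb Nn : ℕ → ℝ} {N₁ N₂ : Fin (f + 1) → ℕ}
    {v : Fin (f + 1)} {Q₂ : ℝ} (h1 : ∀ u : Fin (f + 1), (N₁ u : ℝ) ≤ Nn u * J)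
    (h4 : Q₂ * J ≤ N₂ v) {ζ V : Type} (zw : F.Ω → ζ) (z : F.Ω → V) :
    CH p (th0 F c (k + v) w H Q₂)
      (fun ω => (thT F c k f w H Nn ω, (jh F c k w H nb ω, ((z ω, zw ω), F.W ω)))) -
        ((f : ℝ) + 2) * Real.log 5 ≤
    CH p (fun ω => Mm F c (fun u : Fin (f + 1) => k + (u : ℕ)) w H N₂ ω v)
      (fun ω => (z ω, (Mm F c (fun u : Fin (f + 1) => k + (u : ℕ)) w H N₁ ω,
        (jp F c 0 (fun i : Fin k => (i : ℕ)) w H (fun l => nb l) ω, (F.W ω, zw ω))))) := by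
  have h0 := hp.nonneg
  obtain ⟨tg, htg⟩ : ∃ tg : Fin (f + 1) → ℕ, tg = fun u : Fin (f + 1) => k + (u : ℕ) :=
    ⟨_, rfl⟩
  have tgv : ∀ u, tg u = k + u := fun u => by rw [htg]
  have hX : ∀ (N : Fin (f + 1) → ℕ) (u : Fin (f + 1)), (fun ω => Mm F c tg w H N ω u) =
      fun ω => ⌊(2 : ℝ) ^ ((N u : ℕ) : ℝ) * ojet F (c (k + u)) 0 (H (slam F w ω) (k + u)) ω⌋ := by
    intro N u
    funext ω
    unfold Mm Mh
    rw [Real.rpow_natCast, tgv]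
  rw [← htg, hX]
  obtain ⟨Z, hZ⟩ : ∃ Z : F.Ω → _, Z = fun ω => (z ω, (Mm F c tg w H N₁ ω,
    (jp F c 0 (fun i : Fin k => (i : ℕ)) w H (fun l => nb l) ω, (F.W ω, zw ω)))) := ⟨_, rfl⟩
  rw [← hZ]
  obtain ⟨Z', hZ'⟩ : ∃ Z' : F.Ω → _, Z' = fun ω => (thT F c k f w H Nn ω,
    (jh F c k w H nb ω, ((z ω, zw ω), F.W ω))) := ⟨_, rfl⟩
  rw [← hZ']
  obtain ⟨X₂, hX₂⟩ : ∃ X₂ : F.Ω → ℤ, X₂ = fun ω =>
    ⌊(2 : ℝ) ^ ((N₂ v : ℕ) : ℝ) * ojet F (c (k + v)) 0 (H (slam F w ω) (k + v)) ω⌋ := ⟨_, rfl⟩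
  rw [← hX₂]
  -- more digits
  have s1 : CH p (th0 F c (k + v) w H Q₂) Z' ≤ CH p X₂ Z' + Real.log 5 := by
    have e1 := CH_le_add h0 (th0 F c (k + v) w H Q₂) X₂ Z'
    have e2 := CH_dig hp (a := ((N₂ v : ℕ) : ℝ)) (b := Q₂ * J)
      (fun ω => ojet F (c (k + v)) 0 (H (slam F w ω) (k + v)) ω) (fun ω => (X₂ ω, Z' ω))
      (fun ω ν _ _ e => by
        have e3 := (Prod.ext_iff.mp e).1
        rw [hX₂] at e3
        exact e3)
    rw [max_eq_right (by linarith), zero_mul, zero_add] at e2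
    have e4 : CH p (th0 F c (k + v) w H Q₂) (fun ω => (X₂ ω, Z' ω)) ≤ Real.log 5 := e2
    linarith
  -- the condition
  have s2 : CH p X₂ Z' ≤ CH p X₂ Z + ((f : ℝ) + 1) * Real.log 5 := by
    have e1 := CH_le_add h0 X₂ (Mm F c tg w H N₁) Z'
    have e2 : CH p X₂ (fun ω => (Mm F c tg w H N₁ ω, Z' ω)) ≤ CH p X₂ Z := by
      refine CH_mono_cond h0 fun ω ν hω hν e => ?_
      rw [hZ'] at e
      rw [hZ]
      simp only [Prod.mk.injEq] at e ⊢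
      exact ⟨e.2.2.2.1.1, e.1, jh_jp nb ω ν hω hν e.2.2.1, e.2.2.2.2, e.2.2.2.1.2⟩
    have e3 : CH p (Mm F c tg w H N₁) Z' ≤ ((f : ℝ) + 1) * Real.log 5 := by
      have e5 := ch_vec h0 Z' (f + 1) (Mm F c tg w H N₁) (c := Real.log 5) fun u => ?_
      · push_cast at e5
        exact e5
      · rw [hX]
        have e4 := CH_dig hp (a := Nn u * J) (b := ((N₁ u : ℕ) : ℝ))
          (fun ω => ojet F (c (k + u)) 0 (H (slam F w ω) (k + u)) ω) Z'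
          (fun ω ν hω hν e => by
            rw [hZ'] at e
            exact congrFun (Prod.ext_iff.mp e).1 u)
        rw [max_eq_right (by linarith [h1 u]), zero_mul, zero_add] at e4
        exact e4
    linarith
  linarith

end

end Pool.V0T
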