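import Pool.Agent.H48.V0T.Nev
import Pool.Agent.H44.V0P.Num5

/-!
# The numbers of the class theorem for several targets: the small constants

`cst_t`, `e_let`, `r_let`.
-/

set_option autoImplicit false

namespace Pool.V0T

open Finset Real
open Pool.LA91 Pool.V0F Pool.V0Q

/-- **The numbers from the small constants.** -/
theorem cst_t {k r D Cg Cc : ℕ} {s τ ξ ι κ C δ₁ θ β φ φ₀ u y : ℝ}
    (K : CS r D Cg Cc s τ ξ ι δ₁ (1 / (2 * s)) θ β) (hs : 1 < s) (hC : 0 ≤ C)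
    (d1 : δ₁ ≤ 1 / 2) (d2 : δ₁ ≤ ξ / 2) (d3 : δ₁ ≤ (s - 1 - ξ) / 2) (d4 : δ₁ ≤ κ * ξ / 2)
    (hφ₀' : φ₀ = θ / ((k : ℝ) + 3 + s + C))
    (hu : 0 < u) (hφ0 : 0 < φ) (hφ₀ : φ ≤ φ₀ * u) (hy : y = ((k : ℝ) + 3 + s + C) * φ) :
    φ₀ * u ≤ θ * u ∧ 0 ≤ φ₀ * u ∧ y ≤ θ * u ∧ 0 ≤ y ∧ φ ≤ θ * u ∧ 4000 * y ≤ u ∧
      4000 * (s * y) ≤ u ∧ 4000 * y ≤ ξ * u ∧ 4000 * y ≤ (s - 1 - ξ) * u ∧
      4000 * y ≤ κ * (ξ * u) ∧ (Cc : ℝ) * (2 * φ) ≤ u ∧ C * φ ≤ y := by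
  have hr0 : (0 : ℝ) ≤ k := Nat.cast_nonneg k
  have hθ0 := K.θ0
  have hs0 : 0 < s := one_pos.trans hs
  have hrs : (0 : ℝ) < (k : ℝ) + 3 + s + C := by linarith
  have hφ₀θ : φ₀ ≤ θ := by
    rw [hφ₀']
    exact div_le_self hθ0.le (by linarith)
  have hφ₀0 : 0 < φ₀ := by rw [hφ₀']; positivity
  have hφ₀u : φ₀ * u ≤ θ * u := mul_le_mul_of_nonneg_right hφ₀θ hu.le
  have hyθ : y ≤ θ * u := by
    have h1 : ((k : ℝ) + 3 + s + C) * φ ≤ ((k : ℝ) + 3 + s + C) * (φ₀ * u) :=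
      mul_le_mul_of_nonneg_left hφ₀ hrs.le
    have h2 : ((k : ℝ) + 3 + s + C) * (φ₀ * u) = θ * u := by
      rw [hφ₀']
      field_simp
    rw [hy]
    linarith
  have hy0 : 0 ≤ y := by rw [hy]; positivity
  have hφθ : φ ≤ θ * u := hφ₀.trans hφ₀u
  have t1 := K.t1
  have hβδ := K.β3
  have hβs := K.β4
  have e0 : 4000 * θ ≤ 2 * β := by linarith
  have mu : ∀ {a : ℝ}, 4000 * θ ≤ a → 4000 * y ≤ a * u := fun {a} ha => by
    have h1 := mul_le_mul_of_nonneg_right ha hu.le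
    linarith
  have c7 := mul_le_mul_of_nonneg_right K.t3 hu.le
  have c8 := mul_le_mul_of_nonneg_right K.β1 hu.le
  have h5 : 2 * (Cc : ℝ) * φ ≤ 2 * (Cc : ℝ) * (θ * u) :=
    mul_le_mul_of_nonneg_left hφθ (by positivity)
  have e1 : 4000 * y ≤ 1 * u := mu (by linarith)
  have e2 : 4000 * y ≤ 1 / s * u := mu (by
    have : 2 * (1 / (2 * s)) = 1 / s := by field_simp
    linarith)
  have e3 : 4000 * (s * y) ≤ u := by
    have h1 := mul_le_mul_of_nonneg_left e2 hs0.le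
    have h2 : s * (1 / s * u) = u := by field_simp
    linarith
  have e4 : 0 ≤ ((k : ℝ) + 3 + s) * φ := by positivity
  refine ⟨hφ₀u, by positivity, hyθ, hy0, hφθ, by linarith, e3, mu (by linarith),
    mu (by linarith), ?_, by linarith, ?_⟩
  · have h1 : 4000 * y ≤ κ * ξ * u := mu (by linarith)
    linarith
  · rw [hy]
    linarith

/-- **All errors are small.** -/
theorem e_let {k f D Cg Cc : ℕ} {s τ ξ ι δ₁ δ₂ θ β : ℝ}
    (C : CS (k + f + 1) D Cg Cc s τ ξ ι δ₁ δ₂ θ β) (hτ : 0 < τ) (hξ : 0 < ξ)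
    {u J X y φ φ₀ Ca Cn : ℝ} (hu : 0 < u) (hJ : 0 ≤ J) (hX : ξ * u * J - 1 ≤ X) (hy : 0 ≤ y)
    (hyu : y ≤ θ * u) (hφ : 0 ≤ φ) (hφu : φ ≤ θ * u) (hφ₀ : φ₀ * u ≤ θ * u) (hCn : Cn * φ ≤ y)
    (hZ : 1 + Z2 (k + f + 1) D Ca ≤ θ * u * J) (hCa : 0 ≤ Ca) :
    ((k * (40 * y) + 10 * y + 20 * (k : ℝ) ^ 2 * φ + φ₀ * u + φ₀ * u +
        8 * ((f : ℝ) + 1) * Cn * φ + θ * u) * J + k * Real.log 5) + 600 * y * J +
      (θ * u * J + τ * ξ / 8 * u * J + ((D : ℝ) + 2) * (501 * y * J * Real.log 2 + Real.log 5) +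
        2 * k * Real.log 5) + Ca + θ * u * J ≤ τ * X := by
  have hk0 : (0 : ℝ) ≤ k := Nat.cast_nonneg k
  have hf0 : (0 : ℝ) ≤ f := Nat.cast_nonneg f
  have hD0 : (0 : ℝ) ≤ D := Nat.cast_nonneg D
  have hl2 : 0 < Real.log 2 := Real.log_pos one_lt_two
  have hl5 : 0 < Real.log 5 := Real.log_pos (by norm_num)
  have hl2' : Real.log 2 ≤ 1 := by
    have := Real.log_two_lt_d9
    linarith
  have hZ0 := Z2_nonneg (k + f + 1) D hCa
  obtain ⟨-, -, h3⟩ := C.X_le hτ hu hJ hX (by linarith)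
  obtain ⟨V, hV⟩ : ∃ V : ℝ, V = θ * u * J := ⟨_, rfl⟩
  have hV0 : 0 ≤ V := by
    rw [hV]
    have := C.θ0
    positivity
  have yV : y * J ≤ V := by
    rw [hV]
    exact mul_le_mul_of_nonneg_right hyu hJ
  have φV : φ * J ≤ V := by
    rw [hV]
    exact mul_le_mul_of_nonneg_right hφu hJ
  have φ₀V : φ₀ * u * J ≤ V := by
    rw [hV]
    exact mul_le_mul_of_nonneg_right hφ₀ hJ
  have CV : Cn * φ * J ≤ V := (mul_le_mul_of_nonneg_right hCn hJ).trans yV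
  have yl : y * J * Real.log 2 ≤ V := by
    have : y * J * Real.log 2 ≤ y * J * 1 := mul_le_mul_of_nonneg_left hl2' (by positivity)
    linarith
  obtain ⟨r, hr⟩ : ∃ r : ℝ, r = (k : ℝ) + f + 1 := ⟨_, rfl⟩
  have hr1 : 1 ≤ r := by rw [hr]; linarith
  have hkr : (k : ℝ) ≤ r := by rw [hr]; linarith
  have hfr : (f : ℝ) + 1 ≤ r := by rw [hr]; linarith
  have e1 : (k : ℝ) * (y * J) ≤ r * V :=
    (mul_le_mul_of_nonneg_left yV hk0).trans (mul_le_mul_of_nonneg_right hkr hV0)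
  have e2 : (k : ℝ) ^ 2 * (φ * J) ≤ r ^ 2 * V :=
    (mul_le_mul_of_nonneg_left φV (by positivity)).trans
      (mul_le_mul_of_nonneg_right (pow_le_pow_left₀ hk0 hkr 2) hV0)
  have e3 : ((f : ℝ) + 1) * (Cn * φ * J) ≤ r * V :=
    (mul_le_mul_of_nonneg_left CV (by positivity)).trans (mul_le_mul_of_nonneg_right hfr hV0)
  have e4 : ((D : ℝ) + 2) * (y * J * Real.log 2) ≤ ((D : ℝ) + 2) * V :=
    mul_le_mul_of_nonneg_left yl (by positivity)
  have e7 : 8 * (A2 (k + f + 1) D * V) ≤ β * u * J := by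
    have := mul_le_mul_of_nonneg_right C.t5 (show 0 ≤ u * J by positivity)
    rw [hV]
    linarith
  have e8 : β * (u * J) ≤ τ * ξ * (u * J) := mul_le_mul_of_nonneg_right C.β5 (by positivity)
  have e10 : A2 (k + f + 1) D * V = 65 * (35 * (r * V) + 20 * (r ^ 2 * V) + 13 * V) +
      300 * (r * V) + (r + 1) * V + 500 * ((r + 1) * (((D : ℝ) + 2) * V)) + V := by
    unfold A2
    push_cast
    rw [← hr]
    ring
  have e11 : 2 * (((D : ℝ) + 2) * V) ≤ (r + 1) * (((D : ℝ) + 2) * V) :=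
    mul_le_mul_of_nonneg_right (by linarith) (by positivity)
  have e12 : Z2 (k + f + 1) D Ca = 65 * (r * Real.log 5) + Real.log 2 + r * Real.log 5 +
      (r + 1) * (r * Real.log 5 + ((D : ℝ) + 2) * Real.log 5) + Ca := by
    unfold Z2
    push_cast
    rw [← hr]
  have e13 : ((D : ℝ) + 2) * Real.log 5 ≤
      (r + 1) * (r * Real.log 5 + ((D : ℝ) + 2) * Real.log 5) := by
    have h1 : 0 ≤ r * (((D : ℝ) + 2) * Real.log 5) := by positivity
    have h2 : 0 ≤ (r + 1) * (r * Real.log 5) := by positivity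
    linarith
  have e14 : 0 ≤ r * Real.log 5 := by positivity
  have e14' : (k : ℝ) * Real.log 5 ≤ r * Real.log 5 := mul_le_mul_of_nonneg_right hkr hl5.le
  have e15 : V ≤ r * V := le_mul_of_one_le_left hV0 hr1
  have e16 : 0 ≤ r ^ 2 * V := by positivity
  have e17 : 0 ≤ ((D : ℝ) + 2) * V := by positivity
  rw [← hV] at hZ
  have hVe : θ * u * J = V := hV.symm
  have g1 : ((k * (40 * y) + 10 * y + 20 * (k : ℝ) ^ 2 * φ + φ₀ * u + φ₀ * u +
        8 * ((f : ℝ) + 1) * Cn * φ + θ * u) * J + k * Real.log 5) + 600 * y * J +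
      (θ * u * J + τ * ξ / 8 * u * J + ((D : ℝ) + 2) * (501 * y * J * Real.log 2 + Real.log 5) +
        2 * k * Real.log 5) + Ca + θ * u * J =
      40 * (k * (y * J)) + 20 * ((k : ℝ) ^ 2 * (φ * J)) + 2 * (φ₀ * u * J) + 610 * (y * J) +
        8 * (((f : ℝ) + 1) * (Cn * φ * J)) +
        3 * V + τ * ξ * u * J / 8 + 501 * (((D : ℝ) + 2) * (y * J * Real.log 2)) +
        ((D : ℝ) + 2) * Real.log 5 + 3 * (k * Real.log 5) + Ca := by
    rw [← hVe]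
    ring
  rw [g1]
  have g2 : 3 * (k * Real.log 5) + ((D : ℝ) + 2) * Real.log 5 + Ca ≤ V := by
    linarith
  have g3 : 0 ≤ τ * ξ * u * J := by positivity
  linarith

/-- **The rows.** -/
theorem r_let {k f D Cg Cc : ℕ} {s τ ξ ι δ₁ δ₂ θ β : ℝ}
    (C : CS (k + f + 1) D Cg Cc s τ ξ ι δ₁ δ₂ θ β) (hτ : 0 < τ) (hξ : 0 < ξ)
    {u J X φ y h Cr Ca : ℝ} (hu : 0 < u) (hJ : 0 ≤ J) (hX : ξ * u * J - 1 ≤ X) (hφ : 0 ≤ φ)
    (hφu : φ ≤ θ * u) (hyu : y ≤ θ * u) (hy : 0 ≤ y) (hCr : Cr * φ ≤ y) (hh : 0 < h)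
    (hh1 : h ≤ 1) (hZ : 1 + Z2 (k + f + 1) D Ca ≤ θ * u * J) (hCa : 0 ≤ Ca) :
    (((1 - h) * (ξ * u + 2 * φ) + f * (ξ * u + 22 * y)) * Real.log 2 + φ +
          8 * ((f : ℝ) + 1) * Cr * φ + θ * u) * J + 2 * (((f : ℝ) + 1) * Real.log 5) ≤
      ((f : ℝ) + 1 - h) * X * Real.log 2 + τ * X := by
  have hk0 : (0 : ℝ) ≤ k := Nat.cast_nonneg k
  have hf0 : (0 : ℝ) ≤ f := Nat.cast_nonneg f
  have hD0 : (0 : ℝ) ≤ D := Nat.cast_nonneg D
  have hl2 : 0 < Real.log 2 := Real.log_pos one_lt_two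
  have hl2' : Real.log 2 ≤ 1 := by
    have := Real.log_two_lt_d9
    linarith
  have hl5 : 0 < Real.log 5 := Real.log_pos (by norm_num)
  have hl25 : Real.log 2 ≤ Real.log 5 := Real.log_le_log two_pos (by norm_num)
  have hZ0 := Z2_nonneg (k + f + 1) D hCa
  obtain ⟨-, -, h3⟩ := C.X_le hτ hu hJ hX (by linarith)
  obtain ⟨V, hV⟩ : ∃ V : ℝ, V = θ * u * J := ⟨_, rfl⟩
  have hV0 : 0 ≤ V := by
    rw [hV]
    have := C.θ0
    positivity
  have φV : φ * J ≤ V := by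
    rw [hV]
    exact mul_le_mul_of_nonneg_right hφu hJ
  have yV : y * J ≤ V := by
    rw [hV]
    exact mul_le_mul_of_nonneg_right hyu hJ
  have CV : Cr * φ * J ≤ V := (mul_le_mul_of_nonneg_right hCr hJ).trans yV
  obtain ⟨r, hr⟩ : ∃ r : ℝ, r = (k : ℝ) + f + 1 := ⟨_, rfl⟩
  have hr1 : 1 ≤ r := by rw [hr]; linarith
  have hfr : (f : ℝ) + 1 ≤ r := by rw [hr]; linarith
  have e7 : 8 * (A2 (k + f + 1) D * V) ≤ β * u * J := by
    have := mul_le_mul_of_nonneg_right C.t5 (show 0 ≤ u * J by positivity)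
    rw [hV]
    linarith
  have e8 : β * (u * J) ≤ τ * ξ * (u * J) := mul_le_mul_of_nonneg_right C.β5 (by positivity)
  have e10 : A2 (k + f + 1) D * V = 65 * (35 * (r * V) + 20 * (r ^ 2 * V) + 13 * V) +
      300 * (r * V) + (r + 1) * V + 500 * ((r + 1) * (((D : ℝ) + 2) * V)) + V := by
    unfold A2
    push_cast
    rw [← hr]
    ring
  have e12 : Z2 (k + f + 1) D Ca = 65 * (r * Real.log 5) + Real.log 2 + r * Real.log 5 +
      (r + 1) * (r * Real.log 5 + ((D : ℝ) + 2) * Real.log 5) + Ca := by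
    unfold Z2
    push_cast
    rw [← hr]
  have c0 : 0 ≤ ((f : ℝ) + 1 - h) * Real.log 2 := mul_nonneg (by linarith) hl2.le
  have c1 : ((f : ℝ) + 1 - h) * Real.log 2 ≤ r * Real.log 5 := by
    have h1 : ((f : ℝ) + 1 - h) * Real.log 2 ≤ r * Real.log 2 :=
      mul_le_mul_of_nonneg_right (by linarith) hl2.le
    have h2 : r * Real.log 2 ≤ r * Real.log 5 := mul_le_mul_of_nonneg_left hl25 (by linarith)
    linarith
  have e1 : ((f : ℝ) + 1 - h) * Real.log 2 * (ξ * u * J - 1) ≤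
      ((f : ℝ) + 1 - h) * Real.log 2 * X := mul_le_mul_of_nonneg_left hX c0
  have c2 : 0 ≤ (1 - h) * Real.log 2 := mul_nonneg (by linarith) hl2.le
  have c3 : (1 - h) * Real.log 2 ≤ 1 := by nlinarith
  have e2 : (1 - h) * Real.log 2 * (φ * J) ≤ φ * J :=
    mul_le_of_le_one_left (by positivity) c3
  have e3 : (f : ℝ) * (y * J * Real.log 2) ≤ r * V := by
    have h1 : y * J * Real.log 2 ≤ V := by
      have : y * J * Real.log 2 ≤ y * J * 1 := mul_le_mul_of_nonneg_left hl2' (by positivity)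
      linarith
    exact (mul_le_mul_of_nonneg_left h1 hf0).trans
      (mul_le_mul_of_nonneg_right (by linarith) hV0)
  have e4 : ((f : ℝ) + 1) * (Cr * φ * J) ≤ r * V :=
    (mul_le_mul_of_nonneg_left CV (by positivity)).trans (mul_le_mul_of_nonneg_right hfr hV0)
  have e5 : ((f : ℝ) + 1) * Real.log 5 ≤ r * Real.log 5 := mul_le_mul_of_nonneg_right hfr hl5.le
  have e14 : 0 ≤ r * Real.log 5 := by positivity
  have e15 : V ≤ r * V := le_mul_of_one_le_left hV0 hr1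
  have e16 : 0 ≤ r ^ 2 * V := by positivity
  have e17 : 0 ≤ (r + 1) * (((D : ℝ) + 2) * V) := by positivity
  have e18 : 0 ≤ (r + 1) * (r * Real.log 5 + ((D : ℝ) + 2) * Real.log 5) := by positivity
  rw [← hV] at hZ
  have hVe : θ * u * J = V := hV.symm
  have g1 : (((1 - h) * (ξ * u + 2 * φ) + f * (ξ * u + 22 * y)) * Real.log 2 + φ +
          8 * ((f : ℝ) + 1) * Cr * φ + θ * u) * J + 2 * (((f : ℝ) + 1) * Real.log 5) =
      ((f : ℝ) + 1 - h) * Real.log 2 * (ξ * u * J - 1) + ((f : ℝ) + 1 - h) * Real.log 2 +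
        2 * ((1 - h) * Real.log 2 * (φ * J)) + 22 * ((f : ℝ) * (y * J * Real.log 2)) + φ * J +
        8 * (((f : ℝ) + 1) * (Cr * φ * J)) + V + 2 * (((f : ℝ) + 1) * Real.log 5) := by
    rw [← hVe]
    ring
  rw [g1]
  have g3 : 0 ≤ τ * ξ * u * J := by positivity
  linarith

end Pool.V0T
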