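import Pool.Agent.H48.V0T.Nct
import Pool.Agent.H44.V0F.V0c1

/-!
# The numbers of the class theorem for several targets: the blocks

`r_letb`: the rows of the blocks; `f_letb`: the fullness; `nj_t`: the numbers of one event.
-/

set_option autoImplicit false

namespace Pool.V0T

open Finset Real
open Pool.LA91 Pool.V0F Pool.V0Q

/-- **The rows of the blocks.** -/
theorem r_letb {k f D Cg Cc : ℕ} {s τ ξ ι δ₁ δ₂ θ β : ℝ}
    (C : CS (k + f + 1) D Cg Cc s τ ξ ι δ₁ δ₂ θ β) (hτ : 0 < τ) (hξ : 0 < ξ)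
    {u J X φ y h Cr Ca κ a : ℝ} (hu : 0 < u) (hJ : 0 ≤ J) (hX : ξ * u * J - 1 ≤ X) (hφ : 0 ≤ φ)
    (hφu : φ ≤ θ * u) (hyu : y ≤ θ * u) (hy : 0 ≤ y) (hCr : Cr * φ ≤ y) (hh : 0 < h)
    (hh1 : h ≤ 1) (hκ : 0 < κ) (ha : 0 ≤ a) (haκ : a * κ ≤ 1)
    (hZ : 1 + Z2 (k + f + 1) D Ca ≤ θ * u * J) (hCa : 0 ≤ Ca) :
    (((1 - h) * (a * κ * (ξ * u) + 2 * φ) + f * (a * κ * (ξ * u) + 22 * y)) * Real.log 2 + φ +
          8 * ((f : ℝ) + 1) * Cr * φ + θ * u) * J + 2 * (((f : ℝ) + 1) * Real.log 5) ≤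
      ((f : ℝ) + 1 - h) * (a * (κ * X)) * Real.log 2 + τ * X := by
  have hk0 : (0 : ℝ) ≤ k := Nat.cast_nonneg k
  have hf0 : (0 : ℝ) ≤ f := Nat.cast_nonneg f
  have hD0 : (0 : ℝ) ≤ D := Nat.cast_nonneg D
  have hl2 : 0 < Real.log 2 := Real.log_pos one_lt_two
  have hl2' : Real.log 2 ≤ 1 := by
    have := Real.log_two_lt_d9
    linarith
  have hl5 : 0 < Real.log 5 := Real.log_pos (by norm_num)
  have hl25 : Real.log 2 ≤ Real.log 5 := Real.log_le_log two_pos (by norm_num)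
  have hZ0 := Z2_nonneg (k + f + 1) D hCa
  obtain ⟨-, -, h3⟩ := C.X_le hτ hu hJ hX (by linarith)
  obtain ⟨V, hV⟩ : ∃ V : ℝ, V = θ * u * J := ⟨_, rfl⟩
  have hV0 : 0 ≤ V := by
    rw [hV]
    have := C.θ0
    positivity
  have φV : φ * J ≤ V := by
    rw [hV]
    exact mul_le_mul_of_nonneg_right hφu hJ
  have yV : y * J ≤ V := by
    rw [hV]
    exact mul_le_mul_of_nonneg_right hyu hJ
  have CV : Cr * φ * J ≤ V := (mul_le_mul_of_nonneg_right hCr hJ).trans yV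
  obtain ⟨r, hr⟩ : ∃ r : ℝ, r = (k : ℝ) + f + 1 := ⟨_, rfl⟩
  have hr1 : 1 ≤ r := by rw [hr]; linarith
  have hfr : (f : ℝ) + 1 ≤ r := by rw [hr]; linarith
  have e7 : 8 * (A2 (k + f + 1) D * V) ≤ β * u * J := by
    have := mul_le_mul_of_nonneg_right C.t5 (show 0 ≤ u * J by positivity)
    rw [hV]
    linarith
  have e8 : β * (u * J) ≤ τ * ξ * (u * J) := mul_le_mul_of_nonneg_right C.β5 (by positivity)
  have e10 : A2 (k + f + 1) D * V = 65 * (35 * (r * V) + 20 * (r ^ 2 * V) + 13 * V) +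
      300 * (r * V) + (r + 1) * V + 500 * ((r + 1) * (((D : ℝ) + 2) * V)) + V := by
    unfold A2
    push_cast
    rw [← hr]
    ring
  have e12 : Z2 (k + f + 1) D Ca = 65 * (r * Real.log 5) + Real.log 2 + r * Real.log 5 +
      (r + 1) * (r * Real.log 5 + ((D : ℝ) + 2) * Real.log 5) + Ca := by
    unfold Z2
    push_cast
    rw [← hr]
  obtain ⟨α, hα⟩ : ∃ α : ℝ, α = a * κ := ⟨_, rfl⟩
  have hα0 : 0 ≤ α := by rw [hα]; positivity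
  have hα1 : α ≤ 1 := by rw [hα]; exact haκ
  have c0' : 0 ≤ ((f : ℝ) + 1 - h) * Real.log 2 := mul_nonneg (by linarith) hl2.le
  have c0 : 0 ≤ ((f : ℝ) + 1 - h) * Real.log 2 * α := mul_nonneg c0' hα0
  have c1 : ((f : ℝ) + 1 - h) * Real.log 2 * α ≤ r * Real.log 5 := by
    have h0 : ((f : ℝ) + 1 - h) * Real.log 2 * α ≤ ((f : ℝ) + 1 - h) * Real.log 2 :=
      mul_le_of_le_one_right c0' hα1
    have h1 : ((f : ℝ) + 1 - h) * Real.log 2 ≤ r * Real.log 2 :=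
      mul_le_mul_of_nonneg_right (by linarith) hl2.le
    have h2 : r * Real.log 2 ≤ r * Real.log 5 := mul_le_mul_of_nonneg_left hl25 (by linarith)
    linarith
  have e1 : ((f : ℝ) + 1 - h) * Real.log 2 * α * (ξ * u * J - 1) ≤
      ((f : ℝ) + 1 - h) * Real.log 2 * α * X := mul_le_mul_of_nonneg_left hX c0
  have c2 : 0 ≤ (1 - h) * Real.log 2 := mul_nonneg (by linarith) hl2.le
  have c3 : (1 - h) * Real.log 2 ≤ 1 := by nlinarith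
  have e2 : (1 - h) * Real.log 2 * (φ * J) ≤ φ * J :=
    mul_le_of_le_one_left (by positivity) c3
  have e3 : (f : ℝ) * (y * J * Real.log 2) ≤ r * V := by
    have h1 : y * J * Real.log 2 ≤ V := by
      have : y * J * Real.log 2 ≤ y * J * 1 := mul_le_mul_of_nonneg_left hl2' (by positivity)
      linarith
    exact (mul_le_mul_of_nonneg_left h1 hf0).trans
      (mul_le_mul_of_nonneg_right (by linarith) hV0)
  have e4 : ((f : ℝ) + 1) * (Cr * φ * J) ≤ r * V :=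
    (mul_le_mul_of_nonneg_left CV (by positivity)).trans (mul_le_mul_of_nonneg_right hfr hV0)
  have e5 : ((f : ℝ) + 1) * Real.log 5 ≤ r * Real.log 5 := mul_le_mul_of_nonneg_right hfr hl5.le
  have e14 : 0 ≤ r * Real.log 5 := by positivity
  have e15 : V ≤ r * V := le_mul_of_one_le_left hV0 hr1
  have e16 : 0 ≤ r ^ 2 * V := by positivity
  have e17 : 0 ≤ (r + 1) * (((D : ℝ) + 2) * V) := by positivity
  have e18 : 0 ≤ (r + 1) * (r * Real.log 5 + ((D : ℝ) + 2) * Real.log 5) := by positivity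
  rw [← hV] at hZ
  have hVe : θ * u * J = V := hV.symm
  have g1 : (((1 - h) * (a * κ * (ξ * u) + 2 * φ) + f * (a * κ * (ξ * u) + 22 * y)) *
        Real.log 2 + φ + 8 * ((f : ℝ) + 1) * Cr * φ + θ * u) * J +
        2 * (((f : ℝ) + 1) * Real.log 5) =
      ((f : ℝ) + 1 - h) * Real.log 2 * α * (ξ * u * J - 1) +
        ((f : ℝ) + 1 - h) * Real.log 2 * α +
        2 * ((1 - h) * Real.log 2 * (φ * J)) + 22 * ((f : ℝ) * (y * J * Real.log 2)) + φ * J +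
        8 * (((f : ℝ) + 1) * (Cr * φ * J)) + V + 2 * (((f : ℝ) + 1) * Real.log 5) := by
    rw [← hVe, hα]
    ring
  have g2 : ((f : ℝ) + 1 - h) * (a * (κ * X)) * Real.log 2 =
      ((f : ℝ) + 1 - h) * Real.log 2 * α * X := by
    rw [hα]
    ring
  rw [g1, g2]
  have g3 : 0 ≤ τ * ξ * u * J := by positivity
  linarith

/-- **The fullness.** -/
theorem f_letb {k f D Cg Cc : ℕ} {s τ ξ ι δ₁ δ₂ θ β : ℝ}
    (C : CS (k + f + 1) D Cg Cc s τ ξ ι δ₁ δ₂ θ β) (hτ : 0 < τ) (hξ : 0 < ξ)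
    {u J X φ y κ Cf Ca a : ℝ} (hu : 0 < u) (hJ : 0 ≤ J) (hX : ξ * u * J - 1 ≤ X)
    (hX2 : X ≤ ξ * u * J) (hyu : y ≤ θ * u) (hy : 0 ≤ y)
    (hCf : Cf * φ ≤ y) (hκ : 0 < κ) (ha : 0 ≤ a)
    (hZ : 1 + Z2 (k + f + 1) D Ca ≤ θ * u * J) (hCa : 0 ≤ Ca) :
    a * (κ * X) * Real.log 2 - τ * X ≤
      ((a * κ * (ξ * u) - 30 * y) * Real.log 2 - 8 * ((f : ℝ) + 1) * Cf * φ - θ * u) * J -
        ((f : ℝ) + 2) * Real.log 5 := by
  have hk0 : (0 : ℝ) ≤ k := Nat.cast_nonneg k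
  have hf0 : (0 : ℝ) ≤ f := Nat.cast_nonneg f
  have hD0 : (0 : ℝ) ≤ D := Nat.cast_nonneg D
  have hl2 : 0 < Real.log 2 := Real.log_pos one_lt_two
  have hl2' : Real.log 2 ≤ 1 := by
    have := Real.log_two_lt_d9
    linarith
  have hl5 : 0 < Real.log 5 := Real.log_pos (by norm_num)
  have hZ0 := Z2_nonneg (k + f + 1) D hCa
  obtain ⟨-, -, h3⟩ := C.X_le hτ hu hJ hX (by linarith)
  obtain ⟨V, hV⟩ : ∃ V : ℝ, V = θ * u * J := ⟨_, rfl⟩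
  have hV0 : 0 ≤ V := by
    rw [hV]
    have := C.θ0
    positivity
  have yV : y * J ≤ V := by
    rw [hV]
    exact mul_le_mul_of_nonneg_right hyu hJ
  have CV : Cf * φ * J ≤ V := (mul_le_mul_of_nonneg_right hCf hJ).trans yV
  obtain ⟨r, hr⟩ : ∃ r : ℝ, r = (k : ℝ) + f + 1 := ⟨_, rfl⟩
  have hr1 : 1 ≤ r := by rw [hr]; linarith
  have hfr : (f : ℝ) + 1 ≤ r := by rw [hr]; linarith
  have e7 : 8 * (A2 (k + f + 1) D * V) ≤ β * u * J := by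
    have := mul_le_mul_of_nonneg_right C.t5 (show 0 ≤ u * J by positivity)
    rw [hV]
    linarith
  have e8 : β * (u * J) ≤ τ * ξ * (u * J) := mul_le_mul_of_nonneg_right C.β5 (by positivity)
  have e10 : A2 (k + f + 1) D * V = 65 * (35 * (r * V) + 20 * (r ^ 2 * V) + 13 * V) +
      300 * (r * V) + (r + 1) * V + 500 * ((r + 1) * (((D : ℝ) + 2) * V)) + V := by
    unfold A2
    push_cast
    rw [← hr]
    ring
  have e12 : Z2 (k + f + 1) D Ca = 65 * (r * Real.log 5) + Real.log 2 + r * Real.log 5 +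
      (r + 1) * (r * Real.log 5 + ((D : ℝ) + 2) * Real.log 5) + Ca := by
    unfold Z2
    push_cast
    rw [← hr]
  have e1 : a * κ * Real.log 2 * X ≤ a * κ * Real.log 2 * (ξ * u * J) :=
    mul_le_mul_of_nonneg_left hX2 (by positivity)
  have e3 : y * J * Real.log 2 ≤ y * J := mul_le_of_le_one_right (by positivity) hl2'
  have e4 : ((f : ℝ) + 1) * (Cf * φ * J) ≤ r * V :=
    (mul_le_mul_of_nonneg_left CV (by positivity)).trans (mul_le_mul_of_nonneg_right hfr hV0)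
  have e5 : ((f : ℝ) + 1) * Real.log 5 ≤ r * Real.log 5 := mul_le_mul_of_nonneg_right hfr hl5.le
  have e14 : Real.log 5 ≤ r * Real.log 5 := le_mul_of_one_le_left hl5.le hr1
  have e15 : V ≤ r * V := le_mul_of_one_le_left hV0 hr1
  have e16 : 0 ≤ r ^ 2 * V := by positivity
  have e17 : 0 ≤ (r + 1) * (((D : ℝ) + 2) * V) := by positivity
  have e18 : 0 ≤ (r + 1) * (r * Real.log 5 + ((D : ℝ) + 2) * Real.log 5) := by positivity
  rw [← hV] at hZ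
  have g1 : ((a * κ * (ξ * u) - 30 * y) * Real.log 2 - 8 * ((f : ℝ) + 1) * Cf * φ - θ * u) * J -
      ((f : ℝ) + 2) * Real.log 5 = a * κ * Real.log 2 * (ξ * u * J) -
      30 * (y * J * Real.log 2) - 8 * (((f : ℝ) + 1) * (Cf * φ * J)) - V -
      (((f : ℝ) + 1) * Real.log 5 + Real.log 5) := by
    rw [hV]
    ring
  have g2 : a * (κ * X) * Real.log 2 = a * κ * Real.log 2 * X := by ring
  rw [g1, g2]
  have g3 : 0 ≤ τ * ξ * u * J := by positivity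
  linarith

/-- **The numbers of one event.** -/
theorem nj_t {k f D Cg Cc : ℕ} {s τ ξ ι δ₁ δ₂ θ β : ℝ}
    (C : CS (k + f + 1) D Cg Cc s τ ξ ι δ₁ δ₂ θ β)
    {u y φ w w₁ κ Ca Z : ℝ} {J q X Y I : ℕ} {sn : ℕ → ℝ → ℝ} {γ : ℕ → ℕ}
    {X₀ X₁ j₀ nb n i₀ : ℕ}
    (E : Fl u y ξ φ w w₁ J q X Y I) (hτ : 0 < τ) (hξ1 : ξ ≤ 1) (hu : 0 < u) (hκ : 0 < κ)
    (hφ : 0 < φ) (hyθ : y ≤ θ * u) (hφθ : φ ≤ θ * u) (hCg : 1 ≤ Cg) (hCa : 0 ≤ Ca)
    (hξ0 : 0 < ξ)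
    (hZ : Z = 10 + 1 / κ + (1 + Z2 (k + f + 1) D Ca) + (2 + 2 * Real.log 5) +
      (4 * (Cg : ℝ) + 1) + (X₀ + 1) + (X₁ + 1) + nb + n + j₀) (hZφ : Z ≤ φ * J)
    (hw3 : w + 3 * φ ≤ 1) (hg1 : ∀ l ≤ k + f, (sn l w - φ) * J ≤ γ l)
    (hg2 : ∀ l ≤ k + f, (γ l : ℝ) ≤ sn l w * J) (hi₀ : i₀ < I) :
    NJ (k + f) sn φ w u y ξ κ J γ q X (Cg * Y + 1) (⌊w₁ * J⌋₊ + i₀) ∧
    ((⌊w₁ * J⌋₊ + i₀ : ℕ) : ℝ) ≤ (w + 2 * φ) * J ∧ X₀ ≤ X ∧ X₁ ≤ X ∧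
    ((Cg * Y + 1 : ℕ) : ℝ) ≤ τ * X ∧ (Cg : ℝ) * Y ≤ ι * u * J ∧
    ξ / 2 * u * J + Cg * Y ≤ X ∧ ξ / 2 * u * J ≤ X ∧
    1 + Z2 (k + f + 1) D Ca ≤ θ * u * J ∧
    2 + 2 * Real.log 5 ≤ θ * u * J ∧ (nb : ℝ) ≤ φ * J ∧ (n : ℝ) ≤ φ * J ∧ 10 ≤ φ * J := by
  have hJ0 : (0 : ℝ) ≤ J := Nat.cast_nonneg J
  obtain ⟨sn', hsn⟩ : ∃ sn' : ℕ → ℝ → ℝ, sn' = fun l x => if l ≤ k + f then sn l x else 0 :=
    ⟨_, rfl⟩
  obtain ⟨γ', hγ⟩ : ∃ γ' : ℕ → ℕ, γ' = fun l => if l ≤ k + f then γ l else 0 := ⟨_, rfl⟩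
  have e1 : ∀ l ≤ k + f, ∀ x, sn' l x = sn l x := fun l hl x => by
    rw [hsn]
    exact if_pos hl
  have e2 : ∀ l ≤ k + f, γ' l = γ l := fun l hl => by
    rw [hγ]
    exact if_pos hl
  have e3 : ∀ l, ¬ l ≤ k + f → ∀ x, sn' l x = 0 := fun l hl x => by
    rw [hsn]
    exact if_neg hl
  have e4 : ∀ l, ¬ l ≤ k + f → γ' l = 0 := fun l hl => by
    rw [hγ]
    exact if_neg hl
  obtain ⟨MJ, hW2, nX0, nX1, nmm, m3, m4, m5, z1, z2, z3, z4, big10⟩ := nj_of (J := J) (q := q)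
    (X := X) (Y := Y) (I := I) (sn := sn') (γ := γ') (X₀ := X₀) (X₁ := X₁) (j₀ := j₀)
    (nb := nb) (n := n) (i₀ := i₀) (Z := Z) (κ := κ) (κ₂ := ξ / 2) (κ₂' := 1) (Ca := Ca)
    (w₁ := w₁) C E hτ hξ1 hu hκ hφ hyθ hφθ hCg hCa le_rfl one_pos (by ring) hξ0 hZ hZφ hw3
    (fun l _ => by
      by_cases hl : l ≤ k + f
      · rw [e1 l hl, e2 l hl]
        exact hg1 l hl
      · rw [e3 l hl, e4 l hl]
        push_cast
        have : 0 ≤ φ * J := by positivity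
        linarith) (fun l _ => by
      by_cases hl : l ≤ k + f
      · rw [e1 l hl, e2 l hl]
        exact hg2 l hl
      · rw [e3 l hl, e4 l hl]
        simp) hi₀
  rw [one_mul] at m5
  exact ⟨⟨MJ.κ0, MJ.big, hg1, hg2, MJ.q1, MJ.q2, MJ.X1, MJ.X2, MJ.mm1, MJ.mm2, MJ.W1, MJ.W2⟩,
    hW2, nX0, nX1, nmm, m3, m4, m5, z1, z2, z3, z4, big10⟩

end Pool.V0T
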