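import Pool.Agent.H48.V0T.Nex

/-!
# The numbers of one event for several targets

`NTJ`: the numbers of one event. `NTO`: the conditions of the event theorem.
-/

set_option autoImplicit false

namespace Pool.V0T

open Finset Real
open Pool.LA91 Pool.V0F Pool.V0Q

/-- **The numbers of one event.** -/
structure NTJ (k f : ℕ) (sn : ℕ → ℝ → ℝ) (φ w u y ξ : ℝ) (J : ℕ) (γ : ℕ → ℕ) (q X mm W : ℕ) :
    Prop where
  big : 10 ≤ φ * J
  g1 : ∀ l ≤ k + f, (sn l w - φ) * J ≤ γ l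
  g2 : ∀ l ≤ k + f, (γ l : ℝ) ≤ sn l w * J
  q1 : (u + 500 * y) * J - 1 ≤ q
  q2 : (q : ℝ) ≤ (u + 500 * y) * J
  X1 : ξ * u * J - 1 ≤ X
  X2 : (X : ℝ) ≤ ξ * u * J
  mm1 : 1000 * y * J + 3 ≤ mm
  mm2 : (mm : ℝ) ≤ u / 2 * J
  W1 : w * J - 1 ≤ W
  W2 : (W : ℝ) ≤ (w + 2 * φ) * J

/-- **The conditions of the event theorem.** -/
structure NTO (k f : ℕ) (sn : ℕ → ℝ → ℝ) (lam : ℝ → ℝ) (P : ℕ → ℝ)
    (s φ w u y ξ e j x' xr xq oq : ℝ) (J : ℕ) (γ : ℕ → ℕ) (q X mm W : ℕ) : Prop where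
  WX : W + X ≤ J
  n0 : ∀ l < k, nnP k sn w u y φ l * J ≤ (γ l + q : ℕ)
  u0 : ∀ l < k, (sn l w + u + 400 * ((k : ℝ) + 2) * φ) * J ≤ (γ l + q : ℕ)
  u1 : ∀ l < k, (sn l w + u + 400 * ((k : ℝ) + 2) * φ - w) * J + W ≤ (γ l + q + (X + mm) : ℕ)
  m0 : ∀ l, k ≤ l → l ≤ k + f → (sn l j - 60 * φ) * J ≤ (γ l + q : ℕ)
  m1 : ∀ l, k ≤ l → l ≤ k + f → ((γ l + q : ℕ) : ℝ) ≤ (sn l j - 60 * φ) * J + 600 * y * J
  mf : ((γ (k + f) + q + X : ℕ) : ℝ) ≤ lam oq * J
  mf' : lam oq * J ≤ (γ (k + f) + q + X : ℕ) + 600 * y * J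
  mq : ∀ l, k ≤ l → l < k + f → ((γ l + q + X : ℕ) : ℝ) ≤ (sn l xq - e) * J
  mq' : ∀ l, k ≤ l → l < k + f → (sn l xq - e) * J ≤ (γ l + q + X : ℕ) + 600 * y * J
  f0 : ∀ l < k, ((γ l + q + (X + mm) : ℕ) : ℝ) ≤ nfP k sn w x' φ l * J
  f1 : ∀ l < k, ((γ l + q + (X + mm) : ℕ) : ℝ) ≤ P l * J + W
  d : ∀ l < k, ((γ l + q : ℕ) : ℝ) - nnP k sn w u y φ l * J ≤ 600 * y * J
  nb1 : ∀ l < k, ((γ l + q + X : ℕ) : ℝ) ≤ nfP k sn w xr φ l * J
  nb2 : ∀ l < k, nfP k sn w xr φ l * J ≤ (γ l + q + (X + mm) : ℕ)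
  dj : ∀ l, k ≤ l → l ≤ k + f → ((γ l + q + X : ℕ) : ℝ) - (sn l w + (1 + ξ) * u) * J ≤
    500 * y * J
  jt : ∀ l, k ≤ l → l ≤ k + f → ((γ l + q : ℕ) : ℝ) - (sn l w + u) * J ≤ 500 * y * J
  k9 : ∀ l < k, ((γ l + q + (X + mm) : ℕ) : ℝ) ≤ (sn l w + 3 * u) * J
  r1 : ∀ l, k ≤ l → l ≤ k + f → (sn l w + u + 500 * y - 2 * φ) * J ≤ (γ l + q : ℕ)
  r2 : ∀ l, k ≤ l → l ≤ k + f → ((γ l + q + X : ℕ) : ℝ) ≤
    (sn l w + u + 500 * y + ξ * u) * J

/-- **The conditions from the numbers.** -/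
theorem nto_of {k f : ℕ} {s : ℝ} {sn : ℕ → ℝ → ℝ} {G : Set ℝ} {b o φ w u y ξ T Λ C κ e : ℝ}
    {lam : ℝ → ℝ} {j x x' xr xq w₁ vq oq : ℝ} {xa : ℕ → ℝ} {J : ℕ} {γ : ℕ → ℕ} {q X mm W : ℕ}
    {P : ℕ → ℝ}
    (N : NP k f s sn G b o φ w u y ξ T Λ C κ e lam j x x' xr xq w₁ vq oq xa)
    (M : NTJ k f sn φ w u y ξ J γ q X mm W)
    (hP : ∀ l < k, sn l w - w + (T + 1) * u ≤ P l) :
    NTO k f sn lam P s φ w u y ξ e j x' xr xq oq J γ q X mm W := by
  obtain ⟨a1, a2, a3, a4, a5, a6, a7, a8, a9, a10, a11, a12, a13, a14, a15⟩ := N.wins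
  obtain ⟨b1, b2, b3, b4, b5, b6, b7, b8, b9, b10, b11, b12, b13, b14, b15, b16, b17⟩ := N.wb
  obtain ⟨h1, h2, h3, h4, h5, h6, h7, h8, h9, h10⟩ := N.sm
  obtain ⟨c1, c2, c3, c4, c5, c6, c7, c8, c9, c10, c11, c12⟩ := N.sw
  obtain ⟨d1, d2⟩ := N.ξu
  obtain ⟨o1, o2⟩ := N.lmo
  obtain ⟨n1, n2, n3, n4, n5, n6, n7, n8⟩ := N.nb_c
  have hx := abs_le.1 N.hx
  have hx' := abs_le.1 N.hx'
  have hxr := abs_le.1 N.hxr
  have hu := N.u0
  have hyu := N.yu
  have hyξ := N.yξ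
  have hr := N.room
  have hT := N.Tu0
  have hru := N.ru0
  have hwo := N.wo
  have ho1 := N.o1
  have hy0 := N.y0
  have hJ : (0 : ℝ) ≤ J := Nat.cast_nonneg J
  have big := M.big
  have q1 := M.q1
  have q2 := M.q2
  have X1 := M.X1
  have X2 := M.X2
  have m1 := M.mm1
  have m2 := M.mm2
  have W1 := M.W1
  have W2 := M.W2
  have g1 := M.g1
  have g2 := M.g2
  have hX0 : (0 : ℝ) ≤ X := Nat.cast_nonneg X
  have hm0 : (0 : ℝ) ≤ mm := Nat.cast_nonneg mm
  -- products with `J`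
  have mj : ∀ {a a' : ℝ}, a ≤ a' → a * J ≤ a' * J := fun h => mul_le_mul_of_nonneg_right h hJ
  refine ⟨?_, fun l hl => ?_, fun l hl => ?_, fun l hl => ?_, fun l h11 h12 => ?_,
    fun l h11 h12 => ?_, ?_, ?_, fun l h11 h12 => ?_, fun l h11 h12 => ?_, fun l hl => ?_,
    fun l hl => ?_, fun l hl => ?_, fun l hl => ?_, fun l hl => ?_, fun l h11 h12 => ?_,
    fun l h11 h12 => ?_, fun l hl => ?_, fun l h11 h12 => ?_, fun l h11 h12 => ?_⟩
  · have e1 := mj (show w + 2 * φ + ξ * u ≤ 1 by linarith)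
    have e2 : ((W + X : ℕ) : ℝ) ≤ J := by
      push_cast
      linarith
    exact_mod_cast e2
  · obtain ⟨i1, i2, i3⟩ := N.li hl
    have e1 := g1 l (by omega)
    have e2 := mj (show nnP k sn w u y φ l + φ ≤ sn l w - φ + (u + 500 * y) by
      unfold nnP
      linarith)
    push_cast
    linarith
  · have e1 := g1 l (by omega)
    have e2 := mj (show sn l w + u + 400 * ((k : ℝ) + 2) * φ + φ ≤
        sn l w - φ + (u + 500 * y) by linarith)
    push_cast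
    linarith
  · have e1 := g1 l (by omega)
    have e2 := mj (show sn l w + u + 400 * ((k : ℝ) + 2) * φ - w + (w + 2 * φ) + φ ≤
        sn l w - φ + (u + 500 * y) by linarith)
    push_cast
    linarith
  · have jt := N.stv h11 h12 N.jG b4 b5
    have e1 := g1 l (by omega)
    have e2 := mj (show sn l j - 60 * φ + φ ≤ sn l w - φ + (u + 500 * y) by linarith)
    push_cast
    linarith
  · have jt := N.stv h11 h12 N.jG b4 b5
    have e1 := g2 l (by omega)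
    have e2 := mj (show sn l w + (u + 500 * y) ≤ sn l j - 60 * φ + 600 * y by linarith)
    push_cast
    linarith
  · have e1 := g2 (k + f) le_rfl
    have e2 := mj (show sn (k + f) w + (u + 500 * y) + ξ * u ≤ lam oq by linarith)
    push_cast
    linarith
  · have e1 := g1 (k + f) le_rfl
    have e2 := mj (show lam oq + 2 * φ ≤ sn (k + f) w - φ + (u + 500 * y) + ξ * u + 600 * y by
      linarith)
    push_cast
    linarith
  · obtain ⟨p1, p2⟩ := N.lmq h11 h12.le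
    have e1 := g2 l (by omega)
    have e2 := mj (show sn l w + (u + 500 * y) + ξ * u ≤ sn l xq - e by linarith)
    push_cast
    linarith
  · obtain ⟨p1, p2⟩ := N.lmq h11 h12.le
    have e1 := g1 l (by omega)
    have e2 := mj (show sn l xq - e + 2 * φ ≤ sn l w - φ + (u + 500 * y) + ξ * u + 600 * y by
      linarith)
    push_cast
    linarith
  · obtain ⟨i1, i2, i3⟩ := N.li hl
    have e1 := g2 l (by omega)
    have e2 := mj (show sn l w + (u + 500 * y) + ξ * u + u / 2 ≤ nfP k sn w x' φ l by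
      unfold nfP
      linarith)
    push_cast
    linarith
  · obtain ⟨i1, i2, i3⟩ := N.li hl
    have e1 := g2 l (by omega)
    have e2 := mj (show sn l w + (u + 500 * y) + ξ * u + u / 2 + φ ≤ P l + w by
      have := hP l hl
      linarith)
    push_cast
    linarith
  · obtain ⟨i1, i2, i3⟩ := N.li hl
    have e1 := g2 l (by omega)
    have e2 := mj (show sn l w + (u + 500 * y) ≤ nnP k sn w u y φ l + 600 * y by
      unfold nnP
      linarith)
    push_cast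
    linarith
  · have e1 := g2 l (by omega)
    have e2 := mj (show sn l w + (u + 500 * y) + ξ * u ≤ nfP k sn w xr φ l by
      have := n7 l hl
      linarith)
    push_cast
    linarith
  · have e1 := g1 l (by omega)
    have e2 := mj (show nfP k sn w xr φ l ≤ sn l w - φ + (u + 500 * y) + ξ * u + 1000 * y by
      have := n8 l hl
      linarith)
    push_cast
    linarith
  · have e1 := g2 l (by omega)
    have e2 := mj (show sn l w + (u + 500 * y) + ξ * u ≤ sn l w + (1 + ξ) * u + 500 * y by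
      linarith)
    push_cast
    linarith
  · have e1 := g2 l (by omega)
    push_cast
    linarith
  · have e1 := g2 l (by omega)
    have e2 := mj (show sn l w + (u + 500 * y) + ξ * u + u / 2 ≤ sn l w + 3 * u by linarith)
    push_cast
    linarith
  · have e1 := g1 l (by omega)
    have e2 := mj (show sn l w + u + 500 * y - 2 * φ + φ ≤ sn l w - φ + (u + 500 * y) by
      linarith)
    push_cast
    linarith
  · have e1 := g2 l (by omega)
    have e2 := mj (show sn l w + (u + 500 * y) + ξ * u ≤ sn l w + u + 500 * y + ξ * u by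
      linarith)
    push_cast
    linarith

end Pool.V0T
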