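import Pool.Agent.H44.V0P.Num3

/-!
# The numbers of the class theorems for several targets: the windows exist

`np_ex`.
-/

set_option autoImplicit false

namespace Pool.V0T

open Finset Real MvPolynomial
open Pool.Agent.H49.Ent Pool.Agent.H32.Dense Pool.STK Pool.KA Pool.KSAT Pool.K2S Pool.PB Pool.GEN
open Pool.S6C Pool.RCD Pool.LA91 Pool.AVG96 Pool.V0F Pool.V0Q

/-- **The windows exist.** -/
theorem np_ex {k f : ℕ} {s T Λ C κ e : ℝ} {sn : ℕ → ℝ → ℝ} {G : Set ℝ} {b o φ : ℝ}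
    (hk : 1 ≤ k) (hs : 1 < s) (hT : 60 ≤ T) (hΛ : 4 * T + 4 * k + 40 ≤ Λ) (hC : 0 ≤ C)
    (hκ0 : 0 < κ) (hκ1 : κ ≤ 1) (hφ : 0 < φ)
    (gap : ∀ x, b ≤ x → x ≤ o → ∃ v ∈ G, |v - x| ≤ φ) (hbG : b ∈ G) (hoG : o ∈ G)
    (fl : ∀ i < k, ∀ v ∈ G, b ≤ v → v ≤ o → |(sn i v - v) - (sn i o - o)| ≤ φ)
    {w u y ξ : ℝ} {lam : ℝ → ℝ} (hy : y = ((k : ℝ) + 3 + s + C) * φ) (hξ : s * ξ = s - 1)
    (yu : 4000 * y ≤ u) (ys : 4000 * (s * y) ≤ u) (yξ : 4000 * y ≤ ξ * u)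
    (yd : 4000 * y ≤ (s - 1 - ξ) * u) (yκ : 4000 * y ≤ κ * (ξ * u)) (he : (s + 70) * φ ≤ e)
    (heC : e ≤ C * φ) (hu : 0 < u) (hw : w ∈ G) (bw : b + Λ * u ≤ w) (wo : w + Λ * u ≤ o)
    (o1 : o + Λ * u ≤ 1) (b0 : Λ * u ≤ b)
    (hlb : ∀ l ≤ k + f, Λ * u ≤ sn l b ∧ sn l o + Λ * u ≤ 1)
    (st : ∀ l, k ≤ l → l ≤ k + f → ∀ v ∈ G, b ≤ v → v ≤ o →
      |sn l v - sn l w - s * (v - w)| ≤ φ)
    (sv : ∀ v : ℝ, b ≤ v → v ≤ o → |lam v - sn (k + f) w - s * (v - w)| ≤ φ) {j x : ℝ}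
    (jG : j ∈ G) (xG : x ∈ G) (hj : |j - (w + u / s)| ≤ φ) (hx : |x - (w + u)| ≤ φ) :
    ∃ (x' xr xq : ℝ) (w₁ vq oq : ℚ) (xa : ℕ → ℝ),
      NP k f s sn G b o φ w u y ξ T Λ C κ e lam j x x' xr xq w₁ vq oq xa := by
  have hk1 : (1 : ℝ) ≤ k := by exact_mod_cast hk
  have hΛu : (4 * T + 4 * k + 40) * u ≤ Λ * u := mul_le_mul_of_nonneg_right hΛ hu.le
  have hTu : 60 * u ≤ T * u := mul_le_mul_of_nonneg_right hT hu.le
  have hku : 0 ≤ (k : ℝ) * u := by positivity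
  have hCφ : 0 ≤ C * φ := mul_nonneg hC hφ.le
  have hy0 : φ ≤ y := by
    rw [hy]
    have : 0 ≤ (k : ℝ) * φ := by positivity
    have : 0 ≤ s * φ := by positivity
    linarith
  have hs0 : 0 < s := by linarith
  have hξ0 : 0 < ξ := by
    by_contra h
    push Not at h
    nlinarith
  have hξ1 : ξ < 1 := by
    by_contra h
    push Not at h
    nlinarith
  have hξu : 0 ≤ ξ * u ∧ ξ * u ≤ u := ⟨by positivity, by nlinarith⟩
  have hwo : w ≤ o := by linarith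
  have hbw : b ≤ w := by linarith
  have dv : ∀ t : ℝ, 0 ≤ t → 0 ≤ t / s ∧ t / s ≤ t := fun t ht =>
    ⟨by positivity, div_le_self ht hs.le⟩
  obtain ⟨x', hx', hx''⟩ := gap (w + T * u) (by linarith) (by linarith)
  obtain ⟨xr, hxr, hxr'⟩ := gap (w + (1 + ξ) * u + 600 * y) (by linarith) (by linarith)
  obtain ⟨xq, hxq, hxq'⟩ := gap (w + ((1 + ξ) * u + 520 * y) / s) (by
    have := dv ((1 + ξ) * u + 520 * y) (by linarith)
    linarith [this.1]) (by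
    have := dv ((1 + ξ) * u + 520 * y) (by linarith)
    linarith [this.2])
  have hxa : ∀ a : ℕ, ∃ v : ℝ, (a : ℝ) * κ ≤ 1 →
      v ∈ G ∧ |v - (w + (u + 520 * y + a * κ * (ξ * u)) / s)| ≤ φ := by
    intro a
    by_cases ha : (a : ℝ) * κ ≤ 1
    · have h1 : 0 ≤ (a : ℝ) * κ * (ξ * u) :=
        mul_nonneg (mul_nonneg (Nat.cast_nonneg a) hκ0.le) hξu.1
      have h2 : (a : ℝ) * κ * (ξ * u) ≤ 1 * (ξ * u) := mul_le_mul_of_nonneg_right ha hξu.1
      have h3 := dv (u + 520 * y + a * κ * (ξ * u)) (by linarith)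
      obtain ⟨v, hv, hv'⟩ := gap (w + (u + 520 * y + a * κ * (ξ * u)) / s) (by
        linarith [h3.1]) (by linarith [h3.2])
      exact ⟨v, fun _ => ⟨hv, hv'⟩⟩
    · exact ⟨0, fun h => absurd h ha⟩
  choose xa hxa using hxa
  obtain ⟨w₁, h1, h2⟩ := exists_rat_btwn (show w < w + φ by linarith)
  obtain ⟨vq, h3, h4⟩ := exists_rat_btwn (show j < j + φ by linarith)
  obtain ⟨oq, h5, h6⟩ := exists_rat_btwn (show w + ((1 + ξ) * u + 505 * y) / s <
    w + ((1 + ξ) * u + 505 * y) / s + φ by linarith)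
  refine ⟨x', xr, xq, w₁, vq, oq, xa,
    { k1 := hk
      s1 := hs
      φ0 := hφ
      u0 := hu
      C0 := hC
      κ0 := hκ0
      κ1 := hκ1
      hy := hy
      hξ := hξ
      yu := yu
      ys := ys
      yξ := yξ
      yd := yd
      yκ := yκ
      he := he
      heC := heC
      hT := hT
      TΛ := hΛ
      bw := bw
      wo := wo
      o1 := o1
      b0 := b0
      lb := fun l hl => (hlb l hl).1
      lo := fun l hl => (hlb l hl).2
      sl := fun i hi v hv h1 h2 => ?_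
      st := st
      sv := sv
      bG := hbG
      oG := hoG
      wG := hw
      jG := jG
      xG := xG
      xG' := hx'
      rG := hxr
      qG := hxq
      aG := fun a ha => (hxa a ha).1
      hj := hj
      hx := hx
      hx' := hx''
      hxr := hxr'
      hxq := hxq'
      hxa := fun a ha => (hxa a ha).2
      hw1 := h1.le
      hw2 := h2.le
      hq1 := h3.le
      hq2 := h4.le
      ho1 := h5.le
      ho2 := h6.le }⟩
  have e1 := abs_le.1 (fl i hi v hv h1 h2)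
  have e2 := abs_le.1 (fl i hi w hw hbw hwo)
  rw [abs_le]
  constructor <;> linarith

end Pool.V0T
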