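import Pool.Agent.H48.V0T.S2
import Pool.Agent.H44.V0P.Num3

/-!
# Parts of the class theorem for several targets: statements

`GrdTStmt`: the gradients of the targets on one event; `RowTStmt`: the rows on parts of the event;
`VlTStmt`: the mutual informations over the canonical records.
-/

set_option autoImplicit false

namespace Pool.V0T

open Finset Real MvPolynomial
open Pool.Agent.H49.Ent Pool.Agent.H32.Dense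
open Pool.STK hiding pr2
open Pool.KA Pool.KSAT Pool.K2S Pool.PB Pool.S6C
open Pool.GEN Pool.CHT Pool.CHX Pool.ISO Pool.LA91 Pool.AVG71 Pool.AVG5 Pool.D2F2 Pool.AVG57
open Pool.RCD Pool.AVG96 Pool.OWN68 Pool.V0F Pool.V0Q
open Pool.AJW (CfB)
open Pool.D2R (WinB gnh hgt hyb chs)
open Pool.LV64 (GrdV NrH)

/-- The charts of the first windows and the frame. -/
noncomputable def chT {m J : ℕ} (F : Fam m J) (k f n : ℕ)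
    (G : ℕ → PtT F → ℕ → MvPolynomial (Option (Fin m)) ℝ)
    (GN : PtT F → ℕ → MvPolynomial (Option (Fin m)) ℝ) (kb : ℕ) (fn : ℕ → ℕ) (ω : F.Ω) :
    (Fin (n + 1) → Fin (k + f + 1) → MvPolynomial (Option (Fin m)) ℝ) ×
      (Fin (k + f + 1) → MvPolynomial (Option (Fin m)) ℝ) :=
  (chs F (k + f) n (fun t => G (fn t)) ω, fun l => frT G GN kb k (ptr F J ω) l)

/-- The digits of the heights of the targets. -/
noncomputable def thT {m J : ℕ} (F : Fam m J) (c : ℕ → Fin m) (k f w : ℕ)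
    (H : LnT F → ℕ → MvPolynomial (Option (Fin m)) ℝ) (N : ℕ → ℝ) (ω : F.Ω) (v : Fin (f + 1)) :
    ℤ := th0 F c (k + v) w H (N v) ω

/-- **The gradients of the targets on one event.** -/
def GrdTStmt (f : ℕ) : Prop := ∀ D D' k : ℕ, 1 ≤ k → ∃ Cg : ℕ, 1 ≤ Cg ∧
  ∀ {s : ℝ} {sn : ℕ → ℝ → ℝ} {Gs : Set ℝ} {b o φ w u y ξ T Λ C κ₀ e : ℝ} {lam : ℝ → ℝ}
    {x' xr xq w₁ vq oq : ℝ} {xa : ℕ → ℝ} {m J : ℕ} {F : Fam m J}
    {c : ℕ → Fin m} {Dr N M : ℕ} {C₀ a Eb ηm E : ℝ} {ow η σ : ℕ → ℝ} {lv bb : ℕ → ℕ → ℝ} {κ : ℝ}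
    {z : ℕ → ℕ → ℕ} {A : F.Ω → Prop} {g₀ : ℕ → ℕ → ℕ}
    {G : ℕ → PtT F → ℕ → MvPolynomial (Option (Fin m)) ℝ}
    {H : ℕ → LnT F → ℕ → MvPolynomial (Option (Fin m)) ℝ} {fb fn : ℕ → ℕ} {nb n ks : ℕ}
    {GN : PtT F → ℕ → MvPolynomial (Option (Fin m)) ℝ}
    {HN : LnT F → ℕ → MvPolynomial (Option (Fin m)) ℝ},
    WinB F c (k + f) D Dr N M C₀ a Eb ηm ow η σ lv bb κ z A g₀ G H →
    NP k f s sn Gs b o φ w u y ξ T Λ C κ₀ e lam (ow (fn ks)) (ow (fn n)) x' xr xq w₁ vq oq xa →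
    Set.InjOn c (Set.Iio (k + f + 1)) → 1 ≤ n → ks ≤ n → (∀ t ≤ nb, fb t ≤ N) →
    (∀ t ≤ n, fn t ≤ N) → fn 0 = fb nb → ow (fb 0) = b → ow (fn 0) = w →
    (∀ t ≤ nb, ow (fb t) ∈ Gs) → (∀ t ≤ n, ow (fn t) ∈ Gs) →
    (∀ t < nb, ow (fb t) ≤ ow (fb (t + 1)) ∧ ow (fb (t + 1)) ≤ ow (fb t) + φ) →
    (∀ t < n, ow (fn t) ≤ ow (fn (t + 1)) ∧ ow (fn (t + 1)) ≤ ow (fn t) + φ) →
    (∀ t ≤ N, ∀ l ≤ k + f, lv t l = sn l (ow t)) → C₀ * ηm ≤ φ →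
    (∀ t < nb, ∃ j ≤ M, z (fb t) j = ⌊ow (fb (t + 1)) * J⌋₊ - ⌊ow (fb t) * J⌋₊) →
    (∀ t < n, ∃ j ≤ M, z (fn t) j = ⌊ow (fn (t + 1)) * J⌋₊ - ⌊ow (fn t) * J⌋₊) →
    10 ≤ φ * J → (nb : ℝ) ≤ φ * J → (n : ℝ) ≤ φ * J →
    LbT F c k f D' w u φ E sn A (g₀ (fn 0)) (G (fn 0)) GN HN →
    GrdV F c (fun j : Fin k => (j : ℕ)) (fun v : Fin (f + 1) => k + (v : ℕ))
      (fun _ => ⌊(u + 500 * y) * J⌋₊) (fun _ => ⌊ξ * u * J⌋₊) ⌊(u + 500 * y) * J⌋₊ ⌊ξ * u * J⌋₊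
      (g₀ (fn 0)) (2 ^ (Cg * (⌈1000 * y * J⌉₊ + 3))) A (frT G GN (fb 0) k)
      (fun ω v j => ggT F c k G GN (fb 0) (fn n) (g₀ (fn 0)) (k + v) ω j) (fun _ => ())
      (chT F k f ks G GN (fb 0) fn) (chT F k f n G GN (fb 0) fn) ∧
    ∀ ω, A ω → ∀ l, k ≤ l → l ≤ k + f → ∀ i < l,
      |ggT F c k G GN (fb 0) (fn n) (g₀ (fn 0)) l ω i| ≤ 2 ^ (Cg * (⌈1000 * y * J⌉₊ + 3))

/-- **The rows** of the targets on parts of the event, blocks from the natural digits. The far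
digits of the targets in `Dd` are in the condition. -/
def RowTStmt (f : ℕ) : Prop := ∀ k : ℕ, ∃ Cr : ℝ, 1 ≤ Cr ∧
  ∀ {m : ℕ} {S : PCl m} {c : ℕ → Fin m} {D : ℕ} {sn : ℕ → ℝ → ℝ} {G : Set ℝ} {b o φ : ℝ},
    LadT S c k f sn G b o φ → (range (k + f)).image c = univ.erase (c (k + f)) →
    ∀ {s w u y ξ T Λ C κ e : ℝ} {lam : ℝ → ℝ} {j x x' xr xq w₁ vq oq : ℝ} {xa : ℕ → ℝ},
    NP k f s sn G b o φ w u y ξ T Λ C κ e lam j x x' xr xq w₁ vq oq xa → Cr ≤ C →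
    ∀ {h : ℝ}, (∀ P₁ P₂ : ℝ, |P₁ - sn (k + f) w| ≤ Λ * u → |P₂ - sn (k + f) w| ≤ Λ * u →
      P₁ ≤ P₂ → RawN S (univ.erase (c (k + f))) (c (k + f)) P₁ (P₂ - P₁) h φ) →
    (∃ rk E : ℝ, rk < 1 ∧ 0 ≤ E ∧
      AttG S ((range (k + f)).image c) (c (k + f)) w (sn (k + f) w) rk E ∧
      sn (k + f) w + E + Λ * u ≤ 1) →
    (∃ η : ℝ, RNum S (fun J F => ptr F J) (vg w₁) η) →
    ∀ π₀ : ℝ, 0 < π₀ → ∀ ε : ℝ, 0 < ε → ∀ Ec : ℝ,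
    Bas S (fun J F A => ∀ Hb H : LnT F → ℕ → MvPolynomial (Option (Fin m)) ℝ,
      LDP F c k f D b w φ Ec sn A Hb H → ∀ a : ℕ, (a : ℝ) * κ ≤ 1 → ∀ Dd : Finset ℕ, f ∉ Dd →
      ∀ B : F.Ω → Prop, Sub B A → π₀ * Pe F.p A ≤ Pe F.p B →
      CH (Pool.Agent.H49.Ent.cond F.p B True)
        (thT F c k f ⌊w * J⌋₊ H (fun v => if v = f then
          sn (k + f) w + u + 500 * y + a * κ * (ξ * u) else sn (k + v) (xa a) - Cr * φ))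
        (fun ω => (thT F c k f ⌊w * J⌋₊ H (fun v => if v ∈ Dd then sn (k + v) (xa a) - Cr * φ else
            sn (k + v) w + u + 500 * y - 2 * φ) ω,
          (jh F c k ⌊w * J⌋₊ H (nfP k sn w xr φ) ω, (cR F A w₁ ω, F.W ω)))) ≤
        (((1 - h) * (a * κ * (ξ * u) + 2 * φ) +
            ((range f \ Dd).card : ℝ) * (a * κ * (ξ * u) + 22 * y)) * Real.log 2 + φ +
          8 * ((f : ℝ) + 1) * Cr * φ + ε) * J)

/-- **The mutual informations** over the canonical records; `e = Cn φ`. -/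
def VlTStmt (f : ℕ) : Prop := ∀ k : ℕ, ∃ Cn : ℝ, 1 ≤ Cn ∧
  ∀ {m : ℕ} {S : PCl m} {c : ℕ → Fin m} {D : ℕ} {sn sp : ℕ → ℝ → ℝ} {Gs : Set ℝ} {b o φ : ℝ},
    LadT S c k f sn Gs b o φ → (range (k + f)).image c = univ.erase (c (k + f)) →
    ∀ {s w u y ξ T Λ C κ₀ Cn' : ℝ} {lam : ℝ → ℝ} {j x x' xr xq w₁ vq oq : ℝ} {xa : ℕ → ℝ},
    NP k f s sn Gs b o φ w u y ξ T Λ C κ₀ (Cn' * φ) lam j x x' xr xq w₁ vq oq xa → Cn ≤ Cn' →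
    Cn ≤ C →
    (∃ rk E : ℝ, rk < 1 ∧ 0 ≤ E ∧
      AttG S ((range (k + f)).image c) (c (k + f)) w (sn (k + f) w) rk E ∧
      sn (k + f) w + E + Λ * u ≤ 1) → ∀ {P : ℕ → ℝ} {κf κn : ℝ},
    FrI S c k sp b (fun i : Fin k => P i) w₁ x' κf →
    NlI S (c (k + f)) w₁ vq (lam vq) (lam oq) κn → 0 ≤ κf → 0 ≤ κn →
    (∀ i < k, sp i b ≤ sn i b - φ) → ∀ {ε : ℝ}, 0 < ε → ∀ Ec : ℝ,
    Bas S (fun J F A => ∀ Hb H : LnT F → ℕ → MvPolynomial (Option (Fin m)) ℝ,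
      LDP F c k f D b w φ Ec sn A Hb H → ∀ Na Nf : ℕ → ℕ → ℝ,
      (∀ l, Na l 0 = nnP k sn w u y φ l) → (∀ l, Nf l 0 = nfP k sn w x' φ l) →
      (∀ l < k, Na l 1 * J ≤ P l * J) → (∀ l, Nf l 1 = P l) →
      ∀ κ' : ℝ, (k * (40 * y) + 10 * y + 20 * (k : ℝ) ^ 2 * φ + κf + κn +
        8 * ((f : ℝ) + 1) * Cn' * φ + ε) * J + k * Real.log 5 ≤ κ' →
      VLaw2 (Pool.Agent.H49.Ent.cond F.p A True) (cR F A w₁) (cR F A j) (cR F A x) (cR F A x') F.W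
        (jh F c k ⌊w * J⌋₊ H fun l => Na l 0) (jh F c k ⌊w * J⌋₊ H fun l => Nf l 0)
        (jv F c k ⌊w * J⌋₊ H fun l => Na l 1) (jv F c k ⌊w * J⌋₊ H fun l => Nf l 1)
        (thT F c k f ⌊w * J⌋₊ H (fun v => sn (k + v) j - 60 * φ))
        (thT F c k f ⌊w * J⌋₊ H (fun v => if v = f then lam oq else sn (k + v) xq - Cn' * φ))
        (fun ω => fun l : Fin k => F.X J ω (c l))
        ((∑ i ∈ range k, (nfP k sn w x' φ i - nnP k sn w u y φ i)) * Real.log 2 * J)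
        ((∑ i ∈ range k, (1 - nfP k sn w x' φ i)) * Real.log 2 * J) κ' ∧
      CH (Pool.Agent.H49.Ent.cond F.p A True)
        (jh F c k ⌊w * J⌋₊ H (nfP k sn w xr φ)) (fun ω => (cR F A x' ω, F.W ω)) ≤ κ' ∧
      ∀ X : ℕ, (X : ℝ) ≤ ξ * u * J → k * (X * Real.log 2) - κ' ≤
        CH (Pool.Agent.H49.Ent.cond F.p A True) (jh F c k ⌊w * J⌋₊ H (nfP k sn w xr φ))
          (fun ω => (jh F c k ⌊w * J⌋₊ H (fun l => Na l 0) ω, (cR F A x ω, F.W ω))))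

end Pool.V0T
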