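import Pool.Agent.H48.V0T.V0cT
import Pool.Agent.H62.V0T.Vl1
import Pool.Agent.H63.V0T.Grd
import Pool.Agent.H64.GF.Gfr
import Pool.Agent.H91.V0T.Rowt

/-!
# Several targets of one slope over slope-one places: the class theorem

`v0cT`: the class theorem for `f + 1` targets, pivot at the last place, from the law `V0tFinF` and
from the fullness `FulTStmt`.
-/

set_option autoImplicit false

namespace Pool.V0T

/-- **(V0CG)**, pivot at the last place. -/
theorem v0cT {f : ℕ} (hF : V0tFinF f) (hful : FulTStmt f) :
    Pool.T4C72.V0cGStmt f f (fun i => (i : ℕ)) (fun _ : Fin 1 => f) :=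
  v0cT_of hF hful (grdT_of (fun D D' r => Pool.GF64.gfr D D' r) f) (rowt_fam f) (vlT f)

end Pool.V0T
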