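import Pool.Agent.H25.V0P.FinF
import Pool.Agent.H48.V0T.V0cTF
import Pool.Agent.H91.V0T.Fut
import Pool.Agent.H97.VF.Fin

/-!
# The class theorem for one, two and three targets of one slope

`v0cG_one`, `v0cG_two`, `v0cG_three`: the class theorem with the pivot at the last place, without
hypotheses.
-/

set_option autoImplicit false

namespace Pool.V0T

/-- One target. -/
theorem v0cG_one : Pool.T4C72.V0cGStmt 0 0 (fun i => (i : ℕ)) (fun _ : Fin 1 => 0) :=
  v0cT Pool.V0P.v0tFinF0 (fulT 0)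

/-- Two targets. -/
theorem v0cG_two : Pool.T4C72.V0cGStmt 1 1 (fun i => (i : ℕ)) (fun _ : Fin 1 => 1) :=
  v0cT Pool.V0P.v0tFinF1 (fulT 1)

/-- **Three targets.** -/
theorem v0cG_three : Pool.T4C72.V0cGStmt 2 2 (fun i => (i : ℕ)) (fun _ : Fin 1 => 2) :=
  v0cT Pool.V0P.v0tFinF2 (fulT 2)

end Pool.V0T
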