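import Pool.Agent.H48.V0T.Evt
import Pool.Agent.H48.V0T.Nct2
import Pool.Agent.H48.V0T.Nev
import Pool.Agent.H48.V0T.Par2
import Pool.Agent.H44.V0P.Num5
import Pool.Agent.H5.V0T.Cel
import Pool.Agent.H72.T4C.V0cN

/-!
# Several targets of one slope over slope-one places: the class theorem

`v0cT_of`: the class theorem for `f + 1` targets with the pivot at the last place, from its parts.
-/

set_option autoImplicit false

namespace Pool.V0T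

open Finset Real MvPolynomial
open Pool.Agent.H49.Ent Pool.Agent.H32.Dense
open Pool.STK hiding pr2
open Pool.KA Pool.KSAT Pool.K2S Pool.PB Pool.S6C
open Pool.GEN Pool.CHT Pool.CHX Pool.ISO Pool.LA91 Pool.AVG71 Pool.AVG5 Pool.D2F2 Pool.AVG57
open Pool.RCD Pool.AVG96 Pool.OWN68 Pool.V0F Pool.V0Q
open Pool.PB.Trl (rt rt_mem t_rt)
open Pool.AJW (CfB)
open Pool.D2R (WinB gnh hgt hyb chs)
open Pool.LV64 (GrdV NrH Mm)
open Pool.KAF (rs Pr)
open Pool.V0P (jp)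
open Pool.T4C72 (V0cGStmt)

/-- **The class theorem**, pivot at the last place, from its parts. -/
theorem v0cT_of {f : ℕ} (hF : V0tFinF f) (hful : FulTStmt f) (hgrd : GrdTStmt f)
    (hrow : RowTStmt f) (hvl : VlTStmt f) :
    V0cGStmt f f (fun i => (i : ℕ)) (fun _ : Fin 1 => f) := by
  intro D D' k s h θq hD hDD hk1 hs hh hh1 hθq
  have hl2 : 0 < Real.log 2 := Real.log_pos one_lt_two
  have hl5 : 0 < Real.log 5 := Real.log_pos (by norm_num)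
  have hr1 : (1 : ℝ) ≤ k := by exact_mod_cast hk1
  have hf0 : (0 : ℝ) ≤ f := Nat.cast_nonneg f
  have hs0 : 0 < s := one_pos.trans hs
  obtain ⟨ξ, hξe⟩ : ∃ ξ : ℝ, ξ = (s - 1) / s := ⟨_, rfl⟩
  have hξ : s * ξ = s - 1 := by
    rw [hξe]
    exact mul_div_cancel₀ _ hs0.ne'
  have hξ0 : 0 < ξ := by
    rw [hξe]
    exact div_pos (by linarith only [hs]) hs0
  have hξ1 : ξ < 1 := by
    rw [hξe, div_lt_one hs0]
    linarith only []
  have hs3 : 0 < s - 1 - ξ := by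
    have : 0 < (s - 1) * ξ := mul_pos (by linarith only [hs]) hξ0
    linarith only [this, hξ]
  obtain ⟨κ₂, ζ₂, q1, q2, q3, q4, κ, π₀, m₀, τ, ε₀, Ca, j₀, X₀, a1, a2, a3, a4, a5, a6, a7, a8,
    HF⟩ := hF k (D' + 1) h (θq / 2) (Nat.succ_le_succ (Nat.zero_le _)) hh hh1 (by positivity)
  obtain ⟨X₁, hX₁⟩ := kap_le a1
  obtain ⟨Cn, hCn, HV⟩ := hvl k
  obtain ⟨Cr, hCr, HR⟩ := hrow k
  obtain ⟨Cf, hCf, HU⟩ := hful k
  obtain ⟨Cg, hCg, HG⟩ := hgrd D D' k hk1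
  obtain ⟨Cc, hCc, HC⟩ := celT f (k + f + 1) D D' k
  refine ⟨m₀, τ * ξ / 8, 60, fun _ => κ₂ * ξ / 2, fun _ => ζ₂ * ξ, a5, by positivity,
    fun l _ => ⟨by positivity, ?_, by positivity, ?_⟩, ?_⟩
  · have : κ₂ * ξ ≤ 1 * 1 := mul_le_mul (by linarith only [q2]) hξ1.le hξ0.le (by norm_num)
    linarith only [this]
  · have : ζ₂ * ξ ≤ θq / 2 * κ₂ * ξ := mul_le_mul_of_nonneg_right q4 hξ0.le
    linarith only [this]
  intro T hT
  obtain ⟨Λ, hΛ⟩ : ∃ Λ : ℝ, Λ = 4 * T + 4 * k + 40 := ⟨_, rfl⟩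
  refine ⟨Λ, by rw [hΛ]; linarith only [hT, hr1], ?_⟩
  intro ι hι
  obtain ⟨δ₁, hδ₁⟩ : ∃ δ₁ : ℝ, δ₁ = min (min (1 / 2) (ξ / 2)) (min ((s - 1 - ξ) / 2)
    (κ * ξ / 2)) := ⟨_, rfl⟩
  have hδ₁0 : 0 < δ₁ := by
    rw [hδ₁]
    positivity
  have f1 : δ₁ ≤ 1 / 2 := by
    rw [hδ₁]
    exact (min_le_left _ _).trans (min_le_left _ _)
  have f2 : δ₁ ≤ ξ / 2 := by
    rw [hδ₁]
    exact (min_le_left _ _).trans (min_le_right _ _)
  have f3 : δ₁ ≤ (s - 1 - ξ) / 2 := by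
    rw [hδ₁]
    exact (min_le_right _ _).trans (min_le_left _ _)
  have f4 : δ₁ ≤ κ * ξ / 2 := by
    rw [hδ₁]
    exact (min_le_right _ _).trans (min_le_right _ _)
  obtain ⟨θ, β, K⟩ := cs_ex (k + f + 1) D' Cg Cc (s := s) (τ := τ) (ξ := ξ) (ι := ι) (δ₁ := δ₁)
    (δ₂ := 1 / (2 * s)) hξ0 hs3 a6 hι hδ₁0 (by positivity)
  have hθ0 := K.θ0
  obtain ⟨Cn', hCn'⟩ : ∃ Cn' : ℝ, Cn' = Cn * (s + 100) := ⟨_, rfl⟩
  have hCns : 0 ≤ Cn' := by
    rw [hCn']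
    positivity
  have hCnn : Cn ≤ Cn' := by
    rw [hCn']
    have h1 : Cn * 1 ≤ Cn * (s + 100) :=
      mul_le_mul_of_nonneg_left (by linarith only [hs0]) (by linarith only [hCn])
    linarith only [h1]
  obtain ⟨C, hC⟩ : ∃ C : ℝ, C = Cn' + Cr + Cf := ⟨_, rfl⟩
  have hC0 : 0 ≤ C := by
    rw [hC]
    linarith only [hCns, hCr, hCf]
  have hrs : (0 : ℝ) < (k : ℝ) + 3 + s + C := by linarith only [hr1, hs0, hC0]
  refine ⟨θ / ((k : ℝ) + 3 + s + C), by positivity, ?_⟩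
  intro m S c sn Gs b o φ L hI w u lam sp hu hw hφ₀ bw wo o1 b0 hlb st sv hraw hatt hspn
    hfr hnl hrn Dr N M C₀ a Eb ηm ow η σ lv bb fb fn nb n ks hn hks hfb hfn hf0 hob how hjx hj hx
    gfb gfn stb stf hlv hCη hEb E
  have hm : m = k + f + 1 := m_eq L.inj hI
  subst hm
  have hφ0 := L.φ0
  obtain ⟨φ₀, hφ₀'⟩ : ∃ φ₀ : ℝ, φ₀ = θ / ((k : ℝ) + 3 + s + C) := ⟨_, rfl⟩
  rw [← hφ₀'] at hφ₀ hfr hnl
  obtain ⟨y, hy⟩ : ∃ y : ℝ, y = ((k : ℝ) + 3 + s + C) * φ := ⟨_, rfl⟩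
  obtain ⟨hφ₀u, hφ₀u0, hyθ, hy0, hφθ, yu, ys, yξ, yd, yκ, hCc2, hCy⟩ :=
    cst_t K hs hC0 f1 f2 f3 f4 hφ₀' hu hφ0 hφ₀ hy
  have hCrC : Cr ≤ C := by
    rw [hC]
    linarith only [hCns, hCf]
  have hCfC : Cf ≤ C := by
    rw [hC]
    linarith only [hCns, hCr]
  have hCnC : Cn' ≤ C := by
    rw [hC]
    linarith only [hCf, hCr]
  have hCrφ : Cr * φ ≤ y := (mul_le_mul_of_nonneg_right hCrC hφ0.le).trans hCy
  have hCfφ : Cf * φ ≤ y := (mul_le_mul_of_nonneg_right hCfC hφ0.le).trans hCy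
  have hCnφ : Cn' * φ ≤ y := (mul_le_mul_of_nonneg_right hCnC hφ0.le).trans hCy
  have he1 : (s + 70) * φ ≤ Cn' * φ := by
    refine mul_le_mul_of_nonneg_right ?_ hφ0.le
    rw [hCn']
    have h1 : 1 * (s + 100) ≤ Cn * (s + 100) :=
      mul_le_mul_of_nonneg_right hCn (by linarith only [hs0])
    linarith only [h1]
  have he2 : Cn' * φ ≤ C * φ := mul_le_mul_of_nonneg_right hCnC hφ0.le
  -- the windows
  obtain ⟨x', xr, xq, w₁, vq, oq, xa, Nn⟩ := np_ex (f := f) hk1 hs hT hΛ.ge hC0 a1 a2 hφ0 L.gap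
    L.bG L.oG L.fl hy hξ yu ys yξ yd yκ he1 he2 hu hw bw wo o1 b0 hlb st sv (gfn ks hks)
    (gfn n le_rfl) hj hx
  obtain ⟨Pq, p1, p3, p4, p5, p6, p7, p8, p9⟩ := pqp_ex Nn
  obtain ⟨b1, b2, b3, b4, b5, b6, b7, b8, b9, b10, b11, b12, b13, b14, b15, b16, b17⟩ := Nn.wb
  obtain ⟨k1, k2, k3, k3', k4⟩ := Nn.k9_c
  have hfr' : FrI S c k sp b (fun i : Fin k => ((Pq i : ℚ) : ℝ)) w₁ x' (φ₀ * u) :=
    hfr (fun i : Fin k => Pq i) w₁ x' Nn.hw1 Nn.hw2 Nn.xG' p5 p6 p3 p4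
  have hnl' : NlI S (c (k + f)) w₁ vq (lam vq) (lam oq) (φ₀ * u) :=
    hnl w₁ vq oq Nn.hw1 (by exact_mod_cast p7) (by exact_mod_cast p8) p9
  obtain ⟨C₁, htm⟩ := L.tm
  have hθu : 0 < θ * u := mul_pos hθ0 hu
  have hw3 : w + 3 * φ ≤ 1 := by
    have e1 := Nn.room
    have e2 := Nn.Tu0
    have e3 := Nn.ru0
    obtain ⟨t1, t2, t3, t4, t5, t6, t7, -⟩ := Nn.sm
    linarith only [e1, e2, e3, t4, t1, t2, t7, yu, wo, o1, hu]
  -- the class facts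
  have B1 := HV (D := D') L hI Nn hCnn (hCnn.trans hCnC) hatt
    (P := fun l => ((Pq l : ℚ) : ℝ)) hfr' hnl' hφ₀u0 hφ₀u0 hspn (ε := θ * u) hθu E
  have B2 := k9_fam htm L.pos c k D' sn (b := b) (w := w) (φ := φ) (u := u) (E := E)
    (ε := θ * u) k1 k2 k3 k4 hθu
  have B3 := HR (D := D') L hI Nn hCrC hraw hatt (hrn w₁ Nn.hw1 Nn.hw2) π₀ a3 (θ * u) hθu E
  have B4 := HU (D := D') L hI Nn hCfC π₀ a3 (θ * u) hθu E
  have B6 := alive_cls htm j₀ (ε₀ := ε₀) (δ := φ / 4) (ψ := θ * u) a7 (by positivity) hθu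
  obtain ⟨J₁, hJ₁⟩ := oj_sm (k + f + 1) D' (E := E)
  obtain ⟨Z, hZ⟩ : ∃ Z : ℝ, Z = 10 + 1 / κ + (1 + Z2 (k + f + 1) D' Ca) +
    (2 + 2 * Real.log 5) + (4 * (Cg : ℝ) + 1) + ((X₀ : ℝ) + 1) + (X₁ + 1) + nb + n + j₀ :=
    ⟨_, rfl⟩
  obtain ⟨J₂, hJ₂⟩ := exists_nat_ge (Z / φ)
  refine Bas.mono (J₁ + J₂ + 1) (((B1.and B2).and (B3.and B4)).and B6) ?_
  rintro J hJ F A ⟨⟨⟨H1, H2⟩, H3, H4⟩, hA, H6⟩ κ₀ z g₀ Gc H GN HN WB zb zf zq cfb hLb hdj hjt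
  clear B1 B2 B3 B4 B6 hraw hatt hfr hnl hfr' hnl' hrn
  have hcl := isLaw_cond F.isLaw hA
  have h0 := hcl.nonneg
  have hJ0 : (0 : ℝ) ≤ J := Nat.cast_nonneg J
  have hJpos : 0 < J := by omega
  have hJp : (0 : ℝ) < J := by exact_mod_cast hJpos
  have hZφ : Z ≤ φ * J := by
    have e1 : (J₂ : ℝ) ≤ J := by
      have : J₂ ≤ J := by omega
      exact_mod_cast this
    have e2 := hJ₂.trans e1
    rw [div_le_iff₀ hφ0] at e2
    linarith only [e2]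
  have mj : ∀ {a a' : ℝ}, a ≤ a' → a * J ≤ a' * J := fun h => mul_le_mul_of_nonneg_right h hJ0
  -- the numbers of the event
  obtain ⟨γ, hγ⟩ : ∃ γ : ℕ → ℕ, γ = g₀ (fn 0) := ⟨_, rfl⟩
  obtain ⟨q, hq⟩ : ∃ q : ℕ, q = ⌊(u + 500 * y) * (J : ℝ)⌋₊ := ⟨_, rfl⟩
  obtain ⟨X, hX⟩ : ∃ X : ℕ, X = ⌊ξ * u * (J : ℝ)⌋₊ := ⟨_, rfl⟩
  obtain ⟨Y, hY⟩ : ∃ Y : ℕ, Y = ⌈1000 * y * (J : ℝ)⌉₊ + 3 := ⟨_, rfl⟩
  obtain ⟨I, hI'⟩ : ∃ I : ℕ, I = ⌈φ / 4 * (J : ℝ)⌉₊ := ⟨_, rfl⟩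
  have hFl : Fl u y ξ φ w w₁ J q X Y I := by
    rw [hq, hX, hY, hI']
    exact fl_ex J hu hy0 hξ0 hφ0 (k1.trans k2) Nn.hw1 Nn.hw2
  have hlvw : ∀ l ≤ k + f, lv (fn 0) l = sn l w := fun l hl => by
    rw [hlv (fn 0) (hfn 0 (Nat.zero_le _)) l hl, how]
  have hηm0 : 0 ≤ ηm := (WB.hη _ (hfn 0 (Nat.zero_le _))).1.trans
    (WB.hη _ (hfn 0 (Nat.zero_le _))).2
  have hηφ : ηm ≤ φ := (le_mul_of_one_le_left hηm0 WB.C1).trans hCη
  have hg1 : ∀ l ≤ k + f, (sn l w - φ) * J ≤ γ l := fun l hl => by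
    obtain ⟨-, -, g1, -⟩ := WB.g_num (hfn 0 (Nat.zero_le _)) hl
    rw [hlvw l hl] at g1
    rw [hγ]
    have := mj hηφ
    linarith only [this, g1]
  have hg2 : ∀ l ≤ k + f, (γ l : ℝ) ≤ sn l w * J := fun l hl => by
    obtain ⟨-, -, -, g2⟩ := WB.g_num (hfn 0 (Nat.zero_le _)) hl
    rw [hlvw l hl] at g2
    rw [hγ]
    exact g2
  have hZ2 := Z2_nonneg (k + f + 1) D' a8
  have hrest : (10 : ℝ) + j₀ ≤ φ * J := by
    have e1 : 0 < 1 / κ := by positivity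
    have e2 : (0 : ℝ) ≤ Cg := Nat.cast_nonneg _
    have e3 : (0 : ℝ) ≤ X₀ := Nat.cast_nonneg _
    have e4 : (0 : ℝ) ≤ X₁ := Nat.cast_nonneg _
    have e5 : (0 : ℝ) ≤ nb := Nat.cast_nonneg _
    have e6 : (0 : ℝ) ≤ n := Nat.cast_nonneg _
    linarith only [hZφ, hZ, e1, e2, e3, e4, e5, e6, hl5, hZ2]
  have hw3J := mj hw3
  obtain ⟨i₀, hi₀, TW⟩ := H6 ⌊(w₁ : ℝ) * J⌋₊ I hFl.i1 (by
    have e1 : ((⌊(w₁ : ℝ) * J⌋₊ + I + j₀ : ℕ) : ℝ) ≤ (J : ℕ) := by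
      push_cast
      have e2 := hFl.w1
      have e3 := hFl.i2
      linarith only [e2, e3, hw3J, hrest]
    exact_mod_cast e1)
  obtain ⟨MJ, hW2, nX0, nX1, nmm, m3, m4, m5, z1, z2, z3, z4, big10⟩ := nj_t (J := J) (q := q)
    (X := X) (Y := Y) (I := I) (sn := sn) (γ := γ) (X₀ := X₀) (X₁ := X₁) (j₀ := j₀)
    (nb := nb) (n := n) (i₀ := i₀) (Z := Z) (κ := κ) (Ca := Ca)
    (w₁ := w₁) K hFl a6 hξ1.le hu a1 hφ0 hyθ hφθ hCg a8 hξ0 hZ hZφ hw3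
    hg1 hg2 hi₀
  clear hZφ
  obtain ⟨W, hW⟩ : ∃ W : ℕ, W = ⌊(w₁ : ℝ) * J⌋₊ + i₀ := ⟨_, rfl⟩
  rw [← hW] at TW MJ hW2
  obtain ⟨mm, hmm⟩ : ∃ mm : ℕ, mm = Cg * Y + 1 := ⟨_, rfl⟩
  rw [← hmm] at MJ nmm
  have hw₁W : ⌊(w₁ : ℝ) * J⌋₊ ≤ W := by omega
  have hwW : ⌊w * J⌋₊ ≤ W := hFl.w2.trans hw₁W
  obtain ⟨P, hP⟩ : ∃ P : ℕ → ℝ, P = fun l => ((Pq l : ℚ) : ℝ) := ⟨_, rfl⟩
  have NOs := Nn.no MJ (P := P) (fun l hl => by
    rw [hP]
    exact p1 l hl)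
  have NTs := nto_of Nn (⟨big10, MJ.g1, MJ.g2, MJ.q1, MJ.q2, MJ.X1, MJ.X2, MJ.mm1, MJ.mm2,
    MJ.W1, MJ.W2⟩ : NTJ k f sn φ w u y ξ J γ q X mm W) (P := P) (fun l hl => by
    rw [hP]
    exact p1 l hl)
  have WJ : W ≤ J := by
    have := NOs.WX
    omega
  -- the labels
  obtain ⟨HN', hHN'⟩ : ∃ HN' : LnT F → ℕ → MvPolynomial (Option (Fin (k + f + 1))) ℝ,
    HN' = fun s l => if l ≤ k + f then HN s l else 0 := ⟨_, rfl⟩
  have hLb' : LbT F c k f D' (ow (fn 0)) u φ E sn A (g₀ (fn 0)) (Gc (fn 0)) GN HN' := by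
    rw [hHN', how]
    exact hLb.tr
  have LDh := ldt_of WB hDD (kb := fb 0) (kw := fn 0) (hfb 0 (Nat.zero_le _))
    (hfn 0 (Nat.zero_le _)) (φ := φ) (E := E) (sn := sn) (by rw [hob, how]; exact b1)
    (by rw [how]; exact k3.le) hCη
    (fun l hl => hlv _ (hfb 0 (Nat.zero_le _)) l hl) (by rw [hob]; exact cfb) hLb'
  rw [hob, how] at LDh
  obtain ⟨H', hH'⟩ : ∃ H' : LnT F → ℕ → MvPolynomial (Option (Fin (k + f + 1))) ℝ,
    H' = fhT H HN' (fb 0) k ⌊b * J⌋₊ ⌊w * J⌋₊ := ⟨_, rfl⟩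
  rw [← hH'] at LDh
  have hH'N : ∀ i : Fin (f + 1), (fun s' => H' s' (k + i)) = fun s' => HN s' (k + i) := by
    intro i
    have hi := i.2
    funext s'
    rw [hH', hHN']
    unfold fhT
    rw [if_neg (by omega)]
    show (if k + (i : ℕ) ≤ k + f then HN s' (k + i) else 0) = _
    rw [if_pos (by omega)]
  have hjet : ∀ nn : ℕ → ℕ → ℝ, jet2 F c ⌊w * J⌋₊ (fhT H HN (fb 0) k ⌊b * J⌋₊ ⌊w * J⌋₊) 0 k nn =
      jet2 F c ⌊w * J⌋₊ H' 0 k nn := fun nn => by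
    rw [hH']
    exact jet2_fh H HN HN' _ _ _ _ nn
  obtain ⟨G₀, hG₀⟩ : ∃ G₀ : PtT F → ℕ → MvPolynomial (Option (Fin (k + f + 1))) ℝ,
    G₀ = frT Gc GN (fb 0) k := ⟨_, rfl⟩
  have hwJ' : ⌊w * (J : ℝ)⌋₊ ≤ J := hwW.trans WJ
  have hcls0 : ∀ ω, A ω → ∀ l ≤ k + f, G₀ (ptr F J ω) l = H' (slam F ⌊w * J⌋₊ ω) l := by
    intro ω hω l hl
    have e1 := frt_cls WB (kb := fb 0) (kw := fn 0) (hfb 0 (Nat.zero_le _))
      (by rw [hob, how]; exact b1) (by rw [how]; exact k3.le) hLb' ω hω l hl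
    rw [hG₀, hH', e1, hob, how]
  obtain ⟨tg, htg⟩ : ∃ tg : Fin (f + 1) → ℕ, tg = fun v : Fin (f + 1) => k + (v : ℕ) := ⟨_, rfl⟩
  have tgv : ∀ v, tg v = k + v := fun v => by rw [htg]
  obtain ⟨gg, hgg⟩ : ∃ gg : F.Ω → Fin (f + 1) → Fin k → ℝ,
    gg = fun ω (v : Fin (f + 1)) (j : Fin k) =>
      ggT F c k Gc GN (fb 0) (fn n) (g₀ (fn 0)) (k + v) ω j := ⟨_, rfl⟩
  have ggv : ∀ ω v (i : Fin k), gg ω v i =
      ggT F c k Gc GN (fb 0) (fn n) (g₀ (fn 0)) (k + v) ω i := by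
    intro ω v i
    rw [hgg]
  obtain ⟨hGrd, hNb⟩ := HG WB Nn L.inj hn hks hfb hfn hf0 hob how gfb gfn stb stf hlv hCη zb zf
    big10 z3 z4 hLb
  rw [← hq, ← hX, ← hγ, ← hY, ← htg, ← hG₀] at hGrd
  rw [← hY] at hNb
  rw [← hγ] at hgg
  rw [← hgg] at hGrd
  -- the records
  have mono := mono_ch fun t ht => (stf t ht).1
  have ho1' : o ≤ 1 := by linarith only [hw3, wo, o1, hu, Nn.room, Nn.Tu0, Nn.ru0]
  have hsup : ∀ ω, 0 < Pool.Agent.H49.Ent.cond F.p A True ω → A ω := fun ω hω => of_cond_pos hω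
  have hchp : ∀ k₁ ≤ n, ow (fn k₁) ≤ 1 →
      Cl2 (ptr F J) (vg (ow (fn k₁)) J F) A (chT F k f k₁ Gc GN (fb 0) fn) := by
    intro k₁ hk₁ ho1
    exact cht_cl2 WB ho1 (hfb 0 (Nat.zero_le _)) (fun t ht => hfn t (ht.trans hk₁))
      (by rw [hob, how]; exact b1) (fun t ht => mono t k₁ ht hk₁) hLb'
  obtain ⟨Nf, hNf⟩ : ∃ Nf : ℕ → ℕ → ℝ, Nf = fun l j' => if j' = 0 then nfP k sn w x' φ l
    else P l := ⟨_, rfl⟩
  obtain ⟨Na, hNa⟩ : ∃ Na : ℕ → ℕ → ℝ, Na = fun l j' => if j' = 0 then nnP k sn w u y φ l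
    else (((γ l + q + (X + mm) : ℕ) : ℝ) - W) / J := ⟨_, rfl⟩
  obtain ⟨Nv, hNv⟩ : ∃ Nv : ℕ → ℕ → ℝ, Nv = fun l j' => if j' = 0 then ((γ l + q : ℕ) : ℝ) / J
    else (((γ l + q + (X + mm) : ℕ) : ℝ) - W) / J := ⟨_, rfl⟩
  obtain ⟨Nu, hNu⟩ : ∃ Nu : ℕ → ℕ → ℝ, Nu = fun (l' j' : ℕ) =>
    sn l' w + u + 400 * ((k : ℝ) + 2) * φ - (j' : ℝ) * w := ⟨_, rfl⟩
  obtain ⟨Mn, hMn⟩ : ∃ Mn : ℕ → ℝ, Mn = fun v => sn (k + v) (ow (fn ks)) - 60 * φ := ⟨_, rfl⟩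
  obtain ⟨Mf, hMf⟩ : ∃ Mf : ℕ → ℝ, Mf = fun v => if v = f then lam oq else
    sn (k + v) xq - Cn' * φ := ⟨_, rfl⟩
  have Nf0 : ∀ l, Nf l 0 = nfP k sn w x' φ l := fun l => by rw [hNf]; rfl
  have Nf1 : ∀ l, Nf l 1 = P l := fun l => by rw [hNf]; rfl
  have Na0 : ∀ l, Na l 0 = nnP k sn w u y φ l := fun l => by rw [hNa]; rfl
  have Na1 : ∀ l, Na l 1 = (((γ l + q + (X + mm) : ℕ) : ℝ) - W) / J := fun l => by
    rw [hNa]; rfl
  have Nv0 : ∀ l, Nv l 0 = ((γ l + q : ℕ) : ℝ) / J := fun l => by rw [hNv]; rfl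
  have Nv1 : ∀ l, Nv l 1 = (((γ l + q + (X + mm) : ℕ) : ℝ) - W) / J := fun l => by
    rw [hNv]; rfl
  have Nu0 : ∀ l, Nu l 0 = sn l w + u + 400 * ((k : ℝ) + 2) * φ := fun l => by
    rw [hNu]
    show sn l w + u + 400 * ((k : ℝ) + 2) * φ - ((0 : ℕ) : ℝ) * w = _
    rw [Nat.cast_zero, zero_mul, sub_zero]
  have Nu1 : ∀ l, Nu l 1 = sn l w + u + 400 * ((k : ℝ) + 2) * φ - w := fun l => by
    rw [hNu]
    show sn l w + u + 400 * ((k : ℝ) + 2) * φ - ((1 : ℕ) : ℝ) * w = _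
    rw [Nat.cast_one, one_mul]
  have Mnv : ∀ v : Fin (f + 1), Mn v = sn (tg v) (ow (fn ks)) - 60 * φ := fun v => by
    rw [hMn, tgv]
  obtain ⟨κ', hκe⟩ : ∃ κ' : ℝ, κ' = (k * (40 * y) + 10 * y + 20 * (k : ℝ) ^ 2 * φ + φ₀ * u +
    φ₀ * u + 8 * ((f : ℝ) + 1) * Cn' * φ + θ * u) * J + k * Real.log 5 := ⟨_, rfl⟩
  obtain ⟨V0, hVD0, hVF0⟩ := H1 _ H' LDh Na Nf Na0 Nf0 (fun l hl => by
    have e1 := NOs.f1 l hl
    rw [Na1, div_mul_cancel₀ _ hJp.ne']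
    rw [hP] at e1
    linarith only [e1]) (fun l => by rw [Nf1, hP]) κ' hκe.ge
  have V1 := vl2_cg V0 (jh_jp (F := F) (c := c) (k := k) (w := ⌊w * J⌋₊) (H := H')
    (fun l => Na l 0)) (jp_jh (fun l => Na l 0)) (jh_jp (fun l => Nf l 0))
    (jp_jh (fun l => Nf l 0))
  have V : VLaw2 (Pool.Agent.H49.Ent.cond F.p A True) (cR F A w₁) (cR F A (ow (fn ks)))
      (cR F A (ow (fn n))) (cR F A x') F.W
      (jp F c 0 (fun i : Fin k => (i : ℕ)) ⌊w * J⌋₊ H' fun l => Na l 0)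
      (jp F c 0 (fun i : Fin k => (i : ℕ)) ⌊w * J⌋₊ H' fun l => Nf l 0)
      (jp F c 1 (fun i : Fin k => (i : ℕ)) ⌊w * J⌋₊ H' fun l => Na l 1)
      (jp F c 1 (fun i : Fin k => (i : ℕ)) ⌊w * J⌋₊ H' fun l => Nf l 1)
      (jp F c 0 tg ⌊w * J⌋₊ H' fun v => Mn v) (jp F c 0 tg ⌊w * J⌋₊ H' fun v => Mf v)
      (fun ω => fun l : Fin k => F.X J ω (c l))
      ((∑ i ∈ range k, (nfP k sn w x' φ i - nnP k sn w u y φ i)) * Real.log 2 * J)
      ((∑ i ∈ range k, (1 - nfP k sn w x' φ i)) * Real.log 2 * J) κ' := by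
    rw [htg, hMn, hMf]
    exact V1
  have hVD := (ch_lt h0 (fun ω => (cR F A x' ω, F.W ω)) (jh_jp (F := F) (c := c) (k := k)
    (w := ⌊w * J⌋₊) (H := H') (nfP k sn w xr φ))).trans hVD0
  have hVF : ∀ X : ℕ, (X : ℝ) ≤ ξ * u * J → k * (X * Real.log 2) - κ' ≤
      CH (Pool.Agent.H49.Ent.cond F.p A True)
        (jp F c 0 (mvT k) ⌊w * J⌋₊ H' fun l => nfP k sn w xr φ l)
        (fun ω => (jp F c 0 (mvT k) ⌊w * J⌋₊ H' (fun l => Na l 0) ω,
          (cR F A (ow (fn n)) ω, F.W ω))) := by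
    intro X' hX'
    refine (hVF0 X' hX').trans ((ch_lt h0 _ (jp_jh _)).trans (CH_mono_cond h0 ?_))
    intro ω ν hω hν e
    simp only [Prod.mk.injEq] at e ⊢
    exact ⟨jh_jp _ ω ν hω hν e.1, e.2⟩
  obtain ⟨e₁, he₁⟩ : ∃ e₁ : ℝ, e₁ = θ * u * J + τ * ξ / 8 * u * J +
    ((D' : ℝ) + 2) * (501 * y * J * Real.log 2 + Real.log 5) + 2 * k * Real.log 5 := ⟨_, rfl⟩
  have t1 : 0 ≤ θ * u * J := mul_nonneg hθu.le hJ0
  have t2 : 0 ≤ τ * ξ / 8 * u * J := by positivity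
  have t3 : 0 ≤ 2 * k * Real.log 5 := by positivity
  have t5 : 0 ≤ ((D' : ℝ) + 2) * (501 * y * J * Real.log 2 + Real.log 5) := by positivity
  have hyJ : 1 ≤ y * J := by
    have e1 : φ * J ≤ y * J := mj (by
      obtain ⟨t1, t2, t3, t4, t5, t6, t7, -⟩ := Nn.sm
      linarith only [t1, t2, t3, t4, t7])
    linarith only [e1, big10]
  have hmmU : (2 : ℝ) ^ (Cg * Y) + 1 ≤ 2 ^ mm := by
    rw [hmm, pow_succ]
    have : (1 : ℝ) ≤ 2 ^ (Cg * Y) := one_le_pow₀ (by norm_num)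
    linarith only [this]
  have g1 : ∀ l : Fin k, Na l 1 * J + W ≤ (γ l + q + (X + mm) : ℕ) := fun l => by
    rw [Na1, div_mul_cancel₀ _ hJp.ne', sub_add_cancel]
  have g2 : ∀ l : Fin k, ((γ l + q + (X + mm) : ℕ) : ℝ) ≤ Nv l 1 * J + W := fun l => by
    rw [Nv1, div_mul_cancel₀ _ hJp.ne', sub_add_cancel]
  have g3 : ∀ l : Fin k, Nu l 0 * J ≤ (γ l + q : ℕ) := fun l => by
    have e1 := NOs.u0 l l.2
    rw [Nu0]
    exact e1
  have g4 : ∀ l : Fin k, Nu l 1 * J + W ≤ (γ l + q + (X + mm) : ℕ) := fun l => by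
    have e1 := NOs.u1 l l.2
    rw [Nu1]
    exact e1
  have g5 : ∀ v : Fin (f + 1), (-(|E| + 3)) * (J : ℝ) + W ≤ (γ (tg v) + q : ℕ) := fun v => by
    have e1 : (W : ℝ) ≤ J := by exact_mod_cast WJ
    have e2 : (0 : ℝ) ≤ ((γ (tg v) + q : ℕ) : ℝ) := Nat.cast_nonneg _
    have e3 : 0 ≤ |E| * J := by positivity
    linarith only [e1, e2, e3, hJ0]
  have g14 : ∀ s' l, (H' s' l).totalDegree ≤ D' := fun s' l => by
    by_cases hl : l ≤ k + f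
    · rw [hH']
      exact fht_deg WB hDD (hfb 0 (Nat.zero_le _)) hLb' _ _ s' l hl
    · rw [hH', hHN']
      unfold fhT
      rw [if_neg (by omega)]
      show (if l ≤ k + f then HN s' l else 0).totalDegree ≤ D'
      rw [if_neg hl, MvPolynomial.totalDegree_zero]
      exact Nat.zero_le _
  have g6 : ∀ ω, 0 < Pool.Agent.H49.Ent.cond F.p A True ω → ∀ v : Fin (f + 1),
      |(2 : ℝ) ^ ((-(|E| + 3)) * (J : ℝ)) * ojet F (c (tg v)) 1
        (H' (slam F ⌊w * J⌋₊ ω) (tg v)) ω| < 1 := by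
    intro ω hω v
    have hv := v.2
    rw [tgv]
    exact hJ₁ J (by omega) F (c (k + v)) A ⌊w * J⌋₊ (fun s' => H' s' (k + v)) hwJ'
      (fun s' => g14 s' _) (LDh.cw (k + v) (by omega) (by omega)) ω (hsup ω hω)
  have g7 : ∀ l : Fin k, CH (Pool.Agent.H49.Ent.cond F.p A True)
      (Pool.AVG71.cod F W 2 (D' + 1) (2 ^ (γ l + q + (X + mm))) (c l)
        (fun s => upw ⌊w * J⌋₊ W s) (fun s => H' s l)) F.W ≤ e₁ := by
    intro l
    have e1 := H2 _ _ H' LDh.toLD W hwW WJ l l.2 (γ l + q + (X + mm)) (NOs.k9 l l.2)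
    rw [he₁]
    linarith only [e1, t2, t3, t5]
  have g8 : ∀ l : Fin k, (Nv l 0 - Na l 0) * J ≤ 600 * y * J := fun l => by
    rw [Nv0, Na0, sub_mul, div_mul_cancel₀ _ hJp.ne']
    exact NTs.d l l.2
  have hcww : Det (Pool.Agent.H49.Ent.cond F.p A True) (cR F A w₁) (cR F A w) := by
    refine det_cR ((cl2_cR A w).mono ⟨fun x => x, fun _ _ => rfl⟩ ?_) hsup
    obtain ⟨φ', hφ'⟩ := vg_mono Nn.hw1 k3'.le J F
    exact ⟨φ', fun ω _ => hφ' ω⟩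
  have hx'T := abs_le.1 Nn.hx'
  have hPT : ∀ l < k, sn l w - w + (T + 1) * u ≤ P l := fun l hl => by
    rw [hP]
    exact p1 l hl
  have hdj' : ∀ v : Fin (f + 1), CH (Pool.Agent.H49.Ent.cond F.p A True)
      (Pool.AVG57.cod F ⌊w * J⌋₊ (fun s => H' s (k + v)) (c (k + v)) (γ (k + v) + q + X) 1
        (D' + 1))
      (fun ω => (jetm F c (fun i : Fin k => (i : ℕ)) ⌊w * J⌋₊ H' (fun l => Nf l) ω,
        (cR F A w₁ ω, F.W ω))) ≤ e₁ := by
    intro v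
    have hv := v.2
    obtain ⟨N', hN'⟩ : ∃ N' : ℕ, N' = ⌊(sn (k + v) w + (1 + (s - 1) / s) * u) * (J : ℝ)⌋₊ :=
      ⟨_, rfl⟩
    have hl0 : 0 ≤ (sn (k + v) w + (1 + (s - 1) / s) * u) * (J : ℝ) := by
      have e1 := (Nn.lwb (show k + (v : ℕ) ≤ k + f by omega)).1
      have e2 := Nn.room
      have e3 := Nn.Tu0
      have e4 := Nn.ru0
      rw [← hξe]
      refine mul_nonneg ?_ hJ0
      have e5 : 0 ≤ ξ * u := by positivity
      linarith only [e1, e2, e3, e4, e5, hu]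
    have e1 := hdj v N' (by rw [hN']; exact Nat.floor_le hl0)
    rw [hjet, ← hH'N] at e1
    have e2 := code_evp hcl (F := F) (c := c) (w := ⌊w * J⌋₊) (H := H') (k := k) (D := D' + 1)
      (j₀ := 1) (l := k + v) (N := N') (N' := γ (k + v) + q + X) (d := 501 * y * J)
      (n := fun (l' j' : ℕ) => sn l' w + T * u - (j' : ℝ) * w) (n' := Nf) (by
        have e3 := NTs.dj (k + v) (by omega) (by omega)
        have e4 := Nat.lt_floor_add_one ((sn (k + v) w + (1 + (s - 1) / s) * u) * (J : ℝ))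
        rw [← hN', ← hξe] at e4
        linarith only [e3, e4, hyJ]) (by positivity) (fun l' hl' => by
        obtain ⟨i1, i2, i3⟩ := Nn.li hl'
        rw [Nf0]
        unfold nfP
        push_cast
        linarith only [hx'T.1, i1, hφ0]) (fun l' hl' => by
        have e3 := hPT l' hl'
        rw [Nf1]
        push_cast
        linarith only [e3, hu]) hcww
    rw [he₁]
    push_cast at e2
    linarith only [e1, e2, t1]
  have hjt' : ∀ v : Fin (f + 1), CH (Pool.Agent.H49.Ent.cond F.p A True)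
      (Pool.AVG57.cod F ⌊w * J⌋₊ (fun s => H' s (k + v)) (c (k + v)) (γ (k + v) + q) 0 (D' + 1))
      (fun ω => (jetm F c (fun i : Fin k => (i : ℕ)) ⌊w * J⌋₊ H' (fun l => Nu l) ω,
        (cR F A (ow (fn n)) ω, F.W ω))) ≤ e₁ := by
    intro v
    have hv := v.2
    obtain ⟨N', hN'⟩ : ∃ N' : ℕ, N' = ⌊(sn (k + v) w + u) * (J : ℝ)⌋₊ := ⟨_, rfl⟩
    have hl0 : 0 ≤ (sn (k + v) w + u) * (J : ℝ) := by
      have e1 := (Nn.lwb (show k + (v : ℕ) ≤ k + f by omega)).1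
      have e2 := Nn.room
      have e3 := Nn.Tu0
      have e4 := Nn.ru0
      refine mul_nonneg ?_ hJ0
      linarith only [e1, e2, e3, e4, hu]
    have e1 := hjt v N' (by rw [hN']; exact Nat.floor_le hl0)
    rw [hjet, ← hH'N] at e1
    have e2 := code_evp hcl (F := F) (c := c) (w := ⌊w * J⌋₊) (H := H') (k := k) (D := D' + 1)
      (j₀ := 0) (l := k + v) (N := N') (N' := γ (k + v) + q) (d := 501 * y * J)
      (n := fun (l' j' : ℕ) => sn l' w + u + 400 * ((k : ℝ) + 2) * φ - (j' : ℝ) * w)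
      (n' := Nu) (by
        have e3 := NTs.jt (k + v) (by omega) (by omega)
        have e4 := Nat.lt_floor_add_one ((sn (k + v) w + u) * (J : ℝ))
        rw [← hN'] at e4
        linarith only [e3, e4, hyJ]) (by positivity) (fun l' hl' => by rw [hNu])
      (fun l' hl' => by rw [hNu]) (zw := cR F A (ow (fn n))) (zw' := cR F A (ow (fn n)))
      (fun _ _ _ _ e => e)
    rw [he₁]
    push_cast at e2
    linarith only [e1, e2, t1]
  -- the cells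
  have hmm2 : (mm : ℝ) ≤ u / 2 * J := MJ.mm2
  have hcells : ∀ ω ν, A ω → A ν → ptr F J ω = ptr F J ν →
      (∀ l < k, |hgt F c G₀ ω l - hgt F c G₀ ν l| ≤ 1 / 2 ^ (γ l + q + (X + mm))) ∧
      ∀ l, k ≤ l → l ≤ k + f → |hgt F c G₀ ω l - hgt F c G₀ ν l| ≤ 1 / 2 ^ (γ l + q + X) := by
    intro ω ν hω hν hpt
    have hLb'' : LbT F c k f D' w u φ E sn A (g₀ (fn 0)) (Gc (fn 0)) GN HN' := by
      rw [← how]
      rw [how] at hLb'
      rw [how]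
      exact hLb'
    obtain ⟨e1, e2⟩ := HC WB Nn L.inj (hfb 0 (Nat.zero_le _)) (hfn 0 (Nat.zero_le _)) hob how hlv
      hCη hEb zq hLb'' big10 hCc2 hmm2 ω ν hω hν hpt
    rw [← hq, ← hX, ← hγ, ← hG₀] at e1 e2
    exact ⟨e1, e2⟩
  -- the rows
  have g11 : ∀ j : ℕ, j * ⌊κ * X⌋₊ ≤ X → ∀ E' : Set F.Ω,
      π₀ ≤ Pr (Pool.Agent.H49.Ent.cond F.p A True) E' →
      CH (rs (Pool.Agent.H49.Ent.cond F.p A True) E')
        (Mm F c tg ⌊w * J⌋₊ H' (fun v => γ (tg v) + q + j * ⌊κ * X⌋₊))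
        (fun ω => (Mm F c tg ⌊w * J⌋₊ H' (fun v => γ (tg v) + q) ω,
          (jp F c 0 (fun i : Fin k => (i : ℕ)) ⌊w * J⌋₊ H' (fun l => nfP k sn w xr φ l) ω,
            (F.W ω, cR F A w₁ ω)))) ≤ ((f : ℝ) + 1 - h) * (j * (κ * X)) * Real.log 2 + τ * X := by
    intro j hj' E' hE'
    have haκ : (j : ℝ) * κ ≤ 1 := hX₁ X nX1 j hj'
    obtain ⟨B', hB'⟩ : ∃ B' : F.Ω → Prop, B' = fun ω => A ω ∧ ω ∈ E' := ⟨_, rfl⟩
    have r1 : rs (Pool.Agent.H49.Ent.cond F.p A True) E' =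
        Pool.Agent.H49.Ent.cond F.p B' True := by
      rw [hB']
      exact Pool.RPL.cond_and_ev F.p (E := fun ω => ω ∈ E') hA.ne'
    have r2 : π₀ * Pe F.p A ≤ Pe F.p B' := by
      rw [hB']
      exact pe_part hA (E := fun ω => ω ∈ E') hE'
    have r3 : Sub B' A := fun ω hω => by
      rw [hB'] at hω
      exact hω.1
    have hPB' : 0 < Pe F.p B' := lt_of_lt_of_le (mul_pos a3 hA) r2
    rw [r1]
    obtain ⟨v1, v2, v3, v4, v5⟩ := Nn.row_c haκ (c' := Cr * φ) (by positivity)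
      (mul_le_mul_of_nonneg_right hCrC hφ0.le)
    have e2 := H3 _ H' LDh j haκ ∅ (by simp) B' r3 r2
    have e1 := row_t (isLaw_cond F.isLaw hPB') (F := F) (c := c) (k := k) (w := ⌊w * J⌋₊)
      (H := H') (C := f) (f := f) (al := fun i => (i : ℕ)) (fun i => Nat.lt_succ_iff.1 i.2)
      (Dd := ∅) (fun v hv _ => ⟨⟨v, Nat.lt_succ_of_le hv⟩, rfl⟩) (nb := nfP k sn w xr φ)
      (γ := γ) (q₀ := q) (X := j * ⌊κ * X⌋₊)
      (Nn := fun v => if v ∈ (∅ : Finset ℕ) then sn (k + v) (xa j) - Cr * φ else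
        sn (k + v) w + u + 500 * y - 2 * φ)
      (Nf := fun v => if v = f then sn (k + f) w + u + 500 * y + j * κ * (ξ * u) else
        sn (k + v) (xa j) - Cr * φ) (fun i => by
        have hi := i.2
        show (if (i : ℕ) ∈ (∅ : Finset ℕ) then sn (k + i) (xa j) - Cr * φ else
          sn (k + i) w + u + 500 * y - 2 * φ) * (J : ℝ) ≤ _
        rw [if_neg (Finset.notMem_empty _)]
        exact (NOs.row j haκ (k + i) (by omega) (by omega)).1) (fun i => by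
        have hi := i.2
        obtain ⟨n1, n2, n3⟩ := NOs.row j haκ (k + i) (by omega) (by omega)
        show _ ≤ (if (i : ℕ) = f then sn (k + f) w + u + 500 * y + j * κ * (ξ * u) else
          sn (k + i) (xa j) - Cr * φ) * (J : ℝ)
        split_ifs with hif
        · rw [hif] at n2 ⊢
          exact n2
        · have v6 := (v5 (k + i) (by omega) (by omega)).2.2.2.2.2.2.2.2.2.2.2.2.2.2.2
          exact n2.trans (mj v6)) (fun v hv => absurd hv (Finset.notMem_empty _))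
      e2 (δ := 0) (fun v _ hv => absurd hv (Finset.notMem_empty _)) le_rfl
    have e3 := r_letb K a6 hξ0 hu hJ0 hFl.x1 hφ0.le hφθ hyθ hy0 hCrφ hh hh1 a1
      (a := (j : ℝ)) (Nat.cast_nonneg j) haκ z1 a8
    have e4 : (range f \ (∅ : Finset ℕ)).card = f := by
      rw [Finset.sdiff_empty, card_range]
    rw [e4] at e1
    rw [htg]
    refine e1.trans (le_trans (le_of_eq ?_) e3)
    ring
  -- the fullness
  have g12 : ∀ i j : ℕ, i ≤ j → j * ⌊κ * X⌋₊ ≤ X → ∀ v : Fin (f + 1), v < Fin.last f →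
      ∀ (V : Type) (z : PtT F → V) (z' : LnT F → V) (E' : F.Ω → Prop),
      (∀ ω, 0 < Pool.Agent.H49.Ent.cond F.p A True ω →
        E' ω → z (ptr F J ω) = z' (slam F W ω)) →
      π₀ ≤ Pe (Pool.Agent.H49.Ent.cond F.p A True) E' →
      (j - i) * (κ * X) * Real.log 2 - τ * X ≤
        CH (Pool.Agent.H49.Ent.cond (Pool.Agent.H49.Ent.cond F.p A True) E' True)
          (fun ω => Mm F c tg ⌊w * J⌋₊ H' (fun u' => γ (tg u') + q + j * ⌊κ * X⌋₊) ω v)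
          (fun ω => (z' (slam F W ω),
            (Mm F c tg ⌊w * J⌋₊ H'
              (fun u' => γ (tg u') + q + (if u' < v then j else i) * ⌊κ * X⌋₊) ω,
              (jp F c 0 (fun i : Fin k => (i : ℕ)) ⌊w * J⌋₊ H' (fun l => nfP k sn w xr φ l) ω,
                (F.W ω, cR F A w₁ ω))))) := by
    intro i j hij hj' v hvl V z z' E' hz hE'
    have hvf : (v : ℕ) < f := hvl
    obtain ⟨B', hB'⟩ : ∃ B' : F.Ω → Prop, B' = fun ω => A ω ∧ (E' ω ∧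
      z (ptr F J ω) = z' (slam F W ω)) := ⟨_, rfl⟩
    obtain ⟨r0, r0'⟩ := cond_supp h0 (E := E') (E' := fun ω => E' ω ∧
      z (ptr F J ω) = z' (slam F W ω)) (fun ω hω => ⟨fun h1 => ⟨h1, hz ω hω h1⟩, fun h1 => h1.1⟩)
    have r1 : Pool.Agent.H49.Ent.cond (Pool.Agent.H49.Ent.cond F.p A True) E' True =
        Pool.Agent.H49.Ent.cond F.p B' True := by
      rw [hB', r0]
      exact Pool.RPL.cond_and_ev F.p hA.ne'
    have r2 : π₀ * Pe F.p A ≤ Pe F.p B' := by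
      rw [hB']
      refine pe_part hA (E := fun ω => E' ω ∧ z (ptr F J ω) = z' (slam F W ω)) ?_
      rw [← r0']
      exact hE'
    have r3 : Sub B' A := fun ω hω => by
      rw [hB'] at hω
      exact hω.1
    have hPB' : 0 < Pe F.p B' := lt_of_lt_of_le (mul_pos a3 hA) r2
    have hclB := isLaw_cond F.isLaw hPB'
    rw [r1]
    rcases Nat.lt_or_eq_of_le hij with hlt | rfl
    · have haκ : (j : ℝ) * κ ≤ 1 := hX₁ X nX1 j hj'
      have haκi : (i : ℝ) * κ ≤ 1 :=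
        (mul_le_mul_of_nonneg_right (by exact_mod_cast hij) a1.le).trans haκ
      obtain ⟨v1, v2, v3, -, -⟩ := Nn.fiu_c hlt haκ (c' := Cf * φ) (by positivity)
        (mul_le_mul_of_nonneg_right hCfC hφ0.le)
      obtain ⟨-, -, -, -, vj⟩ := Nn.row_c haκ (c' := Cf * φ) (by positivity)
        (mul_le_mul_of_nonneg_right hCfC hφ0.le)
      obtain ⟨-, -, -, -, vi⟩ := Nn.row_c haκi (c' := Cf * φ) (by positivity)
        (mul_le_mul_of_nonneg_right hCfC hφ0.le)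
      have hw1000 : w + 1000 * φ ≤ 1 := by
        linarith only [v1, v3, mul_nonneg (zero_le_one.trans hCf) hφ0.le]
      have hcz : Cl2 (ptr F J) (vg (w + 1000 * φ) J F) B'
          (fun ω => (z' (slam F W ω), cR F A w₁ ω)) := by
        refine Cl2.join ⟨⟨z, fun ω hω => ?_⟩, fun s' => z' (upw W ⌊(w + 1000 * φ) * J⌋₊ s'),
          fun ω _ => ?_⟩ (((cl2_cR A w₁).sub r3).mono ⟨fun x => x, fun _ _ => rfl⟩ ?_)
        · rw [hB'] at hω
          exact hω.2.2.symm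
        · show z' (slam F W ω) = z' (upw W ⌊(w + 1000 * φ) * J⌋₊ (slam F ⌊(w + 1000 * φ) * J⌋₊ ω))
          rw [upw_slam F (Nat.le_floor (hW2.trans (mj (by linarith only [hφ0]))))
            (floor_le hw1000 J)]
        · obtain ⟨φ', hφ'⟩ := vg_mono (w := w₁) (w' := w + 1000 * φ)
            (by linarith only [Nn.hw2, hφ0]) hw1000 J F
          exact ⟨φ', fun ω _ => hφ' ω⟩
      have e1 := ful_t hclB (F := F) (c := c) (k := k) (w := ⌊w * J⌋₊) (f := f)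
        (H := H') (nb := nfP k sn w xr φ) (v := v)
        (N₁ := fun u' => γ (tg u') + q + (if u' < v then j else i) * ⌊κ * X⌋₊)
        (N₂ := fun u' => γ (tg u') + q + j * ⌊κ * X⌋₊)
        (Nn := fun v' => if v' = f then sn (k + f) w + u + 500 * y + i * κ * (ξ * u) else
          sn (k + v') (xa (if v' < (v : ℕ) then j else i)) - Cf * φ)
        (Q₂ := sn (k + v) w + u + 500 * y + j * κ * (ξ * u) - 2 * φ)
        (fun u' => by
          have hu' := u'.2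
          show ((γ (tg u') + q + (if u' < v then j else i) * ⌊κ * X⌋₊ : ℕ) : ℝ) ≤
            (if (u' : ℕ) = f then sn (k + f) w + u + 500 * y + i * κ * (ξ * u) else
              sn (k + u') (xa (if (u' : ℕ) < (v : ℕ) then j else i)) - Cf * φ) * (J : ℝ)
          rw [tgv]
          by_cases h1 : (u' : ℕ) = f
          · rw [if_pos h1, if_neg (show ¬ u' < v from fun h2 => by
              have h3 : (u' : ℕ) < (v : ℕ) := h2
              omega), h1]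
            exact (NOs.row i haκi (k + f) (by omega) le_rfl).2.1
          · rw [if_neg h1]
            by_cases h2 : u' < v
            · rw [if_pos h2, if_pos (show (u' : ℕ) < (v : ℕ) from h2)]
              have v6 := (vj (k + u') (by omega) (by omega)).2.2.2.2.2.2.2.2.2.2.2.2.2.2.2
              exact (NOs.row j haκ (k + u') (by omega) (by omega)).2.1.trans (mj v6)
            · rw [if_neg h2, if_neg (show ¬ (u' : ℕ) < (v : ℕ) from h2)]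
              have v6 := (vi (k + u') (by omega) (by omega)).2.2.2.2.2.2.2.2.2.2.2.2.2.2.2
              exact (NOs.row i haκi (k + u') (by omega) (by omega)).2.1.trans (mj v6))
        (by
          show (sn (k + v) w + u + 500 * y + j * κ * (ξ * u) - 2 * φ) * (J : ℝ) ≤
            ((γ (tg v) + q + j * ⌊κ * X⌋₊ : ℕ) : ℝ)
          rw [tgv]
          exact (NOs.row j haκ (k + v) (by omega) (by omega)).2.2) (cR F A w₁)
        (fun ω => z' (slam F W ω))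
      rw [← htg] at e1
      have e2 := H4 _ H' LDh i j hlt haκ v hvf B' r3 r2 _ _ hcz
      have e3 := f_letb K a6 hξ0 hu hJ0 hFl.x1 hFl.x2 hyθ hy0 hCfφ a1
        (a := (j : ℝ) - i) (sub_nonneg.2 (by exact_mod_cast hij)) z1 a8
      exact e3.trans ((sub_le_sub_right e2 _).trans e1)
    · have e1 : ((i : ℝ) - i) * (κ * X) * Real.log 2 - τ * X ≤ 0 := by
        rw [sub_self, zero_mul, zero_mul, zero_sub]
        have : 0 ≤ τ * X := by positivity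
        linarith only [this]
      exact e1.trans (CH_nonneg hclB.nonneg _ _)
  -- the budget
  have g13 : κ' + 600 * y * J + e₁ + Ca + θ * u * J ≤ τ * X := by
    rw [hκe, he₁]
    have e1 := e_let K a6 hξ0 hu hJ0 hFl.x1 hy0 hyθ hφ0.le hφθ hφ₀u hCnφ z1 a8
    exact e1
  have g15 := det_cR (hchp ks hks (b5.trans ho1')) hsup
  have g16 := det_cR (hchp n le_rfl (b7.trans ho1')) hsup
  have g17 : Det (Pool.Agent.H49.Ent.cond F.p A True) (ptr F J) (cR F A w₁) := by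
    obtain ⟨φ', hφ'⟩ := (cl2_cR A w₁ : Cl2 (ptr F J) (vg w₁ J F) A (cR F A w₁)).1
    intro ω ν hω hν e
    rw [hφ' ω (hsup ω hω), hφ' ν (hsup ν hν), e]
  have m01 : ∀ v : Fin (f + 1), Mn v * J ≤ (γ (tg v) + q : ℕ) := fun v => by
    have hv := v.2
    rw [Mnv, tgv]
    exact NTs.m0 (k + v) (by omega) (by omega)
  have m02 : ∀ v : Fin (f + 1), ((γ (tg v) + q : ℕ) : ℝ) ≤ Mn v * J + 600 * y * J := fun v => by
    have hv := v.2
    rw [Mnv, tgv]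
    exact NTs.m1 (k + v) (by omega) (by omega)
  have m03 : ∀ v : Fin (f + 1), ((γ (tg v) + q + X : ℕ) : ℝ) ≤ Mf v * J := fun v => by
    have hv := v.2
    rw [hMf, tgv]
    show _ ≤ (if (v : ℕ) = f then lam oq else sn (k + v) xq - Cn' * φ) * (J : ℝ)
    split_ifs with h1
    · rw [h1]
      exact NTs.mf
    · exact NTs.mq (k + v) (by omega) (by omega)
  have m04 : ∀ v : Fin (f + 1), Mf v * J ≤ (γ (tg v) + q + X : ℕ) + 600 * y * J := fun v => by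
    have hv := v.2
    rw [hMf, tgv]
    show (if (v : ℕ) = f then lam oq else sn (k + v) xq - Cn' * φ) * (J : ℝ) ≤ _
    split_ifs with h1
    · rw [h1]
      exact NTs.mf'
    · exact NTs.mq' (k + v) (by omega) (by omega)
  have g18 : ∀ ω ν, 0 < Pool.Agent.H49.Ent.cond F.p A True ω →
      0 < Pool.Agent.H49.Ent.cond F.p A True ν → ptr F J ω = ptr F J ν →
      (∀ j : Fin k, |hgt F c G₀ ω j - hgt F c G₀ ν j| ≤ 1 / 2 ^ (γ j + q + (X + mm))) ∧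
      ∀ v : Fin (f + 1), |hgt F c G₀ ω (tg v) - hgt F c G₀ ν (tg v)| ≤
        1 / 2 ^ (γ (tg v) + q + X) := by
    intro ω ν hω hν hpt
    obtain ⟨e1, e2⟩ := hcells ω ν (hsup ω hω) (hsup ν hν) hpt
    refine ⟨fun j => e1 j j.2, fun v => ?_⟩
    have hv := v.2
    rw [tgv]
    exact e2 (k + v) (by omega) (by omega)
  have hHF := HF (c := c) (mv := fun i : Fin k => (i : ℕ)) (tg := tg) (qt := fun _ => q) (q := q)
    (w := ⌊w * J⌋₊) (W := W) (X := X) (mm := mm) (D := D') (γ := γ) (B := A) (G₀ := G₀) (H := H')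
    (gg := gg) (zw := cR F A w₁) (Cj := chT F k f ks Gc GN (fb 0) fn)
    (Cx := chT F k f n Gc GN (fb 0) fn)
    (Rj := cR F A (ow (fn ks))) (Rx := cR F A (ow (fn n))) (R' := cR F A x')
    (XJ := fun ω => fun l : Fin k => F.X J ω (c l))
    (p := Pool.Agent.H49.Ent.cond F.p A True) (Nf := fun l => Nf l) (Nn := fun l => Na l)
    (Nu := fun l => Nu l) (Nv := fun l => Nv l)
    (nb := fun l => nfP k sn w xr φ l) (Mf := fun v => Mf v) (Mn := fun v => Mn v)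
    (vt := fun _ => -(|E| + 3))
    (U := 2 ^ (Cg * Y)) (κ' := κ')
    (e₁ := e₁) (d := 600 * y * J) (ψ := θ * u) hcl hsup hwW NOs.WX g14 le_rfl
    (fun ω hω => ⟨fun v => hcls0 ω hω _ (by
      have hv := v.2
      rw [tgv]
      omega), fun j => hcls0 ω hω _ (by
      have hj := j.2
      omega)⟩) hGrd hmmU V g15 g16
    (det_slam hw₁W WJ hsup) g17
    (fun l => by rw [Na0]; exact NOs.n0 l l.2) g1 g3 g4 m01 m02 m03 m04 g5 g6 g7
    (fun l => by rw [Nf0]; exact NOs.f0 l l.2)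
    (fun l => by rw [Nf1]; exact NOs.f1 l l.2)
    (fun l => by rw [Nv0, div_mul_cancel₀ _ hJp.ne']) g2
    (fun l => by rw [Nv1, Na1]) (by positivity) g8
    (fun v => by rw [tgv]; exact hdj' v) (fun v => by rw [tgv]; exact hjt' v)
    hVD (hVF X hFl.x2)
    (fun l => NOs.nb1 l l.2) (fun l => NOs.nb2 l l.2) g18 g11 g12 TW
    nX0 g13 nmm
  obtain ⟨Gd, la, laP, mu, l3, l0, l1, l2, l4⟩ := hHF
  have hU : (2 : ℝ) ^ (Cg * Y) ≤ 2 ^ (ι * u * J) := by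
    rw [← Real.rpow_natCast]
    refine Real.rpow_le_rpow_of_exponent_le one_le_two ?_
    push_cast
    exact m3
  have hcx : ∀ ω ν : F.Ω, ptr F J ω = ptr F J ν →
      chT F k f n Gc GN (fb 0) fn ω = chT F k f n Gc GN (fb 0) fn ν := by
    intro ω ν e
    unfold chT chs
    rw [e]
  have hgc : ∀ ω ν, A ω → A ν → ptr F J ω = ptr F J ν → ∀ (v : Fin (f + 1)) (i : Fin k),
      |gg ω v i - gg ν v i| ≤ 2 ^ (-((s - 1) / s / 2 * u * J)) := by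
    intro ω ν hω hν hpt v i
    have e1 := gg_cellT (mm := mm) hGrd hcx (fun ω ν hω hν e l hl =>
      (hcells ω ν hω hν e).1 l hl) hω hν hpt v i
    refine e1.trans ?_
    rw [div_le_iff₀ (by positivity), ← Real.rpow_natCast, ← Real.rpow_natCast,
      ← Real.rpow_add two_pos]
    refine Real.rpow_le_rpow_of_exponent_le one_le_two ?_
    push_cast
    rw [← hξe]
    linarith only [m4]
  obtain ⟨E', hE'⟩ : ∃ E' : F.Ω → Prop, E' = fun ω => Gd ω ∧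
    0 < Pool.Agent.H49.Ent.cond F.p A True ω := ⟨_, rfl⟩
  have hPE : m₀ ≤ Pe (Pool.Agent.H49.Ent.cond F.p A True) E' := by
    have e1 := (cond_supp h0 (E := Gd) (E' := E') (fun ω hω => by
      rw [hE']
      exact ⟨fun h1 => ⟨h1, hω⟩, fun h1 => h1.1⟩)).2
    rw [← e1]
    exact l3
  obtain ⟨mu', hmu'⟩ : ∃ mu' : LnT F → ℕ → Polynomial ℝ, mu' = fun s' i =>
    if h : i < k then mu s' ⟨i, h⟩ else 0 := ⟨_, rfl⟩
  have hmu1 : ∀ s' i (hi : i < k), mu' s' i = mu s' ⟨i, hi⟩ := fun s' i hi => by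
    rw [hmu']
    exact dif_pos hi
  have hmu2 : ∀ s' i, ¬ i < k → mu' s' i = 0 := fun s' i hi => by
    rw [hmu']
    exact dif_neg hi
  obtain ⟨la', hla'⟩ : ∃ la' : LnT F → ℕ → ℝ, la' = fun s' l =>
    if h : l < f + 1 then la s' ⟨l, h⟩ else 0 := ⟨_, rfl⟩
  obtain ⟨lp', hlp'⟩ : ∃ lp' : PtT F → ℕ → ℝ, lp' = fun s' l =>
    if h : l < f + 1 then laP s' ⟨l, h⟩ else 0 := ⟨_, rfl⟩
  have hla1 : ∀ s' l (hl : l < f + 1), la' s' l = la s' ⟨l, hl⟩ := fun s' l hl => by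
    rw [hla']
    exact dif_pos hl
  have hlp1 : ∀ s' l (hl : l < f + 1), lp' s' l = laP s' ⟨l, hl⟩ := fun s' l hl => by
    rw [hlp']
    exact dif_pos hl
  refine ⟨fun ω hω l h11 h12 i hi => (hNb ω hω l h11 h12 i hi).trans hU,
    fun ω ν hω hν hpt l h11 h12 i hi => ?_, f, W, fun ω => A ω ∧ E' ω, la', lp', mu', le_rfl,
    ⟨0, rfl⟩, hwW, hW2, fun ω hω => hω.1, pe_part hA hPE, fun s' l => ?_, fun s' i => ?_,
    fun ω hω => ?_⟩
  · obtain ⟨v, rfl⟩ : ∃ v, l = k + v := ⟨l - k, by omega⟩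
    have e1 := hgc ω ν hω hν hpt ⟨v, by omega⟩ ⟨i, hi⟩
    rw [ggv, ggv] at e1
    exact e1
  · by_cases hl : l < f + 1
    · rw [hla1 s' l hl]
      refine (l1 s' ⟨l, hl⟩).trans (Real.rpow_le_rpow_of_exponent_le one_le_two ?_)
      have e1 : ζ₂ * X ≤ ζ₂ * (ξ * u * J) := mul_le_mul_of_nonneg_left hFl.x2 q3
      linarith only [e1]
    · rw [hla']
      simp only [dif_neg hl, abs_zero]
      positivity
  · by_cases hi : i < k
    · rw [hmu1 s' i hi]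
      exact l2 s' ⟨i, hi⟩
    · rw [hmu2 s' i hi, Polynomial.natDegree_zero]
      exact Nat.zero_le _
  · obtain ⟨-, h2⟩ := hω
    rw [hE'] at h2
    obtain ⟨e1, e2⟩ := l4 ω h2.2 h2.1
    refine ⟨fun l hl => ?_, fun i hi => ?_⟩
    · rw [hla1 _ l (by omega), hlp1 _ l (by omega), e1]
    · have e3 := e2 ⟨i, hi⟩
      have e4 : ∑ v, la (slam F W ω) v * gg ω v ⟨i, hi⟩ =
          ggT F c k Gc GN (fb 0) (fn n) (g₀ (fn 0)) (k + f) ω i +
            ∑ l ∈ range f, la' (slam F W ω) l *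
              ggT F c k Gc GN (fb 0) (fn n) (g₀ (fn 0)) (k + l) ω i := by
        rw [Fin.sum_univ_castSucc, l0, one_mul, ggv, add_comm, Fin.val_last, Finset.sum_range]
        congr 1
        refine Finset.sum_congr rfl fun l _ => ?_
        rw [ggv, hla1 _ l (by omega)]
        rfl
      rw [e4] at e3
      rw [hmu1 _ i hi]
      refine e3.trans (Real.rpow_le_rpow_of_exponent_le one_le_two ?_)
      have e5 : κ₂ * (ξ / 2 * u * J) ≤ κ₂ * X := mul_le_mul_of_nonneg_left m5 q1.le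
      linarith only [e5]

end Pool.V0T
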